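import Mathlib

/-!
The orbit lemma for `l`-groups acting on finite sets, and the `l`-power lemma for trace forms on
algebras of characteristic `l`.
-/

open scoped BigOperators

namespace Pool.Agent.PP.H74

section orbit

variable {l : ℕ} [Fact l.Prime] {R T V : Type*} [Group R] [MulAction R T] [Fintype T]
  [AddCommGroup V]

/-- Orbit lemma: an `l`-group `R` acts on a finite set `T`, the function `h` is invariant and has
values in a group killed by `l`; then the sum of `h` over `T` is the sum over the fixed points. -/
theorem orbit_sum (hR : IsPGroup l R) (hV : ∀ v : V, l • v = 0) (h : T → V)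
    (hinv : ∀ (r : R) (t : T), h (r • t) = h t) [DecidablePred fun t : T => ∀ r : R, r • t = t] :
    ∑ t, h t = ∑ t with (∀ r : R, r • t = t), h t := by
  classical
  -- sums through level sets
  have key : ∀ S : Finset T, ∑ t ∈ S, h t =
      ∑ v ∈ (Finset.univ : Finset T).image h, (S.filter fun t => h t = v).card • v := by
    intro S
    rw [← Finset.sum_fiberwise_of_maps_to (s := S) (t := (Finset.univ : Finset T).image h)
      (g := h) (fun t _ => Finset.mem_image_of_mem _ (Finset.mem_univ _))]
    apply Finset.sum_congr rfl
    intro v _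
    rw [Finset.sum_congr rfl (fun t ht => (Finset.mem_filter.1 ht).2), Finset.sum_const]
  rw [key Finset.univ, key (Finset.univ.filter fun t => ∀ r : R, r • t = t)]
  apply Finset.sum_congr rfl
  intro v _
  -- the action on the level set
  let L : Type _ := {t : T // h t = v}
  let _ : MulAction R L :=
    { smul := fun r t => ⟨r • t.1, by rw [hinv]; exact t.2⟩
      one_smul := fun t => Subtype.ext (one_smul R t.1)
      mul_smul := fun r s t => Subtype.ext (mul_smul r s t.1) }
  have hsm : ∀ (r : R) (t : L), ((r • t : L) : T) = r • (t : T) := fun _ _ => rfl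
  have h1 := hR.card_modEq_card_fixedPoints (α := L)
  have h2 : Nat.card L = (Finset.univ.filter fun t => h t = v).card := by
    rw [Nat.card_eq_fintype_card, Fintype.card_subtype]
  have h3 : Nat.card (MulAction.fixedPoints R L) =
      ((Finset.univ.filter fun t => ∀ r : R, r • t = t).filter fun t => h t = v).card := by
    rw [Nat.card_eq_fintype_card, ← Fintype.card_coe]
    apply Fintype.card_congr
    refine
      { toFun := fun t => ⟨t.1.1, by
          rw [Finset.mem_filter, Finset.mem_filter]
          refine ⟨⟨Finset.mem_univ _, fun r => ?_⟩, t.1.2⟩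
          have := MulAction.mem_fixedPoints.1 t.2 r
          rw [← hsm, this]⟩
        invFun := fun t => ⟨⟨t.1, (Finset.mem_filter.1 t.2).2⟩, by
          rw [MulAction.mem_fixedPoints]
          intro r
          apply Subtype.ext
          rw [hsm]
          exact (Finset.mem_filter.1 (Finset.mem_filter.1 t.2).1).2 r⟩
        left_inv := fun t => rfl
        right_inv := fun t => rfl }
  rw [h2, h3] at h1
  have hmod : ∀ a b : ℕ, a ≡ b [MOD l] → a • v = b • v := by
    intro a b hab
    have hv : ∀ c : ℕ, c • v = (c % l) • v := by
      intro c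
      conv_lhs => rw [← Nat.mod_add_div c l]
      rw [add_smul, mul_comm, mul_smul, hV, smul_zero, add_zero]
    rw [hv a, hv b, hab]
  exact hmod _ _ h1

/-- The orbit lemma for a function with values in a ring of characteristic `l`. -/
theorem orbit_sum_ring {A : Type*} [Ring A] [CharP A l] (hR : IsPGroup l R) (h : T → A)
    (hinv : ∀ (r : R) (t : T), h (r • t) = h t) [DecidablePred fun t : T => ∀ r : R, r • t = t] :
    ∑ t, h t = ∑ t with (∀ r : R, r • t = t), h t :=
  orbit_sum hR (fun v => by rw [nsmul_eq_mul, CharP.cast_eq_zero, zero_mul]) h hinv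

end orbit

section words

/-- expansion of the power of a sum over words -/
theorem sum_pow_words {A ι : Type*} [Semiring A] [Fintype ι] (b : ι → A) (m : ℕ) :
    (∑ j, b j) ^ m = ∑ w : Fin m → ι, (List.ofFn fun i => b (w i)).prod := by
  classical
  induction m with
  | zero => simp
  | succ m ih =>
    rw [pow_succ', ih, Finset.sum_mul_sum, ← Fintype.sum_prod_type',
      ← (Fin.consEquiv (fun _ : Fin (m + 1) => ι)).sum_comp]
    apply Finset.sum_congr rfl
    rintro ⟨j, w⟩ _
    simp [List.ofFn_succ, Fin.consEquiv]

theorem trace_rotate {A V : Type*} [Monoid A] (g : A → V) (hg : ∀ a b, g (a * b) = g (b * a))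
    (L : List A) (k : ℕ) : g (L.rotate k).prod = g L.prod := by
  rw [List.rotate_eq_drop_append_take_mod, List.prod_append, hg, ← List.prod_append,
    List.take_append_drop]

variable {l : ℕ} [Fact l.Prime]

/-- `l`-power lemma: `g` is additive with `g (a b) = g (b a)` and values in a group killed by `l`;
then `g ((∑ b_j) ^ (l ^ n)) = ∑ g (b_j ^ (l ^ n))`. -/
theorem pow_sum {A V ι : Type*} [Ring A] [AddCommGroup V] [Fintype ι] (hV : ∀ v : V, l • v = 0)
    (g : A →+ V) (hg : ∀ a b, g (a * b) = g (b * a)) (b : ι → A) (n : ℕ) :
    g ((∑ j, b j) ^ (l ^ n)) = ∑ j, g (b j ^ (l ^ n)) := by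
  classical
  have hl : 0 < l := (Fact.out : l.Prime).pos
  have hpos : 0 < l ^ n := Nat.pow_pos hl
  have : NeZero (l ^ n) := ⟨hpos.ne'⟩
  rw [sum_pow_words, map_sum]
  -- the rotation action of the additive group `Fin (l ^ n)`
  let C : Type := Multiplicative (Fin (l ^ n))
  let _ : MulAction C (Fin (l ^ n) → ι) :=
    { smul := fun r w => fun i => w (i + Multiplicative.toAdd r)
      one_smul := fun w => by
        funext i
        change w (i + 0) = w i
        rw [add_zero]
      mul_smul := fun r s w => by
        funext i
        change w (i + (Multiplicative.toAdd r + Multiplicative.toAdd s)) =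
          w (i + Multiplicative.toAdd r + Multiplicative.toAdd s)
        rw [add_assoc] }
  have hsm : ∀ (r : C) (w : Fin (l ^ n) → ι) (i : Fin (l ^ n)),
      (r • w) i = w (i + Multiplicative.toAdd r) := fun _ _ _ => rfl
  have hC : IsPGroup l C := by
    apply IsPGroup.of_card (n := n)
    exact (Nat.card_congr (Multiplicative.toAdd : C ≃ Fin (l ^ n))).trans (Nat.card_fin _)
  have hinv : ∀ (r : C) (w : Fin (l ^ n) → ι),
      g ((List.ofFn fun i => b ((r • w) i)).prod) = g ((List.ofFn fun i => b (w i)).prod) := by
    intro r w
    have : (List.ofFn fun i => b ((r • w) i)) =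
        (List.ofFn fun i => b (w i)).rotate (Multiplicative.toAdd r : Fin (l ^ n)).val := by
      apply List.ext_getElem
      · simp
      · intro i h1 h2
        rw [List.getElem_rotate, List.getElem_ofFn, List.getElem_ofFn, hsm]
        congr 2
        apply Fin.ext
        rw [Fin.val_add]
        simp
    rw [this, trace_rotate (fun a => g a) hg]
  rw [orbit_sum hC hV _ hinv]
  -- the fixed words are the constant ones
  have hfix : ∀ w : Fin (l ^ n) → ι, (∀ r : C, r • w = w) ↔ ∃ j, w = fun _ => j := by
    intro w
    constructor
    · intro h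
      refine ⟨w 0, ?_⟩
      funext i
      have := congrFun (h (Multiplicative.ofAdd i)) 0
      rw [hsm] at this
      simpa using this
    · rintro ⟨j, rfl⟩ r
      funext i
      rw [hsm]
  have hset : (Finset.univ.filter fun w : Fin (l ^ n) → ι => ∀ r : C, r • w = w) =
      (Finset.univ : Finset ι).image (fun j => fun _ => j) := by
    ext w
    rw [Finset.mem_filter, Finset.mem_image, hfix]
    constructor
    · rintro ⟨_, j, rfl⟩
      exact ⟨j, Finset.mem_univ _, rfl⟩
    · rintro ⟨j, _, rfl⟩
      exact ⟨Finset.mem_univ _, j, rfl⟩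
  rw [hset, Finset.sum_image]
  · apply Finset.sum_congr rfl
    intro j _
    rw [List.ofFn_const, List.prod_replicate]
  · intro i _ j _ hij
    exact congrFun hij 0

end words

end Pool.Agent.PP.H74
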