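import Pool.Agent.Helper94_PP.Defs
import Pool.Agent.Helper74_PP.Orbit

/-!
Functions on a finite group as elements of the group algebra; functionals; `ℓ'`-parts.
-/

open scoped BigOperators

set_option linter.unusedSectionVars false

noncomputable section

namespace Pool.Agent.PP.H74

open Pool.Agent.PP

section alg

variable {F H : Type} [Field F] [Group H] [Fintype H]

theorem actF_eq (a f : H → F) (x : H) : actF a f x = ∑ t, a t * f (t * x) :=
  finsum_eq_sum_of_fintype _

theorem mulF_eq (a b : H → F) (x : H) : mulF a b x = ∑ t, a t * b (t⁻¹ * x) :=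
  finsum_eq_sum_of_fintype _

theorem ev_eq {n : ℕ} (ρ : H →* Matrix (Fin n) (Fin n) F) (a : H → F) :
    ev ρ a = ∑ t, a t • ρ t := finsum_eq_sum_of_fintype _

/-- the element of the group algebra -/
def ma (a : H → F) : MonoidAlgebra F H := ∑ t, MonoidAlgebra.single t (a t)

theorem coeff_ma (a : H → F) (t : H) : (ma a).coeff t = a t := by
  classical
  rw [ma, MonoidAlgebra.coeff_sum, Finsupp.finsetSum_apply]
  simp [Finsupp.single_apply]

theorem ma_coeff (z : MonoidAlgebra F H) : ma (fun t => z.coeff t) = z := by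
  apply MonoidAlgebra.ext
  ext t
  rw [coeff_ma]

theorem ma_injective : Function.Injective (ma : (H → F) → MonoidAlgebra F H) := by
  intro a b hab
  funext t
  rw [← coeff_ma a, hab, coeff_ma]

theorem ma_mul (a b : H → F) : ma a * ma b = ma (mulF a b) := by
  classical
  unfold ma
  rw [Finset.sum_mul_sum]
  have h1 : ∀ s : H, ∑ t, MonoidAlgebra.single s (a s) * MonoidAlgebra.single t (b t) =
      ∑ x, MonoidAlgebra.single x (a s * b (s⁻¹ * x)) := by
    intro s
    rw [← Equiv.sum_comp (Equiv.mulLeft s) (fun x => MonoidAlgebra.single x (a s * b (s⁻¹ * x)))]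
    apply Finset.sum_congr rfl
    intro t _
    simp
  simp_rw [h1]
  rw [Finset.sum_comm]
  apply Finset.sum_congr rfl
  intro x _
  rw [mulF_eq]
  apply MonoidAlgebra.ext
  rw [MonoidAlgebra.coeff_sum]
  simp only [MonoidAlgebra.coeff_single]
  rw [← Finsupp.single_finsetSum]

theorem ma_zero : ma (0 : H → F) = 0 := by
  simp [ma]

theorem ma_add (a b : H → F) : ma (a + b) = ma a + ma b := by
  apply MonoidAlgebra.ext
  ext t
  rw [MonoidAlgebra.coeff_add, Finsupp.add_apply, coeff_ma, coeff_ma, coeff_ma]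
  rfl

theorem ma_iterate (a : H → F) (k : ℕ) : ma ((mulF a)^[k] a) = ma a ^ (k + 1) := by
  induction k with
  | zero => simp
  | succ k ih => rw [Function.iterate_succ_apply', ← ma_mul, ih, pow_succ' (ma a) (k + 1)]

/-- the functional on the group algebra given by a function on the group -/
def fl (f : H → F) : MonoidAlgebra F H →+ F := MonoidAlgebra.liftNC (AddMonoidHom.id F) f

theorem fl_single (f : H → F) (t : H) (c : F) : fl f (MonoidAlgebra.single t c) = c * f t := by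
  rw [fl, MonoidAlgebra.liftNC_single]; rfl

theorem fl_ma (f a : H → F) : fl f (ma a) = ∑ t, a t * f t := by
  rw [ma, map_sum]
  simp_rw [fl_single]

theorem fl_mul_comm {f : H → F} (hf : ∀ x y, f (x * y) = f (y * x)) (a b : MonoidAlgebra F H) :
    fl f (a * b) = fl f (b * a) := by
  induction a using MonoidAlgebra.induction_linear with
  | zero => simp
  | add a a' ha ha' => rw [add_mul, mul_add, map_add, map_add, ha, ha']
  | single x c =>
    induction b using MonoidAlgebra.induction_linear with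
    | zero => simp
    | add b b' hb hb' => rw [add_mul, mul_add, map_add, map_add, hb, hb']
    | single y d =>
      rw [MonoidAlgebra.single_mul_single, MonoidAlgebra.single_mul_single, fl_single, fl_single,
        hf x y, mul_comm c d]

theorem IsCl.comm {f : H → F} (hf : IsCl f) (x y : H) : f (x * y) = f (y * x) := by
  have := hf (y * x) x
  rw [← this]
  congr 1
  group

/-- the `ℓ`-power lemma in the group algebra -/
theorem fl_pow {ℓ : ℕ} (hℓ : ℓ.Prime) [CharP F ℓ] {f : H → F} (hf : ∀ x y, f (x * y) = f (y * x))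
    (a : H → F) (y : H) (n : ℕ) :
    fl f ((ma a * MonoidAlgebra.single y 1) ^ ℓ ^ n) =
      ∑ t, a t ^ ℓ ^ n * f ((t * y) ^ ℓ ^ n) := by
  have : Fact ℓ.Prime := ⟨hℓ⟩
  have h1 : ma a * MonoidAlgebra.single y 1 = ∑ t, MonoidAlgebra.single (t * y) (a t) := by
    rw [ma, Finset.sum_mul]
    simp
  rw [h1, pow_sum (l := ℓ) (fun v => by rw [nsmul_eq_mul, CharP.cast_eq_zero, zero_mul]) (fl f)
    (fl_mul_comm hf)]
  apply Finset.sum_congr rfl
  intro t _
  rw [MonoidAlgebra.single_pow, fl_single]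

end alg

section parts

variable (H : Type) [Group H] [Finite H]

/-- Powers `q = ℓ^M` which project onto the `ℓ'`-parts. -/
theorem exists_power {ℓ : ℕ} (hℓ : ℓ.Prime) (B : ℕ) : ∃ M : ℕ, B ≤ M ∧ ∀ t : H,
    Reg ℓ (t ^ ℓ ^ M) ∧ (Reg ℓ t → t ^ ℓ ^ M = t) ∧
    ∃ u : H, Commute (t ^ ℓ ^ M) u ∧ (∃ n : ℕ, u ^ ℓ ^ n = 1) ∧ t = t ^ ℓ ^ M * u := by
  obtain ⟨a, m, hm, hcard⟩ := Nat.exists_eq_pow_mul_and_not_dvd (n := Nat.card H)
    Nat.card_pos.ne' ℓ hℓ.ne_one
  have hcop : Nat.Coprime ℓ m := (Nat.Prime.coprime_iff_not_dvd hℓ).2 hm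
  have hmpos : 0 < m := Nat.pos_of_ne_zero (by rintro rfl; exact hm (dvd_zero _))
  set M := m.totient * (a + B + 1) with hM
  have htot : 0 < m.totient := Nat.totient_pos.2 hmpos
  have hMB : B ≤ M := by
    calc B ≤ a + B + 1 := by omega
      _ ≤ m.totient * (a + B + 1) := Nat.le_mul_of_pos_left _ htot
  have hMa : a ≤ M := by
    calc a ≤ a + B + 1 := by omega
      _ ≤ m.totient * (a + B + 1) := Nat.le_mul_of_pos_left _ htot
  -- q ≡ 1 mod m
  have hq1 : ℓ ^ M ≡ 1 [MOD m] := by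
    rw [hM, pow_mul]
    have := (Nat.ModEq.pow_totient hcop).pow (a + B + 1)
    rwa [one_pow] at this
  -- ℓ^a ∣ q
  have hq2 : ℓ ^ a ∣ ℓ ^ M := pow_dvd_pow _ hMa
  have hqpos : 0 < ℓ ^ M := Nat.pow_pos hℓ.pos
  have hq3 : m ∣ ℓ ^ M - 1 := (Nat.modEq_iff_dvd' (by omega)).1 hq1.symm
  refine ⟨M, hMB, fun t => ?_⟩
  have ht : t ^ (ℓ ^ a * m) = 1 := by rw [← hcard]; exact pow_card_eq_one'
  have h1 : (t ^ ℓ ^ M) ^ m = 1 := by
    obtain ⟨c, hc⟩ := hq2
    rw [← pow_mul, hc, show ℓ ^ a * c * m = ℓ ^ a * m * c by ring, pow_mul, ht, one_pow]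
  refine ⟨?_, ?_, ?_⟩
  · exact Nat.Coprime.coprime_dvd_left (orderOf_dvd_of_pow_eq_one h1) hcop.symm
  · intro hreg
    have h2 : orderOf t ∣ ℓ ^ a * m := orderOf_dvd_of_pow_eq_one ht
    have h3 : orderOf t ∣ m := by
      apply Nat.Coprime.dvd_of_dvd_mul_left _ h2
      exact Nat.Coprime.pow_right a hreg
    have h4 : orderOf t ∣ ℓ ^ M - 1 := h3.trans hq3
    have h5 : t ^ (ℓ ^ M - 1) = 1 := orderOf_dvd_iff_pow_eq_one.1 h4
    calc t ^ ℓ ^ M = t ^ (ℓ ^ M - 1 + 1) := by rw [Nat.sub_add_cancel hqpos]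
      _ = t := by rw [pow_succ, h5, one_mul]
  · have hu : t = t ^ ℓ ^ M * (t ^ (ℓ ^ M - 1))⁻¹ := by
      conv_rhs => rw [← Nat.sub_add_cancel hqpos, Nat.add_sub_cancel, pow_succ' t (ℓ ^ M - 1)]
      group
    refine ⟨(t ^ (ℓ ^ M - 1))⁻¹, ?_, ⟨a, ?_⟩, hu⟩
    · exact ((Commute.refl t).pow_pow _ _).inv_right
    · obtain ⟨c, hc⟩ := hq3
      rw [inv_pow, ← pow_mul, hc, show m * c * ℓ ^ a = ℓ ^ a * m * c by ring, pow_mul, ht,
        one_pow, inv_one]

end parts

end Pool.Agent.PP.H74
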