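import Pool.Agent.Helper94_PP.StmtsKR
import Pool.Agent.Helper74_PP.Alg

/-!
Modules ORB, RGL, BRT, RNK of squad PP: orbit sums, Brauer's theorem.
-/

open scoped BigOperators

set_option linter.unusedSectionVars false

noncomputable section

namespace Pool.Agent.PP.H74

open Pool.Agent.PP Pool.Agent.Helper51_AWC Pool.Agent.Helper79_WRA

theorem orb : OrbStmt := by
  classical
  intro ℓ F V R T _ _ _ _ _ _ _ hℓ hF hR h hinv
  have := Fintype.ofFinite T
  have : Fact ℓ.Prime := ⟨hℓ⟩
  have hV : ∀ v : V, ℓ • v = 0 := by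
    intro v
    rw [← Nat.cast_smul_eq_nsmul F, CharP.cast_eq_zero, zero_smul]
  rw [finsum_eq_sum_of_fintype, orbit_sum hR hV h hinv, finsum_eq_sum_of_fintype,
    Finset.sum_filter]
  apply Finset.sum_congr rfl
  intro t _
  rw [finsum_eq_if]
  simp only [MulAction.mem_fixedPoints]

section rgl

variable {F H : Type} [Field F] [Group H] [Fintype H]

theorem ma_one_pow {e : H → F} (he : mulF e e = e) : ∀ n : ℕ, 0 < n → ma e ^ n = ma e := by
  intro n hn
  obtain ⟨k, rfl⟩ := Nat.exists_eq_succ_of_ne_zero hn.ne'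
  induction k with
  | zero => rw [pow_one]
  | succ k ih => rw [pow_succ, ih (Nat.succ_pos _), ma_mul, he]

theorem ma_central {e : H → F} (he : IsCl e) (y : H) :
    Commute (ma e) (MonoidAlgebra.single y (1 : F)) := by
  change ma e * MonoidAlgebra.single y 1 = MonoidAlgebra.single y 1 * ma e
  unfold ma
  rw [Finset.sum_mul, Finset.mul_sum,
    ← Equiv.sum_comp (MulAut.conj y).toEquiv
      (fun t => MonoidAlgebra.single t (e t) * MonoidAlgebra.single y 1)]
  apply Finset.sum_congr rfl
  intro t _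
  simp [he t y]

theorem rgl_aux {ℓ : ℕ} (hF : GoodF ℓ F) (e g : H → F) (he : IsIdem e) (hg : IsCl g)
    (h0 : ∀ x, Reg ℓ x → g x = 0) (x : H) (hx : Reg ℓ x) : actF e g x = 0 := by
  have hℓ := hF.prime
  have := hF.char
  obtain ⟨M, -, hM⟩ := exists_power H hℓ 0
  have hpos : 0 < ℓ ^ M := Nat.pow_pos hℓ.pos
  have h1 : (ma e * MonoidAlgebra.single x (1 : F)) ^ ℓ ^ M =
      ma e * MonoidAlgebra.single x 1 := by
    rw [(ma_central he.1 x).mul_pow, ma_one_pow he.2 _ hpos, MonoidAlgebra.single_pow,
      (hM x).2.1 hx, one_pow]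
  have h2 := fl_pow (f := g) hℓ (IsCl.comm hg) e x M
  rw [h1] at h2
  have h3 : ma e * MonoidAlgebra.single x (1 : F) = ∑ t, MonoidAlgebra.single (t * x) (e t) := by
    rw [ma, Finset.sum_mul]
    simp
  rw [h3, map_sum] at h2
  simp_rw [fl_single] at h2
  rw [actF_eq, h2]
  apply Finset.sum_eq_zero
  intro t _
  rw [h0 _ (hM _).1, mul_zero]

end rgl

theorem rgl : RglStmt := by
  intro ℓ F _ hF H _ _ e g he hg h0 x hx
  have := Fintype.ofFinite H
  exact rgl_aux hF e g he hg h0 x hx

section brt

variable {F H : Type} [Field F] [Group H] [Fintype H]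

/-- functions in `TT` vanish on nilpotent elements -/
theorem TT_nilp {ℓ : ℕ} (hF : GoodF ℓ F) {f : H → F} (hf : f ∈ TT F H ℓ) (a : H → F) (k : ℕ)
    (ha : ma a ^ k = 0) : ∑ t, a t * f t = 0 := by
  have hℓ := hF.prime
  have := hF.char
  obtain ⟨M, hkM, hM⟩ := exists_power H hℓ k
  have hpos : 0 < ℓ ^ M := Nat.pow_pos hℓ.pos
  have hfq : ∀ t : H, f (t ^ ℓ ^ M) = f t := by
    intro t
    obtain ⟨u, hu1, hu2, hu3⟩ := (hM t).2.2
    conv_rhs => rw [hu3]
    exact (hf.2 _ _ hu1 hu2).symm
  have hcomm := IsCl.comm hf.1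
  have h1 : (ma a * MonoidAlgebra.single (1 : H) (1 : F)) ^ ℓ ^ M = 0 := by
    rw [← MonoidAlgebra.one_def, mul_one]
    exact pow_eq_zero_of_le (hkM.trans (Nat.lt_pow_self hℓ.one_lt).le) ha
  have h2 := fl_pow (f := fun x => f x ^ ℓ ^ M) hℓ (fun x y => by rw [hcomm]) a 1 M
  rw [h1, map_zero] at h2
  simp only [mul_one, hfq] at h2
  simp_rw [← mul_pow] at h2
  have : Fact ℓ.Prime := ⟨hℓ⟩
  rw [← sum_pow_char_pow] at h2
  exact (pow_eq_zero_iff hpos.ne').1 h2.symm

theorem tr_mem_TT {ℓ : ℕ} (hF : GoodF ℓ F) {n : ℕ} (ρ : H →* Matrix (Fin n) (Fin n) F) :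
    tr ρ ∈ TT F H ℓ := by
  have hℓ := hF.prime
  have := hF.char
  refine ⟨?_, ?_⟩
  · intro x y
    unfold tr
    rw [map_mul, map_mul, Matrix.trace_mul_comm, ← mul_assoc, ← map_mul]
    simp
  · rintro x y hxy ⟨k, hk⟩
    unfold tr
    have : Fact ℓ.Prime := ⟨hℓ⟩
    rcases Nat.eq_zero_or_pos n with rfl | hn
    · simp [Matrix.trace]
    have : NeZero n := ⟨hn.ne'⟩
    have hch : CharP (Matrix (Fin n) (Fin n) F) ℓ := inferInstance
    rw [← sub_eq_zero, ← Matrix.trace_sub]
    apply IsNilpotent.eq_zero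
    apply Matrix.isNilpotent_trace_of_isNilpotent
    refine ⟨ℓ ^ k, ?_⟩
    have hc : Commute (ρ x * ρ y) (ρ x) := by
      have : Commute (x * y) x := ((Commute.refl x).mul_left hxy.symm)
      rw [← map_mul]
      exact this.map ρ
    rw [map_mul, sub_pow_char_pow_of_commute _ _ hc]
    have hc2 : Commute (ρ x) (ρ y) := hxy.map ρ
    rw [hc2.mul_pow, ← map_pow ρ y, hk, map_one, mul_one, sub_self]

theorem ev_mul {n : ℕ} (ρ : H →* Matrix (Fin n) (Fin n) F) (a b : H → F) :
    ev ρ (mulF a b) = ev ρ a * ev ρ b := by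
  rw [ev_eq, ev_eq, ev_eq, Finset.sum_mul_sum]
  have h1 : ∀ s : H, ∑ t, a s • ρ s * b t • ρ t = ∑ x, (a s * b (s⁻¹ * x)) • ρ x := by
    intro s
    rw [← Equiv.sum_comp (Equiv.mulLeft s) (fun x => (a s * b (s⁻¹ * x)) • ρ x)]
    apply Finset.sum_congr rfl
    intro t _
    simp only [Equiv.coe_mulLeft, inv_mul_cancel_left, map_mul]
    rw [smul_mul_smul_comm]
  simp_rw [h1]
  rw [Finset.sum_comm]
  apply Finset.sum_congr rfl
  intro x _
  rw [mulF_eq, Finset.sum_smul]

/-- a functional with the trace property on a matrix algebra is a multiple of the trace -/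
theorem trace_form {n : ℕ} (L : Matrix (Fin n) (Fin n) F →ₗ[F] F)
    (hL : ∀ A B, L (A * B) = L (B * A)) : ∃ c : F, ∀ A, L A = c * A.trace := by
  rcases Nat.eq_zero_or_pos n with rfl | hn
  · refine ⟨0, fun A => ?_⟩
    have : A = 0 := Subsingleton.elim _ _
    rw [this]; simp
  have : NeZero n := ⟨hn.ne'⟩
  have h1 : ∀ i j : Fin n, L (Matrix.single i j 1) =
      if i = j then L (Matrix.single 0 0 1) else 0 := by
    intro i j
    have h2 : (Matrix.single i j 1 : Matrix (Fin n) (Fin n) F) =
        Matrix.single i 0 1 * Matrix.single 0 j 1 := by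
      rw [Matrix.single_mul_single_same, mul_one]
    rw [h2, hL]
    split_ifs with hij
    · subst hij
      rw [Matrix.single_mul_single_same, mul_one]
    · rw [Matrix.single_mul_single_of_ne _ _ _ _ (Ne.symm hij), map_zero]
  refine ⟨L (Matrix.single 0 0 1), fun A => ?_⟩
  conv_lhs => rw [Matrix.matrix_eq_sum_single A]
  rw [map_sum]
  have h3 : ∀ i : Fin n, L (∑ j, Matrix.single i j (A i j)) = A i i * L (Matrix.single 0 0 1) := by
    intro i
    rw [map_sum, Finset.sum_eq_single_of_mem i (Finset.mem_univ _)]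
    · have : Matrix.single i i (A i i) = A i i • (Matrix.single i i (1 : F)) := by
        rw [Matrix.smul_single, smul_eq_mul, mul_one]
      rw [this, map_smul, h1, if_pos rfl, smul_eq_mul]
    · intro j _ hj
      have : Matrix.single i j (A i j) = A i j • (Matrix.single i j (1 : F)) := by
        rw [Matrix.smul_single, smul_eq_mul, mul_one]
      rw [this, map_smul, h1, if_neg (Ne.symm hj), smul_zero]
  simp_rw [h3]
  rw [← Finset.sum_mul, mul_comm]
  rfl

end brt

theorem brt (hf : IbfStmt) (hc : IbcStmt) (hj : IbjStmt) (hn : IbnStmt) : BrtStmt := by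
  classical
  intro ℓ F _ hF H _ _
  have := Fintype.ofFinite H
  apply le_antisymm
  · rw [Submodule.span_le]
    rintro f ⟨n, ρ, hρ, rfl⟩
    exact tr_mem_TT hF ρ
  · intro f hf'
    have hfin := (hf ℓ F hF H).1
    have : Finite (IBr F H) := hfin
    have := Fintype.ofFinite (IBr F H)
    choose n ρ hρ hθ using fun i : IBr F H => i.2
    have hinj : Function.Injective (fun i => tr (ρ i)) := by
      intro i j hij
      apply Subtype.ext
      rw [hθ i, hθ j]
      exact hij
    -- the evaluation map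
    let Ev : (H → F) →ₗ[F] (∀ i, Matrix (Fin (n i)) (Fin (n i)) F) :=
      { toFun := fun a i => ev (ρ i) a
        map_add' := by
          intro a b
          funext i
          simp only [ev_eq, Pi.add_apply, add_smul, Finset.sum_add_distrib]
        map_smul' := by
          intro c a
          funext i
          simp only [ev_eq, Pi.smul_apply, smul_eq_mul, RingHom.id_apply, Finset.smul_sum,
            mul_smul] }
    have hsurj : Function.Surjective Ev := by
      intro B
      obtain ⟨a, ha⟩ := hj ℓ F hF H (IBr F H) n ρ hρ hinj B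
      exact ⟨a, funext ha⟩
    -- the functional of f
    let L : (H → F) →ₗ[F] F :=
      { toFun := fun a => ∑ t, a t * f t
        map_add' := by
          intro a b
          simp only [Pi.add_apply, add_mul, Finset.sum_add_distrib]
        map_smul' := by
          intro c a
          simp only [Pi.smul_apply, smul_eq_mul, RingHom.id_apply, Finset.mul_sum, mul_assoc] }
    have hker : LinearMap.ker Ev ≤ LinearMap.ker L := by
      intro a ha
      rw [LinearMap.mem_ker] at ha ⊢
      have hall : ∀ (m : ℕ) (σ : H →* Matrix (Fin m) (Fin m) F), IsIrr σ → ev σ a = 0 := by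
        intro m σ hσ
        have hmem : tr σ ∈ IBr F H := ⟨m, σ, hσ, rfl⟩
        obtain ⟨X, Y, -, hXY, -, hX⟩ := hc ℓ F hF H _ _ (ρ ⟨tr σ, hmem⟩) σ (hρ _) hσ
          (hθ ⟨tr σ, hmem⟩).symm
        have h1 : ∀ h, σ h = X * ρ ⟨tr σ, hmem⟩ h * Y := by
          intro h
          rw [hX, Matrix.mul_assoc, hXY, Matrix.mul_one]
        have h2 : ev (ρ ⟨tr σ, hmem⟩) a = 0 := congrFun ha ⟨tr σ, hmem⟩
        have h3 : ev σ a = X * ev (ρ ⟨tr σ, hmem⟩) a * Y := by
          rw [ev_eq, ev_eq, Matrix.mul_sum, Matrix.sum_mul]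
          apply Finset.sum_congr rfl
          intro t _
          rw [h1 t, Matrix.mul_smul, Matrix.smul_mul]
        rw [h3, h2]
        simp
      obtain ⟨k, hk⟩ := hn ℓ F hF H a hall
      have h4 : ma a ^ (k + 1) = 0 := by
        rw [← ma_iterate, hk, ma_zero]
      exact TT_nilp hF hf' a (k + 1) h4
    -- factor through the product
    obtain ⟨L', hL'⟩ : ∃ L' : (∀ i, Matrix (Fin (n i)) (Fin (n i)) F) →ₗ[F] F, ∀ a, L' (Ev a) = L a := by
      refine ⟨(LinearMap.ker Ev).liftQ L hker ∘ₗ
        (Ev.quotKerEquivOfSurjective hsurj).symm.toLinearMap, fun a => ?_⟩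
      have : (Ev.quotKerEquivOfSurjective hsurj).symm (Ev a) = (LinearMap.ker Ev).mkQ a := by
        rw [LinearEquiv.symm_apply_eq]
        rfl
      simp only [LinearMap.comp_apply, LinearEquiv.coe_coe]
      rw [this]
      simp
    have hLcomm : ∀ a b : H → F, L (mulF a b) = L (mulF b a) := by
      intro a b
      have h1 : ∀ a : H → F, L a = fl f (ma a) := fun a => (fl_ma f a).symm
      rw [h1, h1, ← ma_mul, ← ma_mul, fl_mul_comm (IsCl.comm hf'.1)]
    have hL'comm : ∀ A B, L' (A * B) = L' (B * A) := by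
      intro A B
      obtain ⟨a, rfl⟩ := hsurj A
      obtain ⟨b, rfl⟩ := hsurj B
      have h1 : ∀ a b : H → F, Ev a * Ev b = Ev (mulF a b) := by
        intro a b
        funext i
        exact (ev_mul (ρ i) a b).symm
      rw [h1, h1, hL', hL', hLcomm]
    have hform : ∀ i, ∃ c : F, ∀ A : Matrix (Fin (n i)) (Fin (n i)) F,
        L' (Pi.single i A) = c * A.trace := by
      intro i
      apply trace_form (L' ∘ₗ LinearMap.single F (fun i => Matrix (Fin (n i)) (Fin (n i)) F) i)
      intro A B
      simp only [LinearMap.comp_apply, LinearMap.single_apply]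
      rw [Pi.single_mul, Pi.single_mul, hL'comm]
    choose c hc' using hform
    have hfinal : f = ∑ i : IBr F H, c i • (i : H → F) := by
      funext x
      have h1 : L (Pi.single x 1) = f x := by
        change ∑ t, (Pi.single x (1 : F) : H → F) t * f t = f x
        rw [Finset.sum_eq_single_of_mem x (Finset.mem_univ _)]
        · simp
        · intro t _ ht
          rw [Pi.single_eq_of_ne ht, zero_mul]
      have h2 : ∀ i, Ev (Pi.single x 1) i = ρ i x := by
        intro i
        change ev (ρ i) _ = _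
        rw [ev_eq, Finset.sum_eq_single_of_mem x (Finset.mem_univ _)]
        · simp
        · intro t _ ht
          rw [Pi.single_eq_of_ne ht, zero_smul]
      rw [← h1, ← hL']
      have h3 : Ev (Pi.single x 1) = ∑ i, Pi.single i (ρ i x) := by
        funext i
        rw [h2, Finset.sum_apply, Finset.sum_eq_single_of_mem i (Finset.mem_univ _)]
        · simp
        · intro j _ hj
          rw [Pi.single_eq_of_ne (Ne.symm hj)]
      rw [h3, map_sum, Finset.sum_apply]
      apply Finset.sum_congr rfl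
      intro i _
      rw [hc', Pi.smul_apply, smul_eq_mul]
      congr 1
      exact (congrFun (hθ i) x).symm
    rw [hfinal]
    apply Submodule.sum_mem
    intro i _
    exact Submodule.smul_mem _ _ (Submodule.subset_span i.2)

theorem rnk (hf : IbfStmt) (he : EigStmt) (hb : BrtStmt) : RnkStmt := by
  classical
  intro ℓ F _ hF H _ _ e hid
  have hfin := (hf ℓ F hF H).1
  have hlin := (hf ℓ F hF H).2
  unfold rk
  rw [← hb ℓ F hF H, Submodule.map_span]
  set S : Set (H → F) := {f | f ∈ IBr F H ∧ actF e f = f} with hS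
  have hSsub : S ⊆ IBr F H := fun f hf => hf.1
  have hSfin : S.Finite := hfin.subset hSsub
  have h1 : Submodule.span F ((actL e) '' IBr F H) = Submodule.span F S := by
    apply le_antisymm
    · rw [Submodule.span_le]
      rintro _ ⟨f, hfm, rfl⟩
      change actF e f ∈ _
      obtain ⟨n, ρ, hρ, rfl⟩ := hfm
      obtain ⟨w, -, hw, hw2⟩ := he F H n ρ hρ e hid.1
      rcases hw2 hid with h | h
      · rw [hw, h, zero_smul]
        exact Submodule.zero_mem _
      · have : actF e (tr ρ) = tr ρ := by rw [hw, h, one_smul]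
        rw [this]
        exact Submodule.subset_span ⟨⟨n, ρ, hρ, rfl⟩, this⟩
    · rw [Submodule.span_le]
      rintro f ⟨hf1, hf2⟩
      apply Submodule.subset_span
      exact ⟨f, hf1, hf2⟩
  rw [h1]
  have := hSfin.fintype
  have hlin' : LinearIndependent F (fun f : S => (f : H → F)) :=
    hlin.comp (fun f : S => (⟨f.1, hSsub f.2⟩ : IBr F H))
      (fun a b hab => Subtype.ext (congrArg (fun z : IBr F H => (z : H → F)) hab))
  rw [finrank_span_set_eq_card hlin', Set.ncard_eq_toFinset_card']

end Pool.Agent.PP.H74
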