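import Pool.Agent.Helper18_PP.StmtsDZ

/-!
COV: a representation of a normal subgroup with stable trace extends to a finite central
`ℓ'`-cover.
-/

open scoped BigOperators

set_option linter.unusedSectionVars false

noncomputable section

namespace Pool.Agent.PP.H74

open Pool.Agent.PP

/-- `g c g⁻¹` -/
def cj {L : Type} [Group L] {C : Subgroup L} (hC : C.Normal) (g : L) (c : C) : C :=
  ⟨g * c * g⁻¹, hC.conj_mem c c.2 g⟩

section cj

variable {L : Type} [Group L] {C : Subgroup L} (hC : C.Normal)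

theorem cj_one (c : C) : cj hC 1 c = c := Subtype.ext (by simp [cj])

theorem cj_mul (g h : L) (c : C) : cj hC (g * h) c = cj hC g (cj hC h c) :=
  Subtype.ext (by simp [cj, mul_assoc])

theorem cj_map_mul (g : L) (c d : C) : cj hC g (c * d) = cj hC g c * cj hC g d :=
  Subtype.ext (by simp [cj, mul_assoc])

theorem cj_self (c d : C) : cj hC c d = c * d * c⁻¹ := Subtype.ext (by simp [cj])

end cj

/-- COV: statement -/
def CovS : Prop := ∀ (ℓ : ℕ) (F : Type) [Field F], GoodF ℓ F → ∀ (L : Type) [Group L] [Finite L]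
  (C : Subgroup L) (hC : C.Normal) (n : ℕ) (ρ : C →* Matrix (Fin n) (Fin n) F), IsIrr ρ →
  (∀ (g : L) (c : C), tr ρ (cj hC g c) = tr ρ c) →
  ∃ (E : Type) (_ : Group E) (_ : Finite E) (π : E →* L) (α : E →* Matrix (Fin n) (Fin n) F),
    Function.Surjective π ∧ (∀ x, π x = 1 → α x = 1 → x = 1) ∧
    (∀ c : C, ∃ x, π x = c ∧ α x = ρ c) ∧ π.ker ≤ Subgroup.center E ∧
    (Nat.card π.ker).Coprime ℓ ∧ (∀ x ∈ π.ker, ∃ z : F, α x = Matrix.scalar (Fin n) z) ∧
    ∀ (x : E) (c : C), α x * ρ c = ρ (cj hC (π x) c) * α x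

section schur

variable {F H : Type} [Field F] [Group H] {n : ℕ}

/-- Schur -/
theorem schur_of_irr {ρ : H →* Matrix (Fin n) (Fin n) F} (hρ : IsIrr ρ)
    (A : Matrix (Fin n) (Fin n) F) (hA : ∀ h, A * ρ h = ρ h * A) :
    ∃ z : F, A = Matrix.scalar (Fin n) z := by
  have h1 : ∀ B : Matrix (Fin n) (Fin n) F, A * B = B * A := by
    intro B
    have hB : B ∈ Submodule.span F (Set.range ρ) := by rw [hρ.2]; trivial
    induction hB using Submodule.span_induction with
    | mem x hx => obtain ⟨h, rfl⟩ := hx; exact hA h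
    | zero => simp
    | add x y _ _ hx hy => rw [mul_add, add_mul, hx, hy]
    | smul c x _ hx => rw [mul_smul_comm, smul_mul_assoc, hx]
  obtain ⟨z, hz⟩ := Matrix.mem_range_scalar_iff_commute_single'.mpr
    fun i j => (h1 (Matrix.single i j 1)).symm
  exact ⟨z, hz.symm⟩

/-- in characteristic `ℓ` an `ℓ`-power root of one is one -/
theorem eq_one_of_pow {ℓ : ℕ} (hF : GoodF ℓ F) {z : F} (h : z ^ ℓ = 1) : z = 1 := by
  have := hF.char
  have : Fact ℓ.Prime := ⟨hF.prime⟩
  have h1 : (z - 1) ^ ℓ = 0 := by rw [sub_pow_char, h, one_pow, sub_self]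
  exact sub_eq_zero.1 ((pow_eq_zero_iff hF.prime.ne_zero).1 h1)

end schur

section cov

variable {F L : Type} [Field F] [Group L] {C : Subgroup L} (hC : C.Normal) {n : ℕ}
  (ρ : C →* Matrix (Fin n) (Fin n) F)

/-- the pairs `(g, A)` with `A ρ(c) A⁻¹ = ρ(g c g⁻¹)` and `det(A)^m = 1` -/
def covE (m : ℕ) : Subgroup (L × (Matrix (Fin n) (Fin n) F)ˣ) where
  carrier := {x | (∀ c : C, (x.2 : Matrix (Fin n) (Fin n) F) * ρ c =
    ρ (cj hC x.1 c) * (x.2 : Matrix (Fin n) (Fin n) F)) ∧
    (x.2 : Matrix (Fin n) (Fin n) F).det ^ m = 1}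
  mul_mem' := by
    rintro ⟨g, A⟩ ⟨h, B⟩ ⟨h1, h2⟩ ⟨h3, h4⟩
    refine ⟨fun c => ?_, ?_⟩
    · simp only [Prod.mk_mul_mk, Units.val_mul] at *
      rw [mul_assoc, h3, ← mul_assoc, h1, mul_assoc, cj_mul]
    · simp only [Prod.mk_mul_mk, Units.val_mul] at *
      rw [Matrix.det_mul, mul_pow, h2, h4, one_mul]
  one_mem' := by
    refine ⟨fun c => ?_, ?_⟩
    · simp [cj_one]
    · simp
  inv_mem' := by
    rintro ⟨g, A⟩ ⟨h1, h2⟩
    refine ⟨fun c => ?_, ?_⟩
    · simp only [Prod.inv_mk] at *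
      have h3 := h1 (cj hC g⁻¹ c)
      rw [← cj_mul, mul_inv_cancel, cj_one] at h3
      have h4 : (A : Matrix (Fin n) (Fin n) F) * ((A⁻¹ : (Matrix (Fin n) (Fin n) F)ˣ) :
        Matrix (Fin n) (Fin n) F) = 1 := A.mul_inv
      have h5 : ((A⁻¹ : (Matrix (Fin n) (Fin n) F)ˣ) : Matrix (Fin n) (Fin n) F) *
        (A : Matrix (Fin n) (Fin n) F) = 1 := A.inv_mul
      calc ((A⁻¹ : (Matrix (Fin n) (Fin n) F)ˣ) : Matrix (Fin n) (Fin n) F) * ρ c
          = ((A⁻¹ : (Matrix (Fin n) (Fin n) F)ˣ) : Matrix (Fin n) (Fin n) F) *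
            (ρ c * (A : Matrix (Fin n) (Fin n) F)) *
            ((A⁻¹ : (Matrix (Fin n) (Fin n) F)ˣ) : Matrix (Fin n) (Fin n) F) := by
              rw [mul_assoc, mul_assoc, h4, mul_one]
        _ = _ := by rw [← h3, ← mul_assoc, h5, one_mul]
    · simp only [Prod.inv_mk] at *
      have h5 : ((A⁻¹ : (Matrix (Fin n) (Fin n) F)ˣ) : Matrix (Fin n) (Fin n) F).det *
          (A : Matrix (Fin n) (Fin n) F).det = 1 := by
        rw [← Matrix.det_mul, A.inv_mul, Matrix.det_one]
      have h6 := congrArg (· ^ m) h5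
      simp only [mul_pow, h2, mul_one, one_pow] at h6
      exact h6

end cov

theorem cov (hibc : IbcStmt) : CovS := by
  classical
  intro ℓ F _ hF L _ _ C hC n ρ hρ hst
  have hclosed := hF.closed
  have hn : 0 < n := hρ.1
  have : NeZero n := ⟨hn.ne'⟩
  set m := Nat.card C with hm
  have hmpos : 0 < m := Nat.card_pos
  let E := covE hC ρ m
  let π : E →* L := (MonoidHom.fst L (Matrix (Fin n) (Fin n) F)ˣ).comp E.subtype
  let α : E →* Matrix (Fin n) (Fin n) F :=
    (Units.coeHom _).comp ((MonoidHom.snd L (Matrix (Fin n) (Fin n) F)ˣ).comp E.subtype)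
  -- elements of the kernel
  have hker : ∀ x : E, π x = 1 → ∃ z : F, α x = Matrix.scalar (Fin n) z := by
    intro x hx
    apply schur_of_irr hρ
    intro h
    have h1 := x.2.1 h
    have h2 : (x : L × (Matrix (Fin n) (Fin n) F)ˣ).1 = 1 := hx
    rw [h2, cj_one] at h1
    exact h1
  have hker2 : ∀ x : E, ∀ z : F, α x = Matrix.scalar (Fin n) z → z ^ (n * m) = 1 := by
    intro x z hz
    have h1 : (α x).det ^ m = 1 := x.2.2
    rw [hz, Matrix.scalar_apply, Matrix.det_diagonal] at h1
    rw [pow_mul]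
    simpa using h1
  have hext : ∀ x y : E, π x = π y → α x = α y → x = y := by
    intro x y h1 h2
    apply Subtype.ext
    exact Prod.ext h1 (Units.ext h2)
  have hscinj : ∀ z w : F, Matrix.scalar (Fin n) z = Matrix.scalar (Fin n) w → z = w := by
    intro z w h
    have := congrFun (congrFun h 0) 0
    simpa using this
  -- finiteness of the kernel
  have hkf : Finite π.ker := by
    have hfin : {z : F | z ^ (n * m) = 1}.Finite := by
      have h1 : {z : F | z ^ (n * m) = 1} ⊆ ↑(Polynomial.nthRoots (n * m) (1 : F)).toFinset := by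
        intro z hz
        rw [Finset.mem_coe, Multiset.mem_toFinset, Polynomial.mem_nthRoots (Nat.mul_pos hn hmpos)]
        exact hz
      exact (Finset.finite_toSet _).subset h1
    choose z hz using fun x : π.ker => hker x.1 x.2
    have := hfin.to_subtype
    apply Finite.of_injective (fun x : π.ker => (⟨z x, hker2 x.1 (z x) (hz x)⟩ :
      {z : F | z ^ (n * m) = 1}))
    intro x y hxy
    have h1 : z x = z y := congrArg Subtype.val hxy
    apply Subtype.ext
    apply hext
    · rw [show π x.1 = 1 from x.2, show π y.1 = 1 from y.2]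
    · rw [hz, hz, h1]
  -- surjectivity
  have hsurj : Function.Surjective π := by
    intro g
    let σ : C →* Matrix (Fin n) (Fin n) F :=
      { toFun := fun c => ρ (cj hC g c)
        map_one' := by
          have : cj hC g 1 = 1 := Subtype.ext (by simp [cj])
          rw [this, map_one]
        map_mul' := fun c d => by rw [cj_map_mul, map_mul] }
    have hσ : IsIrr σ := by
      refine ⟨hn, ?_⟩
      have : Set.range σ = Set.range ρ := by
        ext X
        constructor
        · rintro ⟨c, rfl⟩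
          exact ⟨cj hC g c, rfl⟩
        · rintro ⟨c, rfl⟩
          refine ⟨cj hC g⁻¹ c, ?_⟩
          change ρ (cj hC g (cj hC g⁻¹ c)) = ρ c
          rw [← cj_mul, mul_inv_cancel, cj_one]
      rw [this, hρ.2]
    have htr : tr ρ = tr σ := by
      funext c
      exact (hst g c).symm
    obtain ⟨X, Y, -, hXY, hYX, hX⟩ := hibc ℓ F hF C n n ρ σ hρ hσ htr
    have hdet : X.det ≠ 0 := by
      intro h0
      have := congrArg Matrix.det hXY
      rw [Matrix.det_mul, h0, zero_mul, Matrix.det_one] at this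
      exact zero_ne_one this
    obtain ⟨z, hz⟩ := IsAlgClosed.exists_pow_nat_eq (X.det)⁻¹ hn
    have hz0 : z ≠ 0 := by
      rintro rfl
      rw [zero_pow hn.ne'] at hz
      exact inv_ne_zero hdet hz.symm
    let A : (Matrix (Fin n) (Fin n) F)ˣ :=
      ⟨z • X, z⁻¹ • Y, by rw [smul_mul_smul_comm, mul_inv_cancel₀ hz0, hXY, one_smul],
        by rw [smul_mul_smul_comm, inv_mul_cancel₀ hz0, hYX, one_smul]⟩
    refine ⟨⟨(g, A), ?_, ?_⟩, rfl⟩
    · intro c
      change z • X * ρ c = ρ (cj hC g c) * z • X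
      rw [smul_mul_assoc, hX, mul_smul_comm]
      rfl
    · change (z • X).det ^ m = 1
      rw [Matrix.det_smul, Fintype.card_fin, hz, inv_mul_cancel₀ hdet, one_pow]
  have hfinE : Finite E := by
    have h1 : Finite (E ⧸ π.ker) := by
      have := Finite.of_equiv _ (QuotientGroup.quotientKerEquivOfSurjective π hsurj).symm.toEquiv
      exact this
    exact Finite.of_equiv _ (Subgroup.groupEquivQuotientProdSubgroup (s := π.ker)).symm
  refine ⟨E, inferInstance, hfinE, π, α, hsurj, ?_, ?_, ?_, ?_, fun x hx => hker x hx, ?_⟩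
  · intro x h1 h2
    apply hext
    · rw [h1, map_one]
    · rw [h2, map_one]
  · intro c
    have hu : ∀ c : C, ρ c * ρ c⁻¹ = 1 := fun c => by rw [← map_mul]; simp
    have hu' : ∀ c : C, ρ c⁻¹ * ρ c = 1 := fun c => by rw [← map_mul]; simp
    refine ⟨⟨(c, ⟨ρ c, ρ c⁻¹, hu c, hu' c⟩), ?_, ?_⟩, rfl, rfl⟩
    · intro d
      change ρ c * ρ d = ρ (cj hC c d) * ρ c
      rw [cj_self, ← map_mul, ← map_mul]
      congr 1
      group
    · change (ρ c).det ^ m = 1
      rw [← Matrix.det_pow, ← map_pow, hm, pow_card_eq_one', map_one, Matrix.det_one]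
  · intro x hx
    obtain ⟨z, hz⟩ := hker x hx
    rw [Subgroup.mem_center_iff]
    intro y
    apply hext
    · rw [map_mul, map_mul, show π x = 1 from hx]; simp
    · rw [map_mul, map_mul, hz]
      exact ((Matrix.scalar_commute z (fun r => mul_comm _ _) (α y)).symm)
  · rw [Nat.coprime_comm, Nat.Prime.coprime_iff_not_dvd hF.prime]
    intro hdvd
    have : Fact ℓ.Prime := ⟨hF.prime⟩
    obtain ⟨x, hx⟩ := exists_prime_orderOf_dvd_card' ℓ hdvd
    obtain ⟨z, hz⟩ := hker x.1 x.2
    have h1 : (x : E) ^ ℓ = 1 := by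
      have := pow_orderOf_eq_one x
      rw [hx] at this
      exact congrArg Subtype.val this
    have h2 : z ^ ℓ = 1 := by
      apply hscinj
      rw [map_pow, ← hz, ← map_pow, h1, map_one, map_one]
    have h3 := eq_one_of_pow hF h2
    have h4 : x = 1 := by
      apply Subtype.ext
      apply hext
      · rw [show π x.1 = 1 from x.2]; simp
      · rw [hz, h3, map_one]; simp
    rw [h4, orderOf_one] at hx
    exact hF.prime.one_lt.ne hx
  · intro x c
    exact x.2.1 c

theorem covStmt (hibc : IbcStmt) : CovStmt := by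
  intro ℓ F _ hF L _ _ C n ρ hC hρ hst
  obtain ⟨E, hE, hfin, π, α, h1, h2, h3, h4, h5, h6, h7⟩ := cov hibc ℓ F hF L C hC n ρ hρ
    (fun g c => hst g c (cj hC g c) rfl)
  refine ⟨E, hE, hfin, π, α, h1, fun x hx => h4 hx, ?_, h2, h6, ?_, h3⟩
  · exact (Nat.Prime.coprime_iff_not_dvd hF.prime).1 h5.symm
  · intro x c c' hc
    have : c' = cj hC (π x) c := Subtype.ext hc
    rw [this]
    exact h7 x c

end Pool.Agent.PP.H74
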