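import Pool.Agent.Helper18_PP.StmtsDZ
import Pool.Agent.Helper74_PP.Alg
import Pool.Agent.Helper79_WRA.Basic

/-!
CEN: the invariants `IsIdem`, `lnum`, `YY`, `Pos` under central extensions by `ℓ'`-groups.
-/

open scoped BigOperators

set_option linter.unusedSectionVars false

noncomputable section

namespace Pool.Agent.PP.H74

open Pool.Agent.PP Pool.Agent.Helper51_AWC Pool.Agent.Helper79_WRA

section infl

variable {F E G : Type} [Field F] [Group E] [Group G]

/-- inflation of an element of the group ring along a surjection -/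
def infl (π : E →* G) (a : G → F) : E → F := fun x => (Nat.card π.ker : F)⁻¹ * a (π x)

theorem sum_comp_hom {V : Type*} [AddCommMonoid V] [Fintype E] [Fintype G] (π : E →* G)
    (hπ : Function.Surjective π) (f : G → V) :
    ∑ t, f (π t) = Nat.card π.ker • ∑ s, f s := by
  classical
  rw [Finset.sum_comp f π, Finset.smul_sum]
  have him : Finset.image π Finset.univ = Finset.univ := by
    ext s
    simp only [Finset.mem_image, Finset.mem_univ, true_and, iff_true]
    exact hπ s
  rw [him]
  apply Finset.sum_congr rfl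
  intro s _
  congr 1
  rw [MonoidHom.card_fiber_eq_of_mem_range π (hπ s) (hπ 1), Nat.card_eq_fintype_card,
    Fintype.card_subtype]
  congr 1
  ext t
  simp

theorem natCast_ne {ℓ k : ℕ} (hF : GoodF ℓ F) (hk : k.Coprime ℓ) : (k : F) ≠ 0 := by
  have := hF.char
  intro h
  rw [CharP.cast_eq_zero_iff F ℓ] at h
  have h1 : ℓ ∣ 1 := by
    have := Nat.dvd_gcd h (dvd_refl ℓ)
    rwa [hk] at this
  exact hF.prime.one_lt.ne' (Nat.dvd_one.1 h1)

variable [Finite E] [Finite G] {ℓ : ℕ} (hF : GoodF ℓ F) (π : E →* G)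
  (hπ : Function.Surjective π) (hk : (Nat.card π.ker).Coprime ℓ)

include hF hπ hk

theorem infl_actF (a f : G → F) (x : E) :
    actF (infl π a) (fun t => f (π t)) x = actF a f (π x) := by
  have := Fintype.ofFinite E
  have := Fintype.ofFinite G
  have hne := natCast_ne hF hk
  rw [actF_eq, actF_eq]
  have h1 : ∀ t : E, infl π a t * f (π (t * x)) =
      (fun s : G => (Nat.card π.ker : F)⁻¹ * (a s * f (s * π x))) (π t) := by
    intro t
    simp only [infl, map_mul, mul_assoc]
  rw [Finset.sum_congr rfl (fun t _ => h1 t), sum_comp_hom π hπ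
    (fun s : G => (Nat.card π.ker : F)⁻¹ * (a s * f (s * π x))), ← Finset.mul_sum, nsmul_eq_mul,
    ← mul_assoc, mul_inv_cancel₀ hne, one_mul]

theorem infl_mulF (a b : G → F) : mulF (infl π a) (infl π b) = infl π (mulF a b) := by
  have := Fintype.ofFinite E
  have := Fintype.ofFinite G
  have hne := natCast_ne hF hk
  funext x
  rw [mulF_eq]
  have h1 : ∀ t : E, infl π a t * infl π b (t⁻¹ * x) =
      (fun s : G => (Nat.card π.ker : F)⁻¹ * ((Nat.card π.ker : F)⁻¹ *
        (a s * b (s⁻¹ * π x)))) (π t) := by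
    intro t
    simp only [infl, map_mul, map_inv]
    ring
  rw [Finset.sum_congr rfl (fun t _ => h1 t), sum_comp_hom π hπ
    (fun s : G => (Nat.card π.ker : F)⁻¹ * ((Nat.card π.ker : F)⁻¹ *
        (a s * b (s⁻¹ * π x)))), ← Finset.mul_sum, ← Finset.mul_sum, nsmul_eq_mul, ← mul_assoc,
    mul_inv_cancel₀ hne, one_mul, infl, mulF_eq]

theorem infl_isIdem {a : G → F} (ha : IsIdem a) : IsIdem (infl π a) := by
  refine ⟨fun x y => ?_, ?_⟩
  · unfold infl
    rw [map_mul, map_mul, map_inv, ha.1]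
  · rw [infl_mulF hF π hπ hk, ha.2]

/-- the irreducible characters on which an inflated element acts as one are inflated -/
theorem infl_IBr (a : G → F) :
    {f : E → F | f ∈ IBr F E ∧ actF (infl π a) f = f} =
      (fun f' : G → F => fun t => f' (π t)) '' {f : G → F | f ∈ IBr F G ∧ actF a f = f} := by
  have := Fintype.ofFinite E
  have := Fintype.ofFinite G
  ext f
  constructor
  · rintro ⟨⟨n, σ, hσ, rfl⟩, hact⟩
    -- the kernel acts trivially
    have htr : ∀ z ∈ π.ker, ∀ x, tr σ (z * x) = tr σ x := by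
      intro z hz x
      rw [← hact, actF_eq, actF_eq,
        ← Equiv.sum_comp (Equiv.mulRight z) (fun t => infl π a t * tr σ (t * x))]
      apply Finset.sum_congr rfl
      intro t _
      have h1 : π z = 1 := hz
      simp only [Equiv.coe_mulRight, infl, map_mul, h1, mul_one, mul_assoc]
    have hone : ∀ z ∈ π.ker, σ z = 1 := by
      intro z hz
      have h1 : ∀ B : Matrix (Fin n) (Fin n) F, ((σ z - 1) * B).trace = 0 := by
        intro B
        have hB : B ∈ Submodule.span F (Set.range σ) := by rw [hσ.2]; trivial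
        induction hB using Submodule.span_induction with
        | mem x hx =>
          obtain ⟨h, rfl⟩ := hx
          rw [sub_mul, one_mul, Matrix.trace_sub, ← map_mul]
          exact sub_eq_zero.2 (htr z hz h)
        | zero => simp
        | add x y _ _ hx hy => rw [mul_add, Matrix.trace_add, hx, hy, add_zero]
        | smul c x _ hx => rw [mul_smul_comm, Matrix.trace_smul, hx, smul_zero]
      have h2 : σ z - 1 = 0 := by
        ext i j
        have := h1 (Matrix.single j i 1)
        rw [Matrix.trace_mul_single] at this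
        simpa using this
      exact sub_eq_zero.1 h2
    have hfac : ∀ x y : E, π x = π y → σ x = σ y := by
      intro x y hxy
      have h1 : x * y⁻¹ ∈ π.ker := by
        rw [MonoidHom.mem_ker, map_mul, map_inv, hxy, mul_inv_cancel]
      have h2 : x = x * y⁻¹ * y := by group
      rw [h2, map_mul, hone _ h1, one_mul]
    let σ' : G →* Matrix (Fin n) (Fin n) F :=
      { toFun := fun g => σ (Function.surjInv hπ g)
        map_one' := by
          rw [← map_one σ]
          apply hfac
          rw [Function.surjInv_eq hπ, map_one]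
        map_mul' := by
          intro g h
          rw [← map_mul]
          apply hfac
          rw [Function.surjInv_eq hπ, map_mul, Function.surjInv_eq hπ, Function.surjInv_eq hπ] }
    have hσ' : ∀ x, σ' (π x) = σ x := fun x => hfac _ _ (Function.surjInv_eq hπ _)
    have htr' : (fun t => tr σ' (π t)) = tr σ := by
      funext t
      simp only [tr, hσ']
    refine ⟨tr σ', ⟨⟨n, σ', ⟨hσ.1, ?_⟩, rfl⟩, ?_⟩, htr'⟩
    · rw [eq_top_iff, ← hσ.2, Submodule.span_le]
      rintro _ ⟨x, rfl⟩
      apply Submodule.subset_span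
      exact ⟨π x, hσ' x⟩
    · funext g
      obtain ⟨x, rfl⟩ := hπ g
      rw [← infl_actF hF π hπ hk, htr', hact]
      exact (congrFun htr' x).symm
  · rintro ⟨f', ⟨⟨n, σ, hσ, rfl⟩, hact⟩, rfl⟩
    refine ⟨⟨n, σ.comp π, ⟨hσ.1, ?_⟩, rfl⟩, ?_⟩
    · rw [eq_top_iff, ← hσ.2, Submodule.span_le]
      rintro _ ⟨x, rfl⟩
      apply Submodule.subset_span
      obtain ⟨y, rfl⟩ := hπ x
      exact ⟨y, rfl⟩
    · funext x
      rw [infl_actF hF π hπ hk, hact]

theorem infl_ncard (a : G → F) :
    {f : E → F | f ∈ IBr F E ∧ actF (infl π a) f = f}.ncard =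
      {f : G → F | f ∈ IBr F G ∧ actF a f = f}.ncard := by
  rw [infl_IBr hF π hπ hk]
  apply Set.ncard_image_of_injective
  intro f g hfg
  funext s
  obtain ⟨x, rfl⟩ := hπ s
  exact congrFun hfg x

theorem infl_lnum (a : G → F) (X : Subgroup G) :
    lnum (X.comap π) (infl π a) = lnum X a := by
  let p : X.comap π →* X := π.subgroupComap X
  have hp : Function.Surjective p := by
    rintro ⟨g, hg⟩
    obtain ⟨x, rfl⟩ := hπ g
    exact ⟨⟨x, hg⟩, rfl⟩
  have hcard : Nat.card p.ker = Nat.card π.ker := by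
    apply Nat.card_congr
    exact
      { toFun := fun x => ⟨x.1.1, congrArg Subtype.val x.2⟩
        invFun := fun x => ⟨⟨x.1, by
          change π x.1 ∈ X
          rw [show π x.1 = 1 from x.2]
          exact X.one_mem⟩, Subtype.ext x.2⟩
        left_inv := fun x => rfl
        right_inv := fun x => rfl }
  have h1 := infl_ncard hF p hp (by rw [hcard]; exact hk) (fun t : X => a t)
  unfold lnum
  rw [← h1]
  congr 1
  ext f
  have h2 : (fun t : X.comap π => infl π a t) = infl p (fun t : X => a t) := by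
    funext t
    simp only [infl, hcard]
    rfl
  rw [h2]

end infl

section chains

variable {E G : Type} [Group E] [Group G] [Finite E] [Finite G] {ℓ : ℕ} (π : E →* G)
  (hπ : Function.Surjective π) (hc : π.ker ≤ Subgroup.center E)
  (hk : (Nat.card π.ker).Coprime ℓ)

theorem pgroup_pow {ℓ : ℕ} {D : Subgroup E} (hD : IsPGroup ℓ D) {x : E} (hx : x ∈ D) :
    ∃ k : ℕ, x ^ ℓ ^ k = 1 := by
  obtain ⟨k, hk⟩ := hD ⟨x, hx⟩
  exact ⟨k, congrArg Subtype.val hk⟩

include hk in
theorem ker_eq_one {z : E} (hz : z ∈ π.ker) {k : ℕ} (h : z ^ ℓ ^ k = 1) : z = 1 := by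
  have h1 : orderOf z ∣ ℓ ^ k := orderOf_dvd_of_pow_eq_one h
  have h2 : orderOf z ∣ Nat.card π.ker := by
    have := orderOf_dvd_natCard (⟨z, hz⟩ : π.ker)
    rwa [Subgroup.orderOf_mk] at this
  have h3 : orderOf z ∣ 1 := by
    have h4 : (Nat.card π.ker).Coprime (ℓ ^ k) := Nat.Coprime.pow_right k hk
    have := Nat.dvd_gcd h2 h1
    rwa [h4] at this
  exact orderOf_eq_one_iff.1 (Nat.dvd_one.1 h3)

include hc hk in
theorem map_le_map {D D' : Subgroup E} (hD : IsPGroup ℓ D) (hD' : IsPGroup ℓ D')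
    (h : D.map π ≤ D'.map π) : D ≤ D' := by
  intro x hx
  obtain ⟨y, hy, hxy⟩ := h ⟨x, hx, rfl⟩
  obtain ⟨k, hk1⟩ := pgroup_pow hD hx
  obtain ⟨k', hk2⟩ := pgroup_pow hD' hy
  have hz : y⁻¹ * x ∈ π.ker := by
    rw [MonoidHom.mem_ker, map_mul, map_inv, hxy, inv_mul_cancel]
  have hz1 : y⁻¹ * x = 1 := by
    apply ker_eq_one π hk hz (k := k + k')
    have hcomm : Commute y x := by
      have h1 : x = y * (y⁻¹ * x) := by group
      have h2 : Commute y (y⁻¹ * x) := Subgroup.mem_center_iff.1 (hc hz) y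
      rw [h1]
      exact (Commute.refl y).mul_right h2
    rw [hcomm.inv_left.mul_pow, inv_pow, pow_add, pow_mul x, hk1, one_pow, mul_comm (ℓ ^ k),
      pow_mul y, hk2, one_pow, inv_one, one_mul]
  have h1 : x = y := by
    rw [inv_mul_eq_one] at hz1
    exact hz1.symm
  rw [h1]
  exact hy

include hπ hk in
theorem exists_lift (hℓ : ℓ.Prime) {R : Subgroup G} (hR : IsPGroup ℓ R) :
    ∃ D : Subgroup E, IsPGroup ℓ D ∧ D.map π = R := by
  have : Fact ℓ.Prime := ⟨hℓ⟩
  obtain ⟨P⟩ : Nonempty (Sylow ℓ (R.comap π)) := inferInstance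
  let D : Subgroup E := (P : Subgroup (R.comap π)).map (R.comap π).subtype
  have hD : IsPGroup ℓ D := P.isPGroup'.map _
  have hDR : D.map π ≤ R := by
    rintro _ ⟨x, ⟨y, _, rfl⟩, rfl⟩
    exact y.2
  refine ⟨D, hD, ?_⟩
  -- orders
  obtain ⟨n, hn⟩ := hR.exists_card_eq
  have hcard : Nat.card (R.comap π) = Nat.card R * Nat.card π.ker := by
    let p : R.comap π →* R := π.subgroupComap R
    have hp : Function.Surjective p := by
      rintro ⟨g, hg⟩
      obtain ⟨x, rfl⟩ := hπ g
      exact ⟨⟨x, hg⟩, rfl⟩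
    have h1 : Nat.card p.ker = Nat.card π.ker := by
      apply Nat.card_congr
      exact
        { toFun := fun x => ⟨x.1.1, congrArg Subtype.val x.2⟩
          invFun := fun x => ⟨⟨x.1, by
            change π x.1 ∈ R
            rw [show π x.1 = 1 from x.2]
            exact R.one_mem⟩, Subtype.ext x.2⟩
          left_inv := fun x => rfl
          right_inv := fun x => rfl }
    have h2 := Subgroup.card_eq_card_quotient_mul_card_subgroup p.ker
    rw [h2, h1, Nat.card_congr (QuotientGroup.quotientKerEquivOfSurjective p hp).toEquiv]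
  have hPc : Nat.card P = ℓ ^ n := by
    rw [P.card_eq_multiplicity, hcard, hn]
    congr 1
    have hk0 : Nat.card π.ker ≠ 0 := Nat.card_pos.ne'
    rw [Nat.factorization_mul (pow_ne_zero _ hℓ.ne_zero) hk0, Finsupp.add_apply,
      hℓ.factorization_pow, Finsupp.single_eq_same,
      Nat.factorization_eq_zero_of_not_dvd ((Nat.Prime.coprime_iff_not_dvd hℓ).1 hk.symm)]
    simp
  have hDc : Nat.card D = ℓ ^ n := by
    rw [← hPc]
    exact Nat.card_congr ((P : Subgroup (R.comap π)).equivMapOfInjective _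
      (Subgroup.subtype_injective _)).toEquiv.symm
  have hinj : Function.Injective (π.subgroupMap D) := by
    rw [injective_iff_map_eq_one]
    intro x hx
    have hx1 : π x = 1 := congrArg Subtype.val hx
    obtain ⟨k, hk1⟩ := pgroup_pow hD x.2
    exact Subtype.ext (ker_eq_one π hk hx1 hk1)
  have hDm : Nat.card (D.map π) = ℓ ^ n := by
    rw [← hDc]
    exact (Nat.card_congr (Equiv.ofBijective _ ⟨hinj, π.subgroupMap_surjective D⟩)).symm
  exact Subgroup.eq_of_le_of_card_ge hDR (by rw [hDm, hn])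

end chains

section yy

variable {F E G : Type} [Field F] [Group E] [Group G] [Finite E] [Finite G] {ℓ : ℕ}
  (hF : GoodF ℓ F) (π : E →* G)
  (hπ : Function.Surjective π) (hc : π.ker ≤ Subgroup.center E)
  (hk : (Nat.card π.ker).Coprime ℓ)

include hπ in
theorem card_comap' (X : Subgroup G) : Nat.card (X.comap π) = Nat.card π.ker * Nat.card X := by
  let p : X.comap π →* X := π.subgroupComap X
  have hp : Function.Surjective p := by
    rintro ⟨g, hg⟩
    obtain ⟨x, rfl⟩ := hπ g
    exact ⟨⟨x, hg⟩, rfl⟩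
  have h1 : Nat.card p.ker = Nat.card π.ker := by
    apply Nat.card_congr
    exact
      { toFun := fun x => ⟨x.1.1, congrArg Subtype.val x.2⟩
        invFun := fun x => ⟨⟨x.1, by
          change π x.1 ∈ X
          rw [show π x.1 = 1 from x.2]
          exact X.one_mem⟩, Subtype.ext x.2⟩
        left_inv := fun x => rfl
        right_inv := fun x => rfl }
  have h2 := Subgroup.card_eq_card_quotient_mul_card_subgroup p.ker
  rw [h2, h1, Nat.card_congr (QuotientGroup.quotientKerEquivOfSurjective p hp).toEquiv, mul_comm]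

theorem map_conjS (x : E) (D : Subgroup E) : (conjS x D).map π = conjS (π x) (D.map π) := by
  unfold conjS
  rw [Subgroup.map_map, Subgroup.map_map]
  congr 1
  ext y
  simp

include hc hk in
theorem map_inj {D D' : Subgroup E} (hD : IsPGroup ℓ D) (hD' : IsPGroup ℓ D')
    (h : D.map π = D'.map π) : D = D' :=
  le_antisymm (map_le_map π hc hk hD hD' h.le) (map_le_map π hc hk hD' hD h.ge)

include hc hk in
theorem stab_comap {d : Finset (Subgroup E)} (hd : ∀ D ∈ d, IsPGroup ℓ D)
    [DecidableEq (Subgroup G)] :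
    stab d = (stab (d.image (Subgroup.map π))).comap π := by
  ext x
  rw [Subgroup.mem_comap, mem_stab, mem_stab]
  constructor
  · intro h D' hD'
    obtain ⟨D, hD, rfl⟩ := Finset.mem_image.1 hD'
    rw [← map_conjS, h D hD]
  · intro h D hD
    apply map_inj π hc hk (conjS_pgroup (hd D hD)) (hd D hD)
    rw [map_conjS]
    exact h _ (Finset.mem_image_of_mem _ hD)

include hF hπ hc hk in
theorem infl_YY (e : G → F) (M : Subgroup G) :
    YY ℓ (M.comap π) (infl π e) = Nat.card π.ker * YY ℓ M e := by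
  classical
  unfold YY
  rw [Finset.mul_sum]
  have hps : ∀ d ∈ chainsOn (psubIn ℓ (M.comap π)) ⊥, ∀ D ∈ d,
      D ≤ M.comap π ∧ IsPGroup ℓ D := by
    intro d hd D hD
    exact mem_psubIn.1 ((mem_chainsOn.1 hd).1 hD)
  apply Finset.sum_bij (fun d _ => d.image (Subgroup.map π))
  · intro d hd
    rw [mem_chainsOn]
    refine ⟨?_, ?_, ?_⟩
    · intro D' hD'
      obtain ⟨D, hD, rfl⟩ := Finset.mem_image.1 hD'
      obtain ⟨h1, h2⟩ := hps d hd D hD
      exact mem_psubIn.2 ⟨Subgroup.map_le_iff_le_comap.2 h1, h2.map π⟩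
    · rw [Finset.mem_image]
      exact ⟨⊥, (mem_chainsOn.1 hd).2.1, Subgroup.map_bot π⟩
    · intro D1 hD1 D2 hD2 _
      obtain ⟨A, hA, rfl⟩ := Finset.mem_image.1 hD1
      obtain ⟨B, hB, rfl⟩ := Finset.mem_image.1 hD2
      rcases chain_total (mem_chainsOn.1 hd).2.2 hA hB with h | h
      · left; exact Subgroup.map_mono h
      · right; exact Subgroup.map_mono h
  · intro d1 hd1 d2 hd2 h
    have key : ∀ d1 ∈ chainsOn (psubIn ℓ (M.comap π)) ⊥, ∀ d2 ∈ chainsOn (psubIn ℓ (M.comap π)) ⊥,
        d1.image (Subgroup.map π) = d2.image (Subgroup.map π) → d1 ⊆ d2 := by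
      intro d1 hd1 d2 hd2 h D hD
      have h1 : D.map π ∈ d2.image (Subgroup.map π) := by
        rw [← h]; exact Finset.mem_image_of_mem _ hD
      obtain ⟨D', hD', hDD'⟩ := Finset.mem_image.1 h1
      have : D' = D := map_inj π hc hk (hps d2 hd2 D' hD').2 (hps d1 hd1 D hD).2 hDD'
      rwa [← this]
    exact Finset.Subset.antisymm (key d1 hd1 d2 hd2 h) (key d2 hd2 d1 hd1 h.symm)
  · intro d' hd'
    obtain ⟨h1, h2, h3⟩ := mem_chainsOn.1 hd'
    refine ⟨(psubIn ℓ (M.comap π)).filter (fun D => D.map π ∈ d'), ?_, ?_⟩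
    · rw [mem_chainsOn]
      refine ⟨Finset.filter_subset _ _, ?_, ?_⟩
      · rw [Finset.mem_filter]
        refine ⟨mem_psubIn.2 ⟨bot_le, IsPGroup.of_bot⟩, ?_⟩
        rw [Subgroup.map_bot]; exact h2
      · intro D1 hD1 D2 hD2 _
        rw [Finset.mem_coe, Finset.mem_filter] at hD1 hD2
        have hp1 := (mem_psubIn.1 hD1.1).2
        have hp2 := (mem_psubIn.1 hD2.1).2
        rcases chain_total h3 hD1.2 hD2.2 with h | h
        · left; exact map_le_map π hc hk hp1 hp2 h
        · right; exact map_le_map π hc hk hp2 hp1 h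
    · ext R
      rw [Finset.mem_image]
      constructor
      · rintro ⟨D, hD, rfl⟩
        exact (Finset.mem_filter.1 hD).2
      · intro hR
        obtain ⟨hRM, hRp⟩ := mem_psubIn.1 (h1 hR)
        obtain ⟨D, hD, rfl⟩ := exists_lift π hπ hk hF.prime hRp
        refine ⟨D, ?_, rfl⟩
        rw [Finset.mem_filter]
        exact ⟨mem_psubIn.2 ⟨Subgroup.map_le_iff_le_comap.1 hRM, hD⟩, hR⟩
  · intro d hd
    have hcard : (d.image (Subgroup.map π)).card = d.card := by
      apply Finset.card_image_of_injOn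
      intro A hA B hB hAB
      exact map_inj π hc hk (hps d hd A hA).2 (hps d hd B hB).2 hAB
    rw [hcard, stab_comap π hc hk (fun D hD => (hps d hd D hD).2), infl_lnum hF π hπ hk,
      card_comap' π hπ]
    push_cast
    ring

end yy

section pos

variable {F H : Type} [Field F] [Group H]

theorem mulF_smul [Finite H] (c : F) (a b : H → F) : mulF a (c • b) = c • mulF a b := by
  have := Fintype.ofFinite H
  funext x
  rw [Pi.smul_apply, mulF_eq, mulF_eq, smul_eq_mul, Finset.mul_sum]
  apply Finset.sum_congr rfl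
  intro t _
  simp only [Pi.smul_apply, smul_eq_mul]
  ring

/-- multiplication by a class sum as an average -/
theorem clsum_avg [Finite H] (Q : Subgroup H) {x : H} (hx : x ∈ Q) (b : H → F) (y : H) :
    (Nat.card (Subgroup.centralizer ({x} : Set H) ⊓ Q : Subgroup H) : F) *
      mulF (clsum F Q x) b y = ∑ᶠ q : Q, b ((q * x * (q : H)⁻¹)⁻¹ * y) := by
  classical
  have := Fintype.ofFinite H
  have : Fintype Q := Fintype.ofFinite Q
  rw [finsum_eq_sum_of_fintype, mulF_eq,
    Finset.sum_comp (fun t : H => b (t⁻¹ * y)) (fun q : Q => (q : H) * x * (q : H)⁻¹),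
    Finset.mul_sum]
  symm
  apply Finset.sum_subset_zero_on_sdiff (Finset.subset_univ _)
  · intro t ht
    rw [Finset.mem_sdiff] at ht
    have h1 : ¬ ∃ q ∈ Q, t = q * x * q⁻¹ := by
      rintro ⟨q, hq, rfl⟩
      exact ht.2 (Finset.mem_image.2 ⟨⟨q, hq⟩, Finset.mem_univ _, rfl⟩)
    rw [clsum, if_neg h1, zero_mul, mul_zero]
  · intro t ht
    obtain ⟨q0, -, rfl⟩ := Finset.mem_image.1 ht
    have h1 : ∃ q ∈ Q, (q0 : H) * x * (q0 : H)⁻¹ = q * x * q⁻¹ := ⟨q0, q0.2, rfl⟩
    rw [clsum, if_pos h1, one_mul, nsmul_eq_mul]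
    congr 2
    rw [← Fintype.card_subtype, ← Nat.card_eq_fintype_card]
    apply Nat.card_congr
    exact
      { toFun := fun a => ⟨(q0 : H)⁻¹ * a.1, by
          refine Subgroup.mem_inf.2 ⟨?_, Q.mul_mem (Q.inv_mem q0.2) a.1.2⟩
          rw [Subgroup.mem_centralizer_singleton_iff]
          have h2 : (a.1 : H) * x * (a.1 : H)⁻¹ = (q0 : H) * x * (q0 : H)⁻¹ := a.2
          have h3 : (a.1 : H) * x = (q0 : H) * x * (q0 : H)⁻¹ * a.1 :=
            calc (a.1 : H) * x = (a.1 : H) * x * (a.1 : H)⁻¹ * a.1 := by group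
              _ = _ := congrArg (fun t => t * (a.1 : H)) h2
          rw [mul_assoc, h3]; group⟩
        invFun := fun c => ⟨⟨(q0 : H) * c.1, Q.mul_mem q0.2 (Subgroup.mem_inf.1 c.2).2⟩, by
          have h2 := (Subgroup.mem_inf.1 c.2).1
          rw [Subgroup.mem_centralizer_singleton_iff] at h2
          have h3 : c.1 * x * (c.1)⁻¹ = x := by rw [h2]; group
          change (q0 : H) * c.1 * x * ((q0 : H) * c.1)⁻¹ = _
          calc (q0 : H) * c.1 * x * ((q0 : H) * c.1)⁻¹ = (q0 : H) * (c.1 * x * (c.1)⁻¹) *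
              (q0 : H)⁻¹ := by group
            _ = _ := by rw [h3]⟩
        left_inv := fun a => by
          apply Subtype.ext
          apply Subtype.ext
          simp
        right_inv := fun c => by
          apply Subtype.ext
          simp }

end pos

section pos2

variable {F E G : Type} [Field F] [Group E] [Group G] [Finite E] [Finite G] {ℓ : ℕ}
  (hF : GoodF ℓ F) (π : E →* G)
  (hπ : Function.Surjective π) (hc : π.ker ≤ Subgroup.center E)
  (hk : (Nat.card π.ker).Coprime ℓ)

include hF hπ hc hk in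
/-- defect zero classes go to defect zero classes -/
theorem dz_map (M : Subgroup G) {x : E}
    (h : ¬ ℓ ∣ Nat.card (Subgroup.centralizer ({x} : Set E) ⊓ M.comap π : Subgroup E)) :
    ¬ ℓ ∣ Nat.card (Subgroup.centralizer ({π x} : Set G) ⊓ M : Subgroup G) := by
  intro hdvd
  apply h
  have : Fact ℓ.Prime := ⟨hF.prime⟩
  obtain ⟨g, hg⟩ := exists_prime_orderOf_dvd_card' ℓ hdvd
  have hgo : orderOf (g : G) = ℓ := by rw [← hg]; exact Subgroup.orderOf_coe g
  have hRp : IsPGroup ℓ (Subgroup.zpowers (g : G)) := by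
    apply IsPGroup.of_card (n := 1)
    rw [Nat.card_zpowers, hgo, pow_one]
  obtain ⟨D, hD, hDR⟩ := exists_lift π hπ hk hF.prime hRp
  have hgm : (g : G) ∈ D.map π := by rw [hDR]; exact Subgroup.mem_zpowers _
  obtain ⟨d, hd, hdg⟩ := hgm
  obtain ⟨k, hdk⟩ := pgroup_pow hD hd
  obtain ⟨hg1, hg2⟩ := Subgroup.mem_inf.1 g.2
  rw [Subgroup.mem_centralizer_singleton_iff] at hg1
  -- the commutator
  set z := d * x * d⁻¹ * x⁻¹ with hz
  have hzk : z ∈ π.ker := by
    rw [MonoidHom.mem_ker, hz]
    simp only [map_mul, map_inv, hdg]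
    rw [hg1]; group
  have hzc : ∀ y, Commute y z := fun y => Subgroup.mem_center_iff.1 (hc hzk) y
  have hdx : d * x * d⁻¹ = z * x := by rw [hz]; group
  have hpow : ∀ j : ℕ, d ^ j * x * (d ^ j)⁻¹ = z ^ j * x := by
    intro j
    induction j with
    | zero => simp
    | succ j ih =>
      calc d ^ (j + 1) * x * (d ^ (j + 1))⁻¹ = d * (d ^ j * x * (d ^ j)⁻¹) * d⁻¹ := by
            rw [pow_succ']; group
        _ = d * (z ^ j * x) * d⁻¹ := by rw [ih]
        _ = z ^ j * (d * x * d⁻¹) := by
            have h1 : d * z ^ j = z ^ j * d := ((hzc d).pow_right j).eq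
            rw [← mul_assoc, h1]; group
        _ = z ^ (j + 1) * x := by rw [hdx, ← mul_assoc, ← pow_succ]
  have hz1 : z = 1 := by
    apply ker_eq_one π hk hzk (k := k)
    have := hpow (ℓ ^ k)
    rw [hdk] at this
    simpa using this.symm
  have hdc : d ∈ Subgroup.centralizer ({x} : Set E) ⊓ M.comap π := by
    refine Subgroup.mem_inf.2 ⟨?_, ?_⟩
    · rw [Subgroup.mem_centralizer_singleton_iff]
      rw [hz1, one_mul] at hdx
      calc d * x = d * x * d⁻¹ * d := by group
        _ = x * d := by rw [hdx]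
    · change π d ∈ M
      rw [hdg]; exact hg2
  have hd1 : orderOf d ∣ ℓ ^ k := orderOf_dvd_of_pow_eq_one hdk
  have hd2 : ℓ ∣ orderOf d := by
    have : orderOf (π d) ∣ orderOf d := orderOf_map_dvd π d
    rwa [hdg, hgo] at this
  exact hd2.trans (by
    have := orderOf_dvd_natCard (⟨d, hdc⟩ :
      (Subgroup.centralizer ({x} : Set E) ⊓ M.comap π : Subgroup E))
    rwa [Subgroup.orderOf_mk] at this)

include hF hπ hk in
theorem infl_clsum (M : Subgroup G) {x : E} (hx : x ∈ M.comap π)
    (h : ¬ ℓ ∣ Nat.card (Subgroup.centralizer ({x} : Set E) ⊓ M.comap π : Subgroup E)) :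
    ∃ w : F, ∀ b : G → F, mulF (clsum F (M.comap π) x) (infl π b) =
      w • infl π (mulF (clsum F M (π x)) b) := by
  have hne := natCast_ne hF hk
  have hcE : (Nat.card (Subgroup.centralizer ({x} : Set E) ⊓ M.comap π : Subgroup E) : F) ≠ 0 :=
    natCast_ne hF ((Nat.Prime.coprime_iff_not_dvd hF.prime).2 h).symm
  set cE := Nat.card (Subgroup.centralizer ({x} : Set E) ⊓ M.comap π : Subgroup E)
  set cG := Nat.card (Subgroup.centralizer ({π x} : Set G) ⊓ M : Subgroup G) with hcG
  refine ⟨(cE : F)⁻¹ * (cG * Nat.card π.ker), fun b => ?_⟩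
  funext y
  have h1 := clsum_avg (M.comap π) hx (infl π b) y
  have h2 := clsum_avg M (x := π x) hx b (π y)
  have h3 : ∑ᶠ q : M.comap π, infl π b ((q * x * (q : E)⁻¹)⁻¹ * y) =
      ∑ᶠ q : M, b ((q * π x * (q : G)⁻¹)⁻¹ * π y) := by
    have := Fintype.ofFinite (M.comap π)
    have := Fintype.ofFinite M
    rw [finsum_eq_sum_of_fintype, finsum_eq_sum_of_fintype]
    let p : M.comap π →* M := π.subgroupComap M
    have hp : Function.Surjective p := by
      rintro ⟨g, hg⟩
      obtain ⟨x, rfl⟩ := hπ g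
      exact ⟨⟨x, hg⟩, rfl⟩
    have hcard : Nat.card p.ker = Nat.card π.ker := by
      apply Nat.card_congr
      exact
        { toFun := fun x => ⟨x.1.1, congrArg Subtype.val x.2⟩
          invFun := fun x => ⟨⟨x.1, by
            change π x.1 ∈ M
            rw [show π x.1 = 1 from x.2]
            exact M.one_mem⟩, Subtype.ext x.2⟩
          left_inv := fun x => rfl
          right_inv := fun x => rfl }
    have h4 : ∀ q : M.comap π, infl π b ((q * x * (q : E)⁻¹)⁻¹ * y) =
        (fun q' : M => (Nat.card π.ker : F)⁻¹ * b ((q' * π x * (q' : G)⁻¹)⁻¹ * π y)) (p q) := by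
      intro q
      change (Nat.card π.ker : F)⁻¹ * b (π ((q * x * (q : E)⁻¹)⁻¹ * y)) =
        (Nat.card π.ker : F)⁻¹ * b ((π q * π x * (π q)⁻¹)⁻¹ * π y)
      simp only [map_mul, map_inv]
    rw [Finset.sum_congr rfl (fun q _ => h4 q), sum_comp_hom p hp (fun q' : M =>
      (Nat.card π.ker : F)⁻¹ * b ((q' * π x * (q' : G)⁻¹)⁻¹ * π y)), ← Finset.mul_sum,
      nsmul_eq_mul, hcard, ← mul_assoc, mul_inv_cancel₀ hne, one_mul]
  rw [h3, ← h2] at h1
  rw [Pi.smul_apply, smul_eq_mul, infl]
  rw [← hcG] at h1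
  have h5 : mulF (clsum F (M.comap π) x) (infl π b) y = (cE : F)⁻¹ * (cG *
      mulF (clsum F M (π x)) b (π y)) := by
    rw [← h1, ← mul_assoc, inv_mul_cancel₀ hcE, one_mul]
  rw [h5]
  calc (cE : F)⁻¹ * (cG * mulF (clsum F M (π x)) b (π y)) =
      (cE : F)⁻¹ * (cG * (Nat.card π.ker * (Nat.card π.ker : F)⁻¹) *
        mulF (clsum F M (π x)) b (π y)) := by rw [mul_inv_cancel₀ hne, mul_one]
    _ = _ := by ring

include hF hπ hc hk in
theorem infl_Pos (e : G → F) (M : Subgroup G) (hpos : Pos ℓ e M) :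
    Pos ℓ (infl π e) (M.comap π) := by
  intro x hx h
  obtain ⟨n, hn⟩ := hpos (π x) hx (dz_map hF π hπ hc hk M h)
  obtain ⟨w, hw⟩ := infl_clsum hF π hπ hk M hx h
  refine ⟨n, ?_⟩
  have key : ∀ n : ℕ, (mulF (clsum F (M.comap π) x))^[n] (infl π e) =
      w ^ n • infl π ((mulF (clsum F M (π x)))^[n] e) := by
    intro n
    induction n with
    | zero => simp
    | succ n ih =>
      rw [Function.iterate_succ_apply', ih, mulF_smul, hw, Function.iterate_succ_apply', smul_smul,
        pow_succ]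
  rw [key, hn]
  funext y
  simp [infl]

end pos2

theorem cen : CenStmt := by
  intro ℓ F _ hF E G _ _ _ _ π hπ hc hk e he
  have hk' : (Nat.card π.ker).Coprime ℓ :=
    ((Nat.Prime.coprime_iff_not_dvd hF.prime).2 hk).symm
  have hc' : π.ker ≤ Subgroup.center E := fun x hx => hc x hx
  exact ⟨infl_isIdem hF π hπ hk' he, fun X => infl_lnum hF π hπ hk' e X,
    fun M _ => ⟨infl_YY hF π hπ hc' hk' e M, infl_Pos hF π hπ hc' hk' e M⟩⟩

end Pool.Agent.PP.H74
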