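import Pool.Agent.Helper74_PP.Loc

/-!
# Squad PP, part J: XFS, the group `X[f]` and its units
-/

open scoped BigOperators

set_option linter.unusedSectionVars false

noncomputable section

namespace Pool.Agent.PP.J74

open Pool.Agent.PP

section xfs

variable {F X : Type} [Field F] [Group X] [Finite X] {Y : Subgroup X} (hY : Y.Normal) {f : X → F}
  (hf : SBlk Y f)

include hf in
theorem single_f (x : X) : MonoidAlgebra.single x (1 : F) * ma f =
    ma f * MonoidAlgebra.single x 1 := by
  have := (isCl_iff f).1 hf.cl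
  rw [Subalgebra.mem_center_iff] at this
  exact this _

include hf in
theorem cjF_f (x : X) : cjF x f = f := by
  apply ma_injective
  rw [ma_cjF, single_f hf, mul_assoc, single_inv, mul_one]

theorem cjF_mul (x : X) (u v : X → F) : cjF x (mulF u v) = mulF (cjF x u) (cjF x v) := by
  apply ma_injective
  rw [ma_mul, ma_cjF, ma_cjF, ma_cjF, ma_mul]
  have h := single_inv' (F := F) x
  calc MonoidAlgebra.single x (1 : F) * (ma u * ma v) * MonoidAlgebra.single x⁻¹ 1
      = MonoidAlgebra.single x 1 * ma u * 1 * ma v * MonoidAlgebra.single x⁻¹ 1 := by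
        simp only [mul_assoc, mul_one]
    _ = _ := by
        rw [← h]
        simp only [mul_assoc]

include hf in
theorem abs_right {u : X → F} (hu : mulF f u = u) : mulF u f = u := by
  rw [← f_comm hf, hu]

include hY hf in
theorem unit_symm {g : X} {u u' : X → F} (h : IsUnitOver f Y g u u') : mulF u' u = f := by
  have h1 : CE f Y 1 (mulF u' u) := by
    have := h.right.mul hY h.left
    rwa [inv_mul_cancel] at this
  have h2 : mulF (mulF u' u) (mulF u' u) = mulF u' u := by
    rw [mulF_assoc, ← mulF_assoc u, h.mul, h.left.abs]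
  have h3 : zy h1 * zy h1 = zy h1 := Subtype.ext (by
    change ma _ * ma _ = ma _
    rw [← ma_mul, h2])
  rcases prim_zy hf (zy h1) h3 with h4 | h4
  · rw [zy_abs hf h1] at h4
    exact ma_injective (congrArg Subtype.val h4)
  · exfalso
    rw [zy_abs hf h1] at h4
    have h5 : mulF u' u = 0 := by
      apply ma_injective
      rw [ma_zero]
      exact congrArg Subtype.val h4
    apply f_ne hf
    have h6 : mulF (mulF u (mulF u' u)) u' = f := by
      rw [mulF_assoc, mulF_assoc u', h.mul, abs_right hf h.right.abs, h.mul]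
    rw [← h6, h5]
    apply ma_injective
    rw [ma_mul, ma_mul, ma_zero, mul_zero, zero_mul]

include hY hf in
theorem unit_inv {g : X} {u u' : X → F} (h : IsUnitOver f Y g u u') :
    IsUnitOver f Y g⁻¹ u' u :=
  ⟨h.right, by rw [inv_inv]; exact h.left, unit_symm hY hf h⟩

include hf in
theorem unit_one : IsUnitOver f Y 1 f f :=
  ⟨f_CE hf, by rw [inv_one]; exact f_CE hf, f_idem hf⟩

include hY hf in
theorem unit_mul {g h : X} {u u' v v' : X → F} (hu : IsUnitOver f Y g u u')
    (hv : IsUnitOver f Y h v v') : IsUnitOver f Y (g * h) (mulF u v) (mulF v' u') := by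
  refine ⟨hu.left.mul hY hv.left, ?_, ?_⟩
  · rw [mul_inv_rev]
    exact hv.right.mul hY hu.right
  · rw [mulF_assoc, ← mulF_assoc v, hv.mul, hu.right.abs, hu.mul]

include hY in
theorem unit_congr {g n : X} (hn : n ∈ Y) {u u' : X → F} (hu : IsUnitOver f Y g u u') :
    IsUnitOver f Y (g * n) u u' := by
  refine ⟨hu.left.congr_mem hn, ?_, hu.mul⟩
  have h1 : g * n⁻¹ * g⁻¹ ∈ Y := hY.conj_mem _ (Y.inv_mem hn) g
  have h2 := hu.right.congr_mem h1
  have e : g⁻¹ * (g * n⁻¹ * g⁻¹) = (g * n)⁻¹ := by group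
  rwa [e] at h2

include hY hf in
theorem unit_conj {g : X} {u u' : X → F} (hu : IsUnitOver f Y g u u') (x : X) :
    IsUnitOver f Y (x * g * x⁻¹) (cjF x u) (cjF x u') := by
  refine ⟨hu.left.cjF hY hf x, ?_, ?_⟩
  · have := hu.right.cjF hY hf x
    have e : x * g⁻¹ * x⁻¹ = (x * g * x⁻¹)⁻¹ := by group
    rwa [e] at this
  · rw [← cjF_mul, hu.mul, cjF_f hf]

include hY hf in
theorem mem_XF (g : X) : g ∈ XF f Y ↔ ∃ u u', IsUnitOver f Y g u u' := by
  constructor
  · intro hg
    unfold XF at hg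
    induction hg using Subgroup.closure_induction with
    | mem x hx => exact hx
    | one => exact ⟨f, f, unit_one hf⟩
    | mul x y _ _ hx hy =>
      obtain ⟨u, u', hu⟩ := hx
      obtain ⟨v, v', hv⟩ := hy
      exact ⟨_, _, unit_mul hY hf hu hv⟩
    | inv x _ hx =>
      obtain ⟨u, u', hu⟩ := hx
      exact ⟨_, _, unit_inv hY hf hu⟩
  · intro h
    exact Subgroup.subset_closure h

include hY hf in
theorem XF_normal : (XF f Y).Normal := by
  constructor
  intro g hg x
  rw [mem_XF hY hf] at hg ⊢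
  obtain ⟨u, u', hu⟩ := hg
  exact ⟨_, _, unit_conj hY hf hu x⟩

include hY hf in
theorem le_XF : Y ≤ XF f Y := by
  intro n hn
  rw [mem_XF hY hf]
  have := unit_congr hY hn (unit_one hf)
  rw [one_mul] at this
  exact ⟨_, _, this⟩

include hY hf in
theorem unit_span {g : X} {u u' : X → F} (h : IsUnitOver f Y g u u') {v : X → F}
    (hv : CE f Y g v) : ∃ z, CE f Y 1 z ∧ v = mulF z u := by
  refine ⟨mulF v u', ?_, ?_⟩
  · have := hv.mul hY h.right
    rwa [mul_inv_cancel] at this
  · rw [mulF_assoc, unit_symm hY hf h, abs_right hf hv.abs]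

/-- an element of `C_g` moves past the elements of `C` like `g` -/
theorem mul_cjF {g : X} {u : X → F} (hu : ∀ h, g⁻¹ * h ∉ Y → u h = 0) {c : X → F}
    (hc : ∀ n ∈ Y, ∀ h, c (n * h * n⁻¹) = c h) : mulF u c = mulF (cjF g c) u := by
  apply ma_injective
  rw [ma_mul, ma_mul, ma_eq_sum u]
  have := Fintype.ofFinite X
  rw [finsum_eq_sum_of_fintype, Finset.sum_mul, Finset.mul_sum]
  apply Finset.sum_congr rfl
  intro t _
  by_cases ht : g⁻¹ * t ∈ Y
  · have h1 := (comm_iff (g⁻¹ * t) c).1 (hc _ ht)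
    have e : MonoidAlgebra.single t (u t) = u t • (MonoidAlgebra.single t 1 : MonoidAlgebra F X) := by
      rw [MonoidAlgebra.smul_single, smul_eq_mul, mul_one]
    have e2 : (MonoidAlgebra.single t 1 : MonoidAlgebra F X) =
        MonoidAlgebra.single g 1 * MonoidAlgebra.single (g⁻¹ * t) 1 := by
      rw [MonoidAlgebra.single_mul_single, mul_inv_cancel_left, mul_one]
    rw [e, smul_mul_assoc, mul_smul_comm, ma_cjF, e2, mul_assoc, h1]
    congr 1
    simp only [mul_assoc]
    rw [← mul_assoc (MonoidAlgebra.single g⁻¹ (1 : F)) (MonoidAlgebra.single g 1), single_inv',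
      one_mul]
  · rw [hu t ht]
    simp

include hf in
theorem cjF_abs {c : X → F} (hc : mulF f c = c) (x : X) : mulF (cjF x c) f = cjF x c := by
  rw [← f_comm hf]
  conv_lhs => rw [← cjF_f hf x]
  rw [← cjF_mul, hc]

include hf in
theorem unit_cj {g : X} {u u' : X → F} (h : IsUnitOver f Y g u u') {c : X → F} (hc : CC f Y c) :
    cjF g c = mulF (mulF u c) u' := by
  rw [mul_cjF h.left.supp hc.inv, mulF_assoc, h.mul, cjF_abs hf hc.abs]

include hY hf in
theorem lam_zero (hF : IsAlgClosed F) {g : X} (hg : g ∉ XF f Y) {a a' : X → F} (ha : CE f Y g a)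
    (ha' : CE f Y g⁻¹ a') : CE f Y 1 (mulF a a') ∧ lamJ f (mulF a a') = 0 := by
  have h1 : CE f Y 1 (mulF a a') := by
    have := ha.mul hY ha'
    rwa [mul_inv_cancel] at this
  refine ⟨h1, ?_⟩
  by_contra hne
  obtain ⟨z, hz, hz2⟩ := unit_of_lam hF hf h1 hne
  apply hg
  rw [mem_XF hY hf]
  refine ⟨a, mulF a' z, ha, ?_, ?_⟩
  · have := ha'.mul hY hz
    rwa [mul_one] at this
  · rw [← mulF_assoc, hz2]

theorem cjF_memY {n : X} (hn : n ∈ Y) {c : X → F} (hc : CC f Y c) : cjF n c = c := by
  funext h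
  have := hc.inv _ (Y.inv_mem hn) h
  rw [inv_inv] at this
  exact this

end xfs

/-- XFS -/
theorem xfs : XfsStmt := by
  intro ℓ F _ hF X _ _ Y hY f hf
  refine ⟨mem_XF hY hf, XF_normal hY hf, le_XF hY hf, ?_, ?_, ?_, ?_⟩
  · intro g u u' h
    refine ⟨unit_symm hY hf h, unit_inv hY hf h, fun n hn => unit_congr hY hn h,
      fun x => unit_conj hY hf h x, fun v hv => unit_span hY hf h hv,
      fun c hc => unit_cj hf h hc, fun t v v' hv => unit_mul hY hf h hv⟩
  · intro g hg a a' ha ha'
    exact lam_zero hY hf hF.closed hg ha ha'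
  · intro n hn c hc
    exact cjF_memY hn hc
  · intro z c hz hc
    exact C1_comm hz hc

end Pool.Agent.PP.J74
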