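import Pool.Agent.Helper74_PP.Cen

/-!
CHF: chains of `ℓ`-subgroups of a normal subgroup under a homomorphism whose kernel centralises
the subgroup and meets it in an `ℓ'`-group.
-/

open scoped BigOperators

set_option linter.unusedSectionVars false

noncomputable section

namespace Pool.Agent.PP.H74

open Pool.Agent.PP Pool.Agent.Helper51_AWC Pool.Agent.Helper79_WRA

section chf

variable {E G : Type} [Group E] [Group G] [Finite E] [Finite G] {ℓ : ℕ} (hℓ : ℓ.Prime)
  (f : E →* G) (M : Subgroup E) (hM : M.Normal) (hc : ∀ k, f k = 1 → ∀ m ∈ M, k * m = m * k)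
  (hk : ¬ ℓ ∣ Nat.card (f.ker ⊓ M : Subgroup E))

include hℓ hk in
theorem chf_ker_eq_one {z : E} (hz : f z = 1) (hzM : z ∈ M) {k : ℕ} (h : z ^ ℓ ^ k = 1) :
    z = 1 := by
  have h1 : orderOf z ∣ ℓ ^ k := orderOf_dvd_of_pow_eq_one h
  have h2 : orderOf z ∣ Nat.card (f.ker ⊓ M : Subgroup E) := by
    have := orderOf_dvd_natCard (⟨z, Subgroup.mem_inf.2 ⟨hz, hzM⟩⟩ : (f.ker ⊓ M : Subgroup E))
    rwa [Subgroup.orderOf_mk] at this
  have h3 : orderOf z ∣ 1 := by
    have h4 : (Nat.card (f.ker ⊓ M : Subgroup E)).Coprime (ℓ ^ k) :=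
      Nat.Coprime.pow_right k ((Nat.Prime.coprime_iff_not_dvd hℓ).2 hk).symm
    have := Nat.dvd_gcd h2 h1
    rwa [h4] at this
  exact orderOf_eq_one_iff.1 (Nat.dvd_one.1 h3)

include hℓ hc hk in
theorem chf_map_le {D D' : Subgroup E} (hD : IsPGroup ℓ D) (hD' : IsPGroup ℓ D') (hDM : D ≤ M)
    (hDM' : D' ≤ M) (h : D.map f ≤ D'.map f) : D ≤ D' := by
  intro x hx
  obtain ⟨y, hy, hxy⟩ := h ⟨x, hx, rfl⟩
  obtain ⟨k, hk1⟩ := pgroup_pow hD hx
  obtain ⟨k', hk2⟩ := pgroup_pow hD' hy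
  have hz : f (y⁻¹ * x) = 1 := by rw [map_mul, map_inv, hxy, inv_mul_cancel]
  have hzM : y⁻¹ * x ∈ M := M.mul_mem (M.inv_mem (hDM' hy)) (hDM hx)
  have hz1 : y⁻¹ * x = 1 := by
    apply chf_ker_eq_one hℓ f M hk hz hzM (k := k + k')
    have hcomm : Commute y x := by
      have h1 : x = y * (y⁻¹ * x) := by group
      have h2 : Commute y (y⁻¹ * x) := (hc _ hz y (hDM' hy)).symm
      rw [h1]
      exact (Commute.refl y).mul_right h2
    rw [hcomm.inv_left.mul_pow, inv_pow, pow_add, pow_mul x, hk1, one_pow, mul_comm (ℓ ^ k),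
      pow_mul y, hk2, one_pow, inv_one, one_mul]
  have h1 : x = y := by
    rw [inv_mul_eq_one] at hz1
    exact hz1.symm
  rw [h1]
  exact hy

include hℓ hk in
theorem chf_lift {R : Subgroup G} (hR : IsPGroup ℓ R) (hRM : R ≤ M.map f) :
    ∃ D : Subgroup E, D ≤ M ∧ IsPGroup ℓ D ∧ D.map f = R := by
  have : Fact ℓ.Prime := ⟨hℓ⟩
  let P0 : Subgroup E := R.comap f ⊓ M
  obtain ⟨P⟩ : Nonempty (Sylow ℓ P0) := inferInstance
  let D : Subgroup E := (P : Subgroup P0).map P0.subtype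
  have hD : IsPGroup ℓ D := P.isPGroup'.map _
  have hDM : D ≤ M := by
    rintro _ ⟨y, _, rfl⟩
    exact (Subgroup.mem_inf.1 y.2).2
  have hDR : D.map f ≤ R := by
    rintro _ ⟨x, ⟨y, _, rfl⟩, rfl⟩
    exact (Subgroup.mem_inf.1 y.2).1
  refine ⟨D, hDM, hD, ?_⟩
  obtain ⟨n, hn⟩ := hR.exists_card_eq
  have hcard : Nat.card P0 = Nat.card R * Nat.card (f.ker ⊓ M : Subgroup E) := by
    let p : P0 →* R :=
      { toFun := fun x => ⟨f x.1, (Subgroup.mem_inf.1 x.2).1⟩
        map_one' := Subtype.ext (map_one f)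
        map_mul' := fun x y => Subtype.ext (map_mul f x.1 y.1) }
    have hp : Function.Surjective p := by
      rintro ⟨g, hg⟩
      obtain ⟨x, hx, rfl⟩ := hRM hg
      exact ⟨⟨x, Subgroup.mem_inf.2 ⟨hg, hx⟩⟩, rfl⟩
    have h1 : Nat.card p.ker = Nat.card (f.ker ⊓ M : Subgroup E) := by
      apply Nat.card_congr
      exact
        { toFun := fun x => ⟨x.1.1, Subgroup.mem_inf.2 ⟨congrArg Subtype.val x.2,
            (Subgroup.mem_inf.1 x.1.2).2⟩⟩
          invFun := fun x => ⟨⟨x.1, Subgroup.mem_inf.2 ⟨by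
            change f x.1 ∈ R
            rw [show f x.1 = 1 from (Subgroup.mem_inf.1 x.2).1]
            exact R.one_mem, (Subgroup.mem_inf.1 x.2).2⟩⟩,
            Subtype.ext (Subgroup.mem_inf.1 x.2).1⟩
          left_inv := fun x => rfl
          right_inv := fun x => rfl }
    have h2 := Subgroup.card_eq_card_quotient_mul_card_subgroup p.ker
    rw [h2, h1, Nat.card_congr (QuotientGroup.quotientKerEquivOfSurjective p hp).toEquiv]
  have hPc : Nat.card P = ℓ ^ n := by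
    rw [P.card_eq_multiplicity, hcard, hn]
    congr 1
    have hk0 : Nat.card (f.ker ⊓ M : Subgroup E) ≠ 0 := Nat.card_pos.ne'
    rw [Nat.factorization_mul (pow_ne_zero _ hℓ.ne_zero) hk0, Finsupp.add_apply,
      hℓ.factorization_pow, Finsupp.single_eq_same,
      Nat.factorization_eq_zero_of_not_dvd hk]
    simp
  have hDc : Nat.card D = ℓ ^ n := by
    rw [← hPc]
    exact Nat.card_congr ((P : Subgroup P0).equivMapOfInjective _
      (Subgroup.subtype_injective _)).toEquiv.symm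
  have hinj : Function.Injective (f.subgroupMap D) := by
    rw [injective_iff_map_eq_one]
    intro x hx
    have hx1 : f x = 1 := congrArg Subtype.val hx
    obtain ⟨k, hk1⟩ := pgroup_pow hD x.2
    exact Subtype.ext (chf_ker_eq_one hℓ f M hk hx1 (hDM x.2) hk1)
  have hDm : Nat.card (D.map f) = ℓ ^ n := by
    rw [← hDc]
    exact (Nat.card_congr (Equiv.ofBijective _ ⟨hinj, f.subgroupMap_surjective D⟩)).symm
  exact Subgroup.eq_of_le_of_card_ge hDR (by rw [hDm, hn])

theorem conjS_le_normal {M : Subgroup E} (hM : M.Normal) {D : Subgroup E} (h : D ≤ M) (x : E) :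
    conjS x D ≤ M := by
  intro y hy
  rw [mem_conjS] at hy
  have := hM.conj_mem _ (h hy) x
  have e : x * (x⁻¹ * y * x) * x⁻¹ = y := by group
  rwa [e] at this

include hℓ hM hc hk in
theorem chf_stab {d : Finset (Subgroup E)} (hd : ∀ D ∈ d, D ≤ M ∧ IsPGroup ℓ D)
    [DecidableEq (Subgroup G)] :
    stab d = (stab (d.image (Subgroup.map f))).comap f := by
  ext x
  rw [Subgroup.mem_comap, mem_stab, mem_stab]
  constructor
  · intro h D' hD'
    obtain ⟨D, hD, rfl⟩ := Finset.mem_image.1 hD'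
    rw [← map_conjS, h D hD]
  · intro h D hD
    obtain ⟨h1, h2⟩ := hd D hD
    have h3 := conjS_pgroup (g := x) h2
    have h4 := conjS_le_normal hM h1 x
    have h5 : (conjS x D).map f = D.map f := by
      rw [map_conjS]
      exact h _ (Finset.mem_image_of_mem _ hD)
    exact le_antisymm (chf_map_le hℓ f M hc hk h3 h2 h4 h1 h5.le)
      (chf_map_le hℓ f M hc hk h2 h3 h1 h4 h5.ge)

include hℓ hM hc hk in
/-- CHF -/
theorem chf (w : Subgroup E → ℤ) :
    ∑ d ∈ chainsOn (psubIn ℓ M) ⊥, (-1) ^ (d.card + 1) * w (stab d) =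
      ∑ d ∈ chainsOn (psubIn ℓ (M.map f)) ⊥, (-1) ^ (d.card + 1) * w ((stab d).comap f) := by
  classical
  have hps : ∀ d ∈ chainsOn (psubIn ℓ M) ⊥, ∀ D ∈ d, D ≤ M ∧ IsPGroup ℓ D := by
    intro d hd D hD
    exact mem_psubIn.1 ((mem_chainsOn.1 hd).1 hD)
  have hinj : ∀ D D' : Subgroup E, D ≤ M → IsPGroup ℓ D → D' ≤ M → IsPGroup ℓ D' →
      D.map f = D'.map f → D = D' := by
    intro D D' h1 h2 h3 h4 h5
    exact le_antisymm (chf_map_le hℓ f M hc hk h2 h4 h1 h3 h5.le)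
      (chf_map_le hℓ f M hc hk h4 h2 h3 h1 h5.ge)
  apply Finset.sum_bij (fun d _ => d.image (Subgroup.map f))
  · intro d hd
    rw [mem_chainsOn]
    refine ⟨?_, ?_, ?_⟩
    · intro D' hD'
      obtain ⟨D, hD, rfl⟩ := Finset.mem_image.1 hD'
      obtain ⟨h1, h2⟩ := hps d hd D hD
      exact mem_psubIn.2 ⟨Subgroup.map_mono h1, h2.map f⟩
    · rw [Finset.mem_image]
      exact ⟨⊥, (mem_chainsOn.1 hd).2.1, Subgroup.map_bot f⟩
    · intro D1 hD1 D2 hD2 _
      obtain ⟨A, hA, rfl⟩ := Finset.mem_image.1 hD1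
      obtain ⟨B, hB, rfl⟩ := Finset.mem_image.1 hD2
      rcases chain_total (mem_chainsOn.1 hd).2.2 hA hB with h | h
      · left; exact Subgroup.map_mono h
      · right; exact Subgroup.map_mono h
  · intro d1 hd1 d2 hd2 h
    have key : ∀ d1 ∈ chainsOn (psubIn ℓ M) ⊥, ∀ d2 ∈ chainsOn (psubIn ℓ M) ⊥,
        d1.image (Subgroup.map f) = d2.image (Subgroup.map f) → d1 ⊆ d2 := by
      intro d1 hd1 d2 hd2 h D hD
      have h1 : D.map f ∈ d2.image (Subgroup.map f) := by
        rw [← h]; exact Finset.mem_image_of_mem _ hD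
      obtain ⟨D', hD', hDD'⟩ := Finset.mem_image.1 h1
      have : D' = D := hinj _ _ (hps d2 hd2 D' hD').1 (hps d2 hd2 D' hD').2
        (hps d1 hd1 D hD).1 (hps d1 hd1 D hD).2 hDD'
      rwa [← this]
    exact Finset.Subset.antisymm (key d1 hd1 d2 hd2 h) (key d2 hd2 d1 hd1 h.symm)
  · intro d' hd'
    obtain ⟨h1, h2, h3⟩ := mem_chainsOn.1 hd'
    refine ⟨(psubIn ℓ M).filter (fun D => D.map f ∈ d'), ?_, ?_⟩
    · rw [mem_chainsOn]
      refine ⟨Finset.filter_subset _ _, ?_, ?_⟩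
      · rw [Finset.mem_filter]
        refine ⟨mem_psubIn.2 ⟨bot_le, IsPGroup.of_bot⟩, ?_⟩
        rw [Subgroup.map_bot]; exact h2
      · intro D1 hD1 D2 hD2 _
        rw [Finset.mem_coe, Finset.mem_filter] at hD1 hD2
        have hp1 := mem_psubIn.1 hD1.1
        have hp2 := mem_psubIn.1 hD2.1
        rcases chain_total h3 hD1.2 hD2.2 with h | h
        · left; exact chf_map_le hℓ f M hc hk hp1.2 hp2.2 hp1.1 hp2.1 h
        · right; exact chf_map_le hℓ f M hc hk hp2.2 hp1.2 hp2.1 hp1.1 h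
    · ext R
      rw [Finset.mem_image]
      constructor
      · rintro ⟨D, hD, rfl⟩
        exact (Finset.mem_filter.1 hD).2
      · intro hR
        obtain ⟨hRM, hRp⟩ := mem_psubIn.1 (h1 hR)
        obtain ⟨D, hDM, hD, rfl⟩ := chf_lift hℓ f M hk hRp hRM
        refine ⟨D, ?_, rfl⟩
        rw [Finset.mem_filter]
        exact ⟨mem_psubIn.2 ⟨hDM, hD⟩, hR⟩
  · intro d hd
    have hcard : (d.image (Subgroup.map f)).card = d.card := by
      apply Finset.card_image_of_injOn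
      intro A hA B hB hAB
      exact hinj _ _ (hps d hd A hA).1 (hps d hd A hA).2 (hps d hd B hB).1 (hps d hd B hB).2 hAB
    rw [hcard, chf_stab hℓ f M hM hc hk (hps d hd)]

end chf

end Pool.Agent.PP.H74
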