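import Pool.Agent.Helper74_PP.Chf
import Pool.Agent.Helper67_PP.Stmts

/-!
CHF in the form of the statement file of helper67.
-/

noncomputable section

namespace Pool.Agent.PP.H74

open Pool.Agent.PP

theorem chfStmt : H67.ChfStmt := by
  intro ℓ hℓ E G _ _ _ _ f M hM hc hk w
  exact chf hℓ.out f M hM hc hk w

end Pool.Agent.PP.H74
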