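import Pool.Agent.Helper18_PP.StmtsDZ
import Pool.Agent.Helper20_PP.Sim

/-!
TENS: unital algebra maps `M_n → M_N` are conjugate to `A ↦ A ⊗ 1`; commuting families of matrices
whose products span the matrix algebra split as a tensor product.
-/

open scoped BigOperators

set_option linter.unusedSectionVars false
set_option synthInstance.maxHeartbeats 400000
set_option maxHeartbeats 4000000

noncomputable section

namespace Pool.Agent.PP.H74

open Pool.Agent.PP

variable {F : Type} [Field F]

theorem kr_apply {n m : ℕ} (A : Matrix (Fin n) (Fin n) F) (B : Matrix (Fin m) (Fin m) F)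
    (i j : Fin n) (k l : Fin m) :
    kr A B (finProdFinEquiv (i, k)) (finProdFinEquiv (j, l)) = A i j * B k l := by
  simp [kr, Matrix.reindex_apply, Matrix.submatrix_apply, Matrix.kroneckerMap_apply]

theorem kr_ext {n m : ℕ} {M M' : Matrix (Fin (n * m)) (Fin (n * m)) F}
    (h : ∀ i j k l, M (finProdFinEquiv (i, k)) (finProdFinEquiv (j, l)) =
      M' (finProdFinEquiv (i, k)) (finProdFinEquiv (j, l))) : M = M' := by
  ext p q
  obtain ⟨⟨i, k⟩, rfl⟩ := finProdFinEquiv.surjective p
  obtain ⟨⟨j, l⟩, rfl⟩ := finProdFinEquiv.surjective q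
  exact h i j k l

theorem sum_prod_fin {n m : ℕ} {V : Type*} [AddCommMonoid V] (f : Fin (n * m) → V) :
    ∑ p, f p = ∑ i, ∑ k, f (finProdFinEquiv (i, k)) := by
  rw [← Equiv.sum_comp finProdFinEquiv f, Fintype.sum_prod_type]

theorem kr_mul {n m : ℕ} (A A' : Matrix (Fin n) (Fin n) F) (B B' : Matrix (Fin m) (Fin m) F) :
    kr A B * kr A' B' = kr (A * A') (B * B') := by
  apply kr_ext
  intro i j k l
  rw [Matrix.mul_apply, sum_prod_fin, kr_apply, Matrix.mul_apply, Matrix.mul_apply,
    Finset.sum_mul_sum]
  apply Finset.sum_congr rfl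
  intro a _
  apply Finset.sum_congr rfl
  intro b _
  rw [kr_apply, kr_apply]
  ring

theorem kr_one {n m : ℕ} : kr (1 : Matrix (Fin n) (Fin n) F) (1 : Matrix (Fin m) (Fin m) F) = 1 := by
  apply kr_ext
  intro i j k l
  rw [kr_apply, Matrix.one_apply, Matrix.one_apply, Matrix.one_apply]
  by_cases h1 : i = j <;> by_cases h2 : k = l <;> simp [h1, h2]

theorem kr_trace {n m : ℕ} (A : Matrix (Fin n) (Fin n) F) (B : Matrix (Fin m) (Fin m) F) :
    (kr A B).trace = A.trace * B.trace := by
  simp only [Matrix.trace, Matrix.diag_apply]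
  rw [sum_prod_fin, Finset.sum_mul_sum]
  apply Finset.sum_congr rfl
  intro i _
  apply Finset.sum_congr rfl
  intro k _
  rw [kr_apply]

theorem kr_add_left {n m : ℕ} (A A' : Matrix (Fin n) (Fin n) F) (B : Matrix (Fin m) (Fin m) F) :
    kr (A + A') B = kr A B + kr A' B := by
  apply kr_ext
  intro i j k l
  rw [Matrix.add_apply, kr_apply, kr_apply, kr_apply, Matrix.add_apply, add_mul]

theorem kr_add_right {n m : ℕ} (A : Matrix (Fin n) (Fin n) F) (B B' : Matrix (Fin m) (Fin m) F) :
    kr A (B + B') = kr A B + kr A B' := by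
  apply kr_ext
  intro i j k l
  rw [Matrix.add_apply, kr_apply, kr_apply, kr_apply, Matrix.add_apply, mul_add]

theorem kr_smul_left {n m : ℕ} (c : F) (A : Matrix (Fin n) (Fin n) F)
    (B : Matrix (Fin m) (Fin m) F) : kr (c • A) B = c • kr A B := by
  apply kr_ext
  intro i j k l
  rw [Matrix.smul_apply, kr_apply, kr_apply, Matrix.smul_apply, smul_eq_mul, smul_eq_mul, mul_assoc]

theorem kr_smul_right {n m : ℕ} (c : F) (A : Matrix (Fin n) (Fin n) F)
    (B : Matrix (Fin m) (Fin m) F) : kr A (c • B) = c • kr A B := by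
  apply kr_ext
  intro i j k l
  rw [Matrix.smul_apply, kr_apply, kr_apply, Matrix.smul_apply, smul_eq_mul, smul_eq_mul]
  ring

theorem kr_one_inj_right {n m : ℕ} (hn : 0 < n) {B B' : Matrix (Fin m) (Fin m) F}
    (h : kr (1 : Matrix (Fin n) (Fin n) F) B = kr 1 B') : B = B' := by
  ext k l
  have h1 := congrFun (congrFun h (finProdFinEquiv (⟨0, hn⟩, k))) (finProdFinEquiv (⟨0, hn⟩, l))
  rw [kr_apply, kr_apply] at h1
  simpa using h1

theorem kr_one_inj_left {n m : ℕ} (hm : 0 < m) {A A' : Matrix (Fin n) (Fin n) F}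
    (h : kr A (1 : Matrix (Fin m) (Fin m) F) = kr A' 1) : A = A' := by
  ext k l
  have h1 := congrFun (congrFun h (finProdFinEquiv (k, ⟨0, hm⟩))) (finProdFinEquiv (l, ⟨0, hm⟩))
  rw [kr_apply, kr_apply] at h1
  simpa using h1

/-- the commutant of `M_n ⊗ 1` is `1 ⊗ M_m` -/
theorem kr_commutant {n m : ℕ} (hn : 0 < n) (M : Matrix (Fin (n * m)) (Fin (n * m)) F)
    (h : ∀ A : Matrix (Fin n) (Fin n) F, kr A (1 : Matrix (Fin m) (Fin m) F) * M = M * kr A 1) :
    ∃ B : Matrix (Fin m) (Fin m) F, M = kr 1 B := by
  have : NeZero n := ⟨hn.ne'⟩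
  have key : ∀ (a b j : Fin n) (k l : Fin m),
      M (finProdFinEquiv (b, k)) (finProdFinEquiv (j, l)) =
        if j = b then M (finProdFinEquiv (a, k)) (finProdFinEquiv (a, l)) else 0 := by
    intro a b j k l
    have h1 := congrFun (congrFun (h (Matrix.single a b 1)) (finProdFinEquiv (a, k)))
      (finProdFinEquiv (j, l))
    rw [Matrix.mul_apply, Matrix.mul_apply, sum_prod_fin, sum_prod_fin] at h1
    simp only [kr_apply] at h1
    rw [Finset.sum_eq_single b, Finset.sum_eq_single k] at h1
    · rw [Finset.sum_eq_single a, Finset.sum_eq_single l] at h1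
      · simp only [Matrix.single_apply, Matrix.one_apply_eq, mul_one] at h1
        simp only [true_and, and_self, if_true, one_mul] at h1
        rw [h1]
        by_cases hb : j = b
        · simp [hb]
        · rw [if_neg hb, if_neg (fun hh => hb hh.symm), mul_zero]
      · intro x _ hx
        rw [Matrix.one_apply_ne hx, mul_zero, mul_zero]
      · intro hx; exact absurd (Finset.mem_univ _) hx
      · intro x _ hx
        apply Finset.sum_eq_zero
        intro y _
        rw [Matrix.single_apply_of_row_ne (Ne.symm hx), zero_mul, mul_zero]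
      · intro hx; exact absurd (Finset.mem_univ _) hx
    · intro x _ hx
      rw [Matrix.one_apply_ne (Ne.symm hx), mul_zero, zero_mul]
    · intro hx; exact absurd (Finset.mem_univ _) hx
    · intro x _ hx
      apply Finset.sum_eq_zero
      intro y _
      rw [Matrix.single_apply_of_col_ne _ _ (Ne.symm hx), zero_mul, zero_mul]
    · intro hx; exact absurd (Finset.mem_univ _) hx
  refine ⟨Matrix.of fun k l => M (finProdFinEquiv (0, k)) (finProdFinEquiv (0, l)), ?_⟩
  apply kr_ext
  intro i j k l
  rw [key 0 i j k l, kr_apply, Matrix.one_apply, Matrix.of_apply]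
  by_cases hij : i = j
  · simp [hij]
  · rw [if_neg (Ne.symm hij), if_neg hij, zero_mul]

/-- Every unital algebra map `M_n → M_N` is conjugate to `A ↦ A ⊗ 1_m`. -/
theorem mat_conj {n N : ℕ} (hn : 0 < n)
    (Φ : Matrix (Fin n) (Fin n) F →ₐ[F] Matrix (Fin N) (Fin N) F) :
    ∃ (m : ℕ) (T : Matrix (Fin N) (Fin (n * m)) F) (T' : Matrix (Fin (n * m)) (Fin N) F),
      N = n * m ∧ T * T' = 1 ∧ T' * T = 1 ∧
        ∀ A, Φ A * T = T * kr A (1 : Matrix (Fin m) (Fin m) F) := by
  have : NeZero n := ⟨hn.ne'⟩
  let E : Fin n → Fin n → ((Fin N → F) →ₗ[F] (Fin N → F)) :=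
    fun i j => Matrix.toLin' (Φ (Matrix.single i j 1))
  have hE : ∀ i j k l, ∀ v, E i j (E k l v) = if j = k then E i l v else 0 := by
    intro i j k l v
    simp only [E]
    rw [← LinearMap.comp_apply, ← Matrix.toLin'_mul, ← map_mul]
    by_cases h : j = k
    · subst h
      rw [Matrix.single_mul_single_same, mul_one, if_pos rfl]
    · rw [Matrix.single_mul_single_of_ne _ _ _ _ h, map_zero, map_zero, if_neg h]
      rfl
  have hA : ∀ (A : Matrix (Fin n) (Fin n) F) (j l : Fin n) (v : Fin N → F),
      Matrix.toLin' (Φ A) (E j l v) = ∑ i, A i j • E i l v := by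
    intro A j l v
    simp only [E]
    rw [← LinearMap.comp_apply, ← Matrix.toLin'_mul, ← map_mul]
    have h1 : A * Matrix.single j l 1 = ∑ i, A i j • Matrix.single i l (1 : F) := by
      ext a b
      rw [Matrix.sum_apply, Finset.sum_eq_single a]
      · rw [Matrix.smul_apply]
        by_cases hb : l = b
        · subst hb
          rw [Matrix.mul_single_apply_same]
          simp
        · rw [Matrix.mul_single_apply_of_ne _ _ _ _ _ (Ne.symm hb),
            Matrix.single_apply_of_col_ne _ _ hb, smul_zero]
      · intro x _ hx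
        rw [Matrix.smul_apply, Matrix.single_apply_of_row_ne hx, smul_zero]
      · intro hx; exact absurd (Finset.mem_univ _) hx
    rw [h1, map_sum, map_sum, LinearMap.sum_apply]
    apply Finset.sum_congr rfl
    intro i _
    rw [map_smul, map_smul, LinearMap.smul_apply]
  have hsum : ∀ v, ∑ i, E i i v = v := by
    intro v
    simp only [E]
    rw [← LinearMap.sum_apply, ← map_sum, ← map_sum]
    have : ∑ i : Fin n, Matrix.single i i (1 : F) = 1 := by
      ext a b
      rw [Matrix.sum_apply, Matrix.one_apply]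
      simp only [Matrix.single_apply]
      by_cases h : a = b
      · subst h
        simp
      · rw [if_neg h]
        apply Finset.sum_eq_zero
        intro i _
        rw [if_neg]
        rintro ⟨rfl, rfl⟩
        exact h rfl
    rw [this, map_one, Matrix.toLin'_one, LinearMap.id_apply]
  -- the space `U`
  let U : Submodule F (Fin N → F) := LinearMap.range (E 0 0)
  have hU : ∀ v, E 0 0 v ∈ U := fun v => ⟨v, rfl⟩
  have hUf : ∀ u ∈ U, E 0 0 u = u := by
    rintro _ ⟨v, rfl⟩
    rw [hE, if_pos rfl]
  have hUi : ∀ i v, E 0 i v ∈ U := by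
    intro i v
    have : E 0 i v = E 0 0 (E 0 i v) := by rw [hE, if_pos rfl]
    rw [this]; exact hU _
  let m := Module.finrank F U
  let b : Module.Basis (Fin m) F U := Module.finBasis F U
  let S : (Fin n × Fin m → F) →ₗ[F] (Fin N → F) :=
    Fintype.linearCombination F (fun p : Fin n × Fin m => E p.1 0 (b p.2 : Fin N → F))
  let S' : (Fin N → F) →ₗ[F] (Fin n × Fin m → F) :=
    LinearMap.pi (fun p : Fin n × Fin m => (b.coord p.2) ∘ₗ ((E 0 p.1).codRestrict U (hUi p.1)))
  have hS : ∀ x, S x = ∑ i, E i 0 ((∑ k, x (i, k) • b k : U) : Fin N → F) := by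
    intro x
    simp only [S, Fintype.linearCombination_apply]
    rw [Fintype.sum_prod_type]
    apply Finset.sum_congr rfl
    intro i _
    rw [AddSubmonoidClass.coe_finsetSum, map_sum]
    apply Finset.sum_congr rfl
    intro k _
    rw [Submodule.coe_smul, map_smul]
  have hSS' : ∀ v, S (S' v) = v := by
    intro v
    rw [hS]
    conv_rhs => rw [← hsum v]
    apply Finset.sum_congr rfl
    intro i _
    have h1 : (∑ k, S' v (i, k) • b k : U) = (E 0 i).codRestrict U (hUi i) v := by
      have := b.sum_repr ((E 0 i).codRestrict U (hUi i) v)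
      exact this
    rw [h1]
    change E i 0 (E 0 i v) = E i i v
    rw [hE, if_pos rfl]
  have hS'S : ∀ x, S' (S x) = x := by
    intro x
    funext ⟨i, k⟩
    change b.repr ((E 0 i).codRestrict U (hUi i) (S x)) k = x (i, k)
    have h1 : (E 0 i).codRestrict U (hUi i) (S x) = ∑ k, x (i, k) • b k := by
      apply Subtype.ext
      change E 0 i (S x) = _
      rw [hS, map_sum, Finset.sum_eq_single i]
      · rw [hE, if_pos rfl]
        exact hUf _ (Subtype.mem _)
      · intro j _ hj
        rw [hE, if_neg (Ne.symm hj)]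
      · intro hx; exact absurd (Finset.mem_univ _) hx
    rw [h1, map_sum, Finsupp.finsetSum_apply, Finset.sum_eq_single k]
    · simp
    · intro l _ hl
      simp [hl]
    · intro hx; exact absurd (Finset.mem_univ _) hx
  let L0 : (Fin n × Fin m → F) ≃ₗ[F] (Fin N → F) :=
    LinearEquiv.ofLinearMap S S' (LinearMap.ext hSS') (LinearMap.ext hS'S)
  let L : (Fin (n * m) → F) ≃ₗ[F] (Fin N → F) :=
    (LinearEquiv.funCongrLeft F F finProdFinEquiv).trans L0
  refine ⟨m, LinearMap.toMatrix' L.toLinearMap, LinearMap.toMatrix' L.symm.toLinearMap, ?_, ?_, ?_,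
    ?_⟩
  · have := L.finrank_eq
    simpa using this.symm
  · rw [← LinearMap.toMatrix'_comp, LinearEquiv.comp_coe, LinearEquiv.symm_trans_self]
    exact LinearMap.toMatrix'_id
  · rw [← LinearMap.toMatrix'_comp, LinearEquiv.comp_coe, LinearEquiv.self_trans_symm]
    exact LinearMap.toMatrix'_id
  · intro A
    have hkey : Matrix.toLin' (Φ A) ∘ₗ L.toLinearMap = L.toLinearMap ∘ₗ
        Matrix.toLin' (kr A (1 : Matrix (Fin m) (Fin m) F)) := by
      apply LinearMap.ext
      intro x
      have h1 : ∀ x, L x = ∑ j, ∑ l, x (finProdFinEquiv (j, l)) • E j 0 (b l : Fin N → F) := by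
        intro x
        change S (fun p => x (finProdFinEquiv p)) = _
        simp only [S, Fintype.linearCombination_apply]
        rw [Fintype.sum_prod_type]
      simp only [LinearMap.comp_apply, LinearEquiv.coe_coe]
      rw [h1, h1, map_sum]
      simp_rw [map_sum, map_smul, hA, Finset.smul_sum, smul_smul]
      rw [Finset.sum_comm]
      conv_lhs =>
        enter [2, l]
        rw [Finset.sum_comm]
      rw [Finset.sum_comm]
      apply Finset.sum_congr rfl
      intro i _
      apply Finset.sum_congr rfl
      intro l _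
      rw [← Finset.sum_smul]
      congr 1
      rw [Matrix.toLin'_apply, Matrix.mulVec, dotProduct, sum_prod_fin]
      apply Finset.sum_congr rfl
      intro j _
      rw [Finset.sum_eq_single l]
      · rw [kr_apply, Matrix.one_apply_eq, mul_one, mul_comm]
      · intro k _ hk
        rw [kr_apply, Matrix.one_apply_ne (Ne.symm hk), mul_zero, zero_mul]
      · intro hx; exact absurd (Finset.mem_univ _) hx
    have h2 := congrArg LinearMap.toMatrix' hkey
    rw [LinearMap.toMatrix'_comp, LinearMap.toMatrix'_comp, LinearMap.toMatrix'_toLin',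
      LinearMap.toMatrix'_toLin'] at h2
    exact h2

/-- products of many elements of the radical vanish -/
theorem exists_nil (B : Type) [Ring B] [IsArtinianRing B] : ∃ p : ℕ, ∀ f : Fin p → B,
    (∀ i, f i ∈ Ring.jacobson B) → (List.ofFn f).prod = 0 := by
  obtain ⟨p, hp⟩ := (IsSemiprimaryRing.isNilpotent : IsNilpotent (Ring.jacobson B))
  refine ⟨p, fun f hf => ?_⟩
  have key : ∀ (q : ℕ) (f : Fin q → B), (∀ i, f i ∈ Ring.jacobson B) →
      (List.ofFn f).prod ∈ (Ring.jacobson B) ^ q := by
    intro q
    induction q with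
    | zero =>
      intro f _
      rw [Submodule.pow_zero, Ideal.one_eq_top]
      trivial
    | succ q ih =>
      intro f hf
      rw [List.ofFn_succ, List.prod_cons, Ideal.IsTwoSided.pow_succ]
      exact Ideal.mul_mem_mul (hf 0) (ih _ fun i => hf i.succ)
  have := key p f hf
  rw [hp] at this
  simpa using this

/-- TENS: commuting multiplicatively closed families of matrices whose products span the matrix
algebra split it as a tensor product. -/
theorem tens [IsAlgClosed F] {N : ℕ} (hN : 0 < N) (S₁ S₂ : Set (Matrix (Fin N) (Fin N) F))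
    (h1 : (1 : Matrix (Fin N) (Fin N) F) ∈ S₁) (h2 : ∀ a ∈ S₁, ∀ b ∈ S₁, a * b ∈ S₁)
    (hcomm : ∀ a ∈ S₁, ∀ b ∈ S₂, a * b = b * a)
    (hspan : ∀ X : Matrix (Fin N) (Fin N) F, X ∈ Submodule.span F {z | ∃ a ∈ S₁, ∃ b ∈ S₂, z = a * b}) :
    ∃ (n m : ℕ) (T : Matrix (Fin N) (Fin (n * m)) F) (T' : Matrix (Fin (n * m)) (Fin N) F)
      (A : Matrix (Fin N) (Fin N) F → Matrix (Fin n) (Fin n) F)
      (B : Matrix (Fin N) (Fin N) F → Matrix (Fin m) (Fin m) F),
      0 < n ∧ 0 < m ∧ N = n * m ∧ T * T' = 1 ∧ T' * T = 1 ∧
      (∀ a ∈ S₁, a = T * kr (A a) (1 : Matrix (Fin m) (Fin m) F) * T') ∧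
      (∀ b ∈ S₂, b = T * kr (1 : Matrix (Fin n) (Fin n) F) (B b) * T') ∧
      Submodule.span F (A '' S₁) = ⊤ ∧ Submodule.span F (B '' S₂) = ⊤ := by
  have : NeZero N := ⟨hN.ne'⟩
  have hnt : Nontrivial (Matrix (Fin N) (Fin N) F) := inferInstance
  -- the algebras
  have hmul : ∀ (S : Set (Matrix (Fin N) (Fin N) F)), (∀ a ∈ S, ∀ b ∈ S, a * b ∈ S) →
      ∀ a ∈ Submodule.span F S, ∀ b ∈ Submodule.span F S, a * b ∈ Submodule.span F S := by
    intro S hS a ha b hb
    induction ha using Submodule.span_induction with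
    | mem x hx =>
      induction hb using Submodule.span_induction with
      | mem y hy => exact Submodule.subset_span (hS x hx y hy)
      | zero => rw [mul_zero]; exact Submodule.zero_mem _
      | add y z _ _ hy hz => rw [mul_add]; exact Submodule.add_mem _ hy hz
      | smul c y _ hy => rw [mul_smul_comm]; exact Submodule.smul_mem _ _ hy
    | zero => rw [zero_mul]; exact Submodule.zero_mem _
    | add x y _ _ hx hy => rw [add_mul]; exact Submodule.add_mem _ hx hy
    | smul c x _ hx => rw [smul_mul_assoc]; exact Submodule.smul_mem _ _ hx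
  let B₁ : Subalgebra F (Matrix (Fin N) (Fin N) F) :=
    { carrier := (Submodule.span F S₁ : Set (Matrix (Fin N) (Fin N) F))
      mul_mem' := fun {a b} ha hb => hmul S₁ h2 a ha b hb
      add_mem' := fun {a b} ha hb => Submodule.add_mem _ ha hb
      algebraMap_mem' := by
        intro r
        rw [Algebra.algebraMap_eq_smul_one]
        exact Submodule.smul_mem _ _ (Submodule.subset_span h1) }
  have hB₁ : ∀ x, x ∈ B₁ ↔ x ∈ Submodule.span F S₁ := fun x => Iff.rfl
  have hc1 : ∀ a ∈ B₁, ∀ b ∈ S₂, a * b = b * a := by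
    intro a ha b hb
    rw [hB₁] at ha
    induction ha using Submodule.span_induction with
    | mem x hx => exact hcomm x hx b hb
    | zero => simp
    | add x y _ _ hx hy => rw [add_mul, mul_add, hx, hy]
    | smul c x _ hx => rw [smul_mul_assoc, hx, mul_smul_comm]
  -- central elements of `B₁` are scalars
  have hcen : ∀ z ∈ B₁, (∀ a ∈ B₁, z * a = a * z) → ∃ c : F, z = c • 1 := by
    intro z hz hza
    apply H20.comm_scalar
    intro X
    have hX := hspan X
    induction hX using Submodule.span_induction with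
    | mem x hx =>
      obtain ⟨a, ha, b, hb, rfl⟩ := hx
      have ha' : a ∈ B₁ := Submodule.subset_span ha
      rw [mul_assoc, ← hc1 z hz b hb, ← mul_assoc, ← hza a ha', mul_assoc]
    | zero => simp
    | add x y _ _ hx hy => rw [add_mul, mul_add, hx, hy]
    | smul c x _ hx => rw [smul_mul_assoc, hx, mul_smul_comm]
  -- structure of `B₁`
  obtain ⟨k, d, π, hd, hπ, hπ0, -⟩ := H20.sim_struct (F := F) B₁
  have hfd : FiniteDimensional F B₁ := inferInstance
  have : IsArtinianRing B₁ := IsArtinianRing.of_finite F B₁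
  obtain ⟨p, hp⟩ := exists_nil B₁
  -- the radical vanishes
  have hrad : ∀ x : B₁, x ∈ Ring.jacobson B₁ → x = 0 := by
    intro x hx
    by_contra hne
    have hne' : (x : Matrix (Fin N) (Fin N) F) ≠ 0 := fun h => hne (Subtype.ext h)
    -- two sided ideals in the whole algebra
    let W : ℕ → Submodule F (Matrix (Fin N) (Fin N) F) := fun q =>
      Nat.rec ⊤ (fun _ V => Submodule.span F
        {z | ∃ a : B₁, a ∈ Ring.jacobson B₁ ∧ ∃ y ∈ V, z = (a : Matrix (Fin N) (Fin N) F) * y}) q
    have hW0 : W 0 = ⊤ := rfl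
    have hWs : ∀ q, W (q + 1) = Submodule.span F {z | ∃ a : B₁, a ∈ Ring.jacobson B₁ ∧
        ∃ y ∈ W q, z = (a : Matrix (Fin N) (Fin N) F) * y} := fun _ => rfl
    clear_value W
    have hWr : ∀ q, ∀ z ∈ W q, ∀ X, z * X ∈ W q := by
      intro q
      induction q with
      | zero => intro z _ X; rw [hW0]; trivial
      | succ q ih =>
        intro z hz X
        rw [hWs] at hz ⊢
        induction hz using Submodule.span_induction with
        | mem x hx =>
          obtain ⟨a, ha, Y, hY, rfl⟩ := hx
          exact Submodule.subset_span ⟨a, ha, Y * X, ih Y hY X, by rw [mul_assoc]⟩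
        | zero => rw [zero_mul]; exact Submodule.zero_mem _
        | add x y _ _ hx hy => rw [add_mul]; exact Submodule.add_mem _ hx hy
        | smul c x _ hx => rw [smul_mul_assoc]; exact Submodule.smul_mem _ _ hx
    have hWl : ∀ q, ∀ z ∈ W q, ∀ X, X * z ∈ W q := by
      intro q
      induction q with
      | zero => intro z _ X; rw [hW0]; trivial
      | succ q ih =>
        intro z hz X
        have hX := hspan X
        rw [hWs] at hz ⊢
        induction hX using Submodule.span_induction with
        | mem x hx =>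
          obtain ⟨a, ha, b, hb, rfl⟩ := hx
          have ha' : a ∈ B₁ := Submodule.subset_span ha
          induction hz using Submodule.span_induction with
          | mem x hx =>
            obtain ⟨c, hc, Y, hY, rfl⟩ := hx
            refine Submodule.subset_span ⟨⟨a, ha'⟩ * c, Ideal.mul_mem_left _ _ hc, b * Y,
              ih Y hY b, ?_⟩
            have e1 := hc1 c c.2 b hb
            calc a * b * ((c : Matrix (Fin N) (Fin N) F) * Y)
                = a * (b * (c : Matrix (Fin N) (Fin N) F)) * Y := by simp only [mul_assoc]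
              _ = a * ((c : Matrix (Fin N) (Fin N) F) * b) * Y := by rw [e1]
              _ = a * (c : Matrix (Fin N) (Fin N) F) * (b * Y) := by simp only [mul_assoc]
          | zero => rw [mul_zero]; exact Submodule.zero_mem _
          | add x y _ _ hx hy => rw [mul_add]; exact Submodule.add_mem _ hx hy
          | smul c x _ hx => rw [mul_smul_comm]; exact Submodule.smul_mem _ _ hx
        | zero => rw [zero_mul]; exact Submodule.zero_mem _
        | add x y _ _ hx hy => rw [add_mul]; exact Submodule.add_mem _ hx hy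
        | smul c x _ hx => rw [smul_mul_assoc]; exact Submodule.smul_mem _ _ hx
    have hW1 : (1 : Matrix (Fin N) (Fin N) F) ∈ W 1 := by
      obtain ⟨i, j, -, hs⟩ := H20.mat_gen _ hne'
      rw [← hs]
      apply Submodule.sum_mem
      intro q _
      apply hWr
      apply hWl
      rw [hWs]
      exact Submodule.subset_span ⟨x, hx, 1, by rw [hW0]; trivial, by rw [mul_one]⟩
    have hWq : ∀ q, (1 : Matrix (Fin N) (Fin N) F) ∈ W q := by
      intro q
      induction q with
      | zero => rw [hW0]; trivial
      | succ q ih =>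
        have key : ∀ z ∈ W 1, z ∈ W (q + 1) := by
          intro z hz
          rw [hWs] at hz ⊢
          induction hz using Submodule.span_induction with
          | mem x hx =>
            obtain ⟨a, ha, X, -, rfl⟩ := hx
            have := hWl q 1 ih X
            rw [mul_one] at this
            exact Submodule.subset_span ⟨a, ha, X, this, rfl⟩
          | zero => exact Submodule.zero_mem _
          | add x y _ _ hx hy => exact Submodule.add_mem _ hx hy
          | smul c x _ hx => exact Submodule.smul_mem _ _ hx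
        exact key 1 hW1
    have hWp : ∀ q, ∀ z ∈ W q, z ∈ Submodule.span F {z : Matrix (Fin N) (Fin N) F |
        ∃ f : Fin q → B₁, (∀ i, f i ∈ Ring.jacobson B₁) ∧
          ∃ X : Matrix (Fin N) (Fin N) F, z = ((List.ofFn f).prod : B₁) * X} := by
      intro q
      induction q with
      | zero =>
        intro z _
        exact Submodule.subset_span ⟨fun i => i.elim0, fun i => i.elim0, z, by simp⟩
      | succ q ih =>
        intro z hz
        rw [hWs] at hz
        induction hz using Submodule.span_induction with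
        | mem x hx =>
          obtain ⟨a, ha, y, hy, rfl⟩ := hx
          have hy' := ih y hy
          clear hy
          induction hy' using Submodule.span_induction with
          | mem x hx =>
            obtain ⟨f, hf, X, rfl⟩ := hx
            refine Submodule.subset_span ⟨Fin.cons a f, ?_, X, ?_⟩
            · intro i
              refine Fin.cases ?_ (fun i => ?_) i
              · rw [Fin.cons_zero]; exact ha
              · rw [Fin.cons_succ]; exact hf i
            · rw [List.ofFn_succ, List.prod_cons]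
              simp only [Fin.cons_zero, Fin.cons_succ, Subalgebra.coe_mul, mul_assoc]
          | zero => rw [mul_zero]; exact Submodule.zero_mem _
          | add x y _ _ hx hy => rw [mul_add]; exact Submodule.add_mem _ hx hy
          | smul c x _ hx => rw [mul_smul_comm]; exact Submodule.smul_mem _ _ hx
        | zero => exact Submodule.zero_mem _
        | add x y _ _ hx hy => exact Submodule.add_mem _ hx hy
        | smul c x _ hx => exact Submodule.smul_mem _ _ hx
    have h0 := hWp p 1 (hWq p)
    have hz : Submodule.span F {z : Matrix (Fin N) (Fin N) F |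
        ∃ f : Fin p → B₁, (∀ i, f i ∈ Ring.jacobson B₁) ∧
          ∃ X : Matrix (Fin N) (Fin N) F, z = ((List.ofFn f).prod : B₁) * X} = ⊥ := by
      rw [eq_bot_iff]
      refine Submodule.span_le.2 ?_
      rintro z ⟨f, hf, X, rfl⟩
      rw [hp f hf]
      simp
    rw [hz, Submodule.mem_bot] at h0
    exact one_ne_zero h0
  have hinj : ∀ x : B₁, π x = 0 → x = 0 := fun x hx => hrad x ((hπ0 x).1 hx)
  have hinj' : Function.Injective π := (injective_iff_map_eq_zero π).2 hinj
  -- only one factor
  have hk : ∃ i0 : Fin k, ∀ i, i = i0 := by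
    rcases Nat.eq_zero_or_pos k with rfl | hkpos
    · exfalso
      have : (1 : B₁) = 0 := hinj 1 (by funext i; exact i.elim0)
      have := congrArg Subtype.val this
      exact one_ne_zero this
    · refine ⟨⟨0, hkpos⟩, fun i => ?_⟩
      by_contra hi
      obtain ⟨ε, hε⟩ := hπ (Pi.single i 1)
      obtain ⟨c, hc⟩ := hcen ε.1 ε.2 (by
        intro a ha
        have : ε * ⟨a, ha⟩ = ⟨a, ha⟩ * ε := by
          apply hinj'
          rw [map_mul, map_mul, hε]
          funext j
          by_cases hj : j = i
          · subst hj; simp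
          · simp [hj]
        exact congrArg Subtype.val this)
      have hc' : ε = c • (1 : B₁) := Subtype.ext hc
      have h3 : π ε = c • (1 : ∀ i, Matrix (Fin (d i)) (Fin (d i)) F) := by
        rw [hc', map_smul, map_one]
      have h4 := congrFun h3 ⟨0, hkpos⟩
      have h5 := congrFun h3 i
      rw [hε] at h4 h5
      have hne0 : NeZero (d ⟨0, hkpos⟩) := ⟨(hd _).ne'⟩
      have hne1 : NeZero (d i) := ⟨(hd _).ne'⟩
      rw [Pi.single_eq_of_ne (Ne.symm hi)] at h4
      rw [Pi.single_eq_same] at h5
      have h6 : c = 0 := by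
        have := congrFun (congrFun h4 0) 0
        simpa using this.symm
      have h7 : (1 : Matrix (Fin (d i)) (Fin (d i)) F) = 0 := by
        rw [h5, h6]
        simp
      exact one_ne_zero h7
  obtain ⟨i0, hi0⟩ := hk
  -- `B₁` is a matrix algebra
  let n := d i0
  have hn : 0 < n := hd i0
  let π0 : B₁ →ₐ[F] Matrix (Fin n) (Fin n) F :=
    (Pi.evalAlgHom F (fun i => Matrix (Fin (d i)) (Fin (d i)) F) i0).comp π
  have hπ0i : Function.Injective π0 := by
    rw [injective_iff_map_eq_zero]
    intro x hx
    apply hinj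
    funext i
    rw [hi0 i]
    exact hx
  have hπ0s : Function.Surjective π0 := by
    intro A
    obtain ⟨x, hx⟩ := hπ (Pi.single i0 A)
    refine ⟨x, ?_⟩
    change π x i0 = A
    rw [hx, Pi.single_eq_same]
  let e0 : B₁ ≃ₐ[F] Matrix (Fin n) (Fin n) F := AlgEquiv.ofBijective π0 ⟨hπ0i, hπ0s⟩
  let Φ : Matrix (Fin n) (Fin n) F →ₐ[F] Matrix (Fin N) (Fin N) F :=
    B₁.val.comp e0.symm.toAlgHom
  obtain ⟨m, T, T', hNm, hTT, hTT', hT⟩ := mat_conj hn Φ
  have hm : 0 < m := by
    rcases Nat.eq_zero_or_pos m with h | h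
    · rw [h, mul_zero] at hNm; omega
    · exact h
  have hT2 : ∀ A, Φ A = T * kr A (1 : Matrix (Fin m) (Fin m) F) * T' := by
    intro A
    rw [← hT, Matrix.mul_assoc, hTT, Matrix.mul_one]
  -- the functions `A` and `B`
  have hAex : ∀ a : Matrix (Fin N) (Fin N) F, ∃ A : Matrix (Fin n) (Fin n) F,
      a ∈ B₁ → a = T * kr A (1 : Matrix (Fin m) (Fin m) F) * T' := by
    intro a
    by_cases ha : a ∈ B₁
    · refine ⟨e0 ⟨a, ha⟩, fun _ => ?_⟩
      rw [← hT2]
      change a = ((e0.symm (e0 ⟨a, ha⟩) : B₁) : Matrix (Fin N) (Fin N) F)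
      rw [AlgEquiv.symm_apply_apply]
    · exact ⟨0, fun h => absurd h ha⟩
  choose A hA using hAex
  have hΦB : ∀ X, Φ X ∈ B₁ := fun X => (e0.symm X).2
  have hBex : ∀ b : Matrix (Fin N) (Fin N) F, ∃ B : Matrix (Fin m) (Fin m) F,
      b ∈ S₂ → b = T * kr (1 : Matrix (Fin n) (Fin n) F) B * T' := by
    intro b
    by_cases hb : b ∈ S₂
    · obtain ⟨B, hB⟩ := kr_commutant hn (T' * b * T) (by
        intro X
        have h3 : T * kr X (1 : Matrix (Fin m) (Fin m) F) * T' * b =
            b * (T * kr X (1 : Matrix (Fin m) (Fin m) F) * T') := by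
          rw [← hT2]
          exact hc1 _ (hΦB X) b hb
        calc kr X (1 : Matrix (Fin m) (Fin m) F) * (T' * b * T)
            = (T' * T) * kr X (1 : Matrix (Fin m) (Fin m) F) * (T' * b * T) := by
              rw [hTT', Matrix.one_mul]
          _ = T' * (T * kr X (1 : Matrix (Fin m) (Fin m) F) * T' * b) * T := by
              simp only [Matrix.mul_assoc]
          _ = T' * (b * (T * kr X (1 : Matrix (Fin m) (Fin m) F) * T')) * T := by rw [h3]
          _ = T' * b * T * kr X (1 : Matrix (Fin m) (Fin m) F) * (T' * T) := by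
              simp only [Matrix.mul_assoc]
          _ = _ := by rw [hTT', Matrix.mul_one])
      refine ⟨B, fun _ => ?_⟩
      rw [← hB]
      simp only [Matrix.mul_assoc]
      rw [hTT, Matrix.mul_one, ← Matrix.mul_assoc, hTT, Matrix.one_mul]
    · exact ⟨0, fun h => absurd h hb⟩
  choose B hB using hBex
  refine ⟨n, m, T, T', A, B, hn, hm, hNm, hTT, hTT', fun a ha => hA a (Submodule.subset_span ha),
    hB, ?_, ?_⟩
  · rw [eq_top_iff]
    intro X _
    have key : ∀ z ∈ Submodule.span F S₁, ∃ Y ∈ Submodule.span F (A '' S₁),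
        T' * z * T = kr Y (1 : Matrix (Fin m) (Fin m) F) := by
      intro z hz
      induction hz using Submodule.span_induction with
      | mem x hx =>
        refine ⟨A x, Submodule.subset_span ⟨x, hx, rfl⟩, ?_⟩
        conv_lhs => rw [hA x (Submodule.subset_span hx)]
        simp only [Matrix.mul_assoc]
        rw [hTT', Matrix.mul_one, ← Matrix.mul_assoc, hTT', Matrix.one_mul]
      | zero =>
        refine ⟨0, Submodule.zero_mem _, ?_⟩
        rw [Matrix.mul_zero, Matrix.zero_mul]
        apply kr_ext
        intro i j k l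
        rw [kr_apply]
        simp
      | add x y _ _ hx hy =>
        obtain ⟨X1, h3, h4⟩ := hx
        obtain ⟨Y1, h5, h6⟩ := hy
        exact ⟨X1 + Y1, Submodule.add_mem _ h3 h5, by
          rw [Matrix.mul_add, Matrix.add_mul, h4, h6, kr_add_left]⟩
      | smul c x _ hx =>
        obtain ⟨X1, h3, h4⟩ := hx
        exact ⟨c • X1, Submodule.smul_mem _ _ h3, by
          rw [Matrix.mul_smul, Matrix.smul_mul, h4, kr_smul_left]⟩
    obtain ⟨Y, hY, hYX⟩ := key (Φ X) (hΦB X)
    have h3 : T' * Φ X * T = kr X (1 : Matrix (Fin m) (Fin m) F) := by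
      rw [hT2]
      simp only [Matrix.mul_assoc]
      rw [hTT', Matrix.mul_one, ← Matrix.mul_assoc, hTT', Matrix.one_mul]
    rw [h3] at hYX
    rw [kr_one_inj_left hm hYX]
    exact hY
  · rw [eq_top_iff]
    intro X _
    have hn0 : NeZero n := ⟨hn.ne'⟩
    let sl : Matrix (Fin (n * m)) (Fin (n * m)) F →ₗ[F] Matrix (Fin m) (Fin m) F :=
      { toFun := fun M => Matrix.of fun k l =>
          M (finProdFinEquiv ((0 : Fin n), k)) (finProdFinEquiv ((0 : Fin n), l))
        map_add' := fun M M' => by ext k l; rfl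
        map_smul' := fun c M => by ext k l; rfl }
    have hsl : ∀ (Y : Matrix (Fin n) (Fin n) F) (Z : Matrix (Fin m) (Fin m) F),
        sl (kr Y Z) = Y 0 0 • Z := by
      intro Y Z
      ext k l
      change kr Y Z (finProdFinEquiv ((0 : Fin n), k)) (finProdFinEquiv ((0 : Fin n), l)) = _
      rw [kr_apply]
      rfl
    have key : ∀ z : Matrix (Fin N) (Fin N) F, sl (T' * z * T) ∈ Submodule.span F (B '' S₂) := by
      intro z
      have hz := hspan z
      induction hz using Submodule.span_induction with
      | mem x hx =>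
        obtain ⟨a, ha, b, hb, rfl⟩ := hx
        have h3 : T' * (a * b) * T = kr (A a) (B b) := by
          conv_lhs => rw [hA a (Submodule.subset_span ha), hB b hb]
          simp only [Matrix.mul_assoc]
          rw [hTT', Matrix.mul_one, ← Matrix.mul_assoc T' T, hTT', Matrix.one_mul,
            ← Matrix.mul_assoc T' T, hTT', Matrix.one_mul, kr_mul, Matrix.mul_one, Matrix.one_mul]
        rw [h3, hsl]
        exact Submodule.smul_mem _ _ (Submodule.subset_span ⟨b, hb, rfl⟩)
      | zero =>
        rw [Matrix.mul_zero, Matrix.zero_mul, map_zero]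
        exact Submodule.zero_mem _
      | add x y _ _ hx hy =>
        rw [Matrix.mul_add, Matrix.add_mul, map_add]
        exact Submodule.add_mem _ hx hy
      | smul c x _ hx =>
        rw [Matrix.mul_smul, Matrix.smul_mul, map_smul]
        exact Submodule.smul_mem _ _ hx
    have h3 := key (T * kr (1 : Matrix (Fin n) (Fin n) F) X * T')
    have h4 : T' * (T * kr (1 : Matrix (Fin n) (Fin n) F) X * T') * T =
        kr (1 : Matrix (Fin n) (Fin n) F) X := by
      simp only [Matrix.mul_assoc]
      rw [hTT', Matrix.mul_one, ← Matrix.mul_assoc, hTT', Matrix.one_mul]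
    rw [h4, hsl, Matrix.one_apply_eq, one_smul] at h3
    exact h3

end Pool.Agent.PP.H74
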