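import Pool.Agent.Helper74_PP.JBase

/-!
# Squad PP, part J: LOC, the algebra `C₁ = Z(FY) f` is local
-/

open scoped BigOperators

set_option linter.unusedSectionVars false

noncomputable section

namespace Pool.Agent.PP.J74

open Pool.Agent.PP

/-! ### residues in a commutative algebra -/

section res

variable {F R : Type} [Field F] [CommRing R] [Algebra F R] {φ : R}

theorem res_uniq (hφ : φ * φ = φ) (hne : φ ≠ 0) {z : R} {c d : F}
    (h1 : IsNilpotent (z - c • φ)) (h2 : IsNilpotent (z - d • φ)) : c = d := by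
  have h3 : IsNilpotent ((z - c • φ) - (z - d • φ)) := (Commute.all _ _).isNilpotent_sub h1 h2
  have e : (z - c • φ) - (z - d • φ) = (d - c) • φ := by rw [sub_smul]; abel
  rw [e] at h3
  obtain ⟨n, hn⟩ := h3
  by_contra hcd
  have hdc : d - c ≠ 0 := fun h => hcd (sub_eq_zero.1 h).symm
  have hp : ∀ n : ℕ, φ ^ (n + 1) = φ := by
    intro n
    induction n with
    | zero => simp
    | succ n ih => rw [pow_succ, ih, hφ]
  apply hne
  have h4 : ((d - c) • φ) ^ (n + 1) = 0 := by rw [pow_succ, hn, zero_mul]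
  rw [smul_pow, hp] at h4
  rcases smul_eq_zero.1 h4 with h5 | h5
  · exact absurd (pow_eq_zero_iff (Nat.succ_ne_zero n) |>.1 h5) hdc
  · exact h5

theorem res_mul (hφ : φ * φ = φ) {z z' : R} (hz' : φ * z' = z') {c d : F}
    (h1 : IsNilpotent (z - c • φ)) (h2 : IsNilpotent (z' - d • φ)) :
    IsNilpotent (z * z' - (c * d) • φ) := by
  have e : z * z' - (c * d) • φ = (z - c • φ) * z' + c • (z' - d • φ) := by
    rw [sub_mul, smul_mul_assoc, hz', smul_sub, smul_smul]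
    abel
  rw [e]
  exact (Commute.all _ _).isNilpotent_add ((Commute.all _ _).isNilpotent_mul_right h1)
    (IsNilpotent.smul h2 c)

theorem res_add {z z' : R} {c d : F}
    (h1 : IsNilpotent (z - c • φ)) (h2 : IsNilpotent (z' - d • φ)) :
    IsNilpotent (z + z' - (c + d) • φ) := by
  have e : z + z' - (c + d) • φ = (z - c • φ) + (z' - d • φ) := by
    rw [add_smul]
    abel
  rw [e]
  exact (Commute.all _ _).isNilpotent_add h1 h2

theorem res_smul {z : R} {c : F} (d : F) (h1 : IsNilpotent (z - c • φ)) :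
    IsNilpotent (d • z - (d * c) • φ) := by
  have e : d • z - (d * c) • φ = d • (z - c • φ) := by
    rw [smul_sub, smul_smul]
  rw [e]
  exact IsNilpotent.smul h1 d

end res

section loc

variable {F X : Type} [Field F] [Group X] [Finite X] {Y : Subgroup X} {f : X → F}

/-- an element of `C₁` as an element of the commutative algebra -/
def zy {z : X → F} (hz : CE f Y 1 z) : ZY F Y := ⟨ma z, hz.mem⟩

theorem nil_zy (w : ZY F Y) : IsNilpotent w ↔ IsNilpotent (w : MonoidAlgebra F X) := by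
  constructor
  · rintro ⟨n, hn⟩
    exact ⟨n, by rw [← SubmonoidClass.coe_pow, hn]; rfl⟩
  · rintro ⟨n, hn⟩
    refine ⟨n, Subtype.ext ?_⟩
    rw [SubmonoidClass.coe_pow, hn]
    rfl

theorem isRes_zy (hf : SBlk Y f) {z : X → F} (hz : CE f Y 1 z) (c : F) :
    IsRes f z c ↔ IsNilpotent (zy hz - c • zy (f_CE hf)) := by
  rw [isRes_iff, nil_zy]
  rfl

theorem zy_abs (hf : SBlk Y f) {z : X → F} (hz : CE f Y 1 z) : zy (f_CE hf) * zy hz = zy hz := by
  apply Subtype.ext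
  change ma f * ma z = ma z
  rw [← ma_mul, hz.abs]

theorem zy_ne (hf : SBlk Y f) : zy (f_CE hf) ≠ 0 := by
  intro h
  apply f_ne hf
  apply ma_injective
  rw [ma_zero]
  exact congrArg Subtype.val h

/-- functions supported on `Y` which agree on `Y` -/
theorem ext_supp {u v : X → F} (hu : ∀ h, h ∉ Y → u h = 0) (hv : ∀ h, h ∉ Y → v h = 0)
    (h : (fun t : Y => u t) = fun t : Y => v t) : u = v := by
  funext x
  by_cases hx : x ∈ Y
  · exact congrFun h ⟨x, hx⟩
  · rw [hu x hx, hv x hx]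

theorem mulF_suppY {u v : X → F} (hu : ∀ h, h ∉ Y → u h = 0) (hv : ∀ h, h ∉ Y → v h = 0) :
    ∀ h, h ∉ Y → mulF u v h = 0 := by
  intro h hh
  apply mulF_supp (S := (Y : Set X)) (T := (Y : Set X)) hu hv
  rintro s hs t ht rfl
  exact hh (Y.mul_mem hs ht)

theorem prim_zy (hf : SBlk Y f) (g : ZY F Y) (hg : g * g = g) :
    zy (f_CE hf) * g = zy (f_CE hf) ∨ zy (f_CE hf) * g = 0 := by
  obtain ⟨g, hgm⟩ := g
  obtain ⟨u, rfl⟩ := ma_surjective g
  have hu := (mem_ZY u).1 hgm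
  have h1 : mulF u u = u := by
    apply ma_injective
    rw [ma_mul]
    exact congrArg Subtype.val hg
  have h2 : IsIdem (fun t : Y => u t) := by
    refine ⟨fun x y => ?_, ?_⟩
    · exact hu.2 y y.2 x
    · rw [← Pool.Agent.PP.H66.mulF_sub hu.1, h1]
  have hz : ∀ h, h ∉ Y → (0 : X → F) h = 0 := fun _ _ => rfl
  rcases hf.blk.2.2 _ h2 with h3 | h3
  · left
    rw [← Pool.Agent.PP.H66.mulF_sub hf.supp] at h3
    apply Subtype.ext
    change ma f * ma u = ma f
    rw [← ma_mul, ext_supp (mulF_suppY hf.supp hu.1) hf.supp h3]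
  · right
    rw [← Pool.Agent.PP.H66.mulF_sub hf.supp] at h3
    apply Subtype.ext
    change ma f * ma u = 0
    rw [← ma_mul, ext_supp (mulF_suppY hf.supp hu.1) hz h3, ma_zero]

theorem res_exists (hF : IsAlgClosed F) (hf : SBlk Y f) {z : X → F} (hz : CE f Y 1 z) :
    ∃ c, IsRes f z c := by
  have : FiniteDimensional F (MonoidAlgebra F X) := Module.Finite.equiv maL
  have : FiniteDimensional F (ZY F Y) := FiniteDimensional.finiteDimensional_subalgebra _
  obtain ⟨c, n, hn⟩ := loc_comm (F := F) (zy_abs hf (f_CE hf)) (zy_ne hf) (prim_zy hf) (zy hz)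
    (zy_abs hf hz)
  exact ⟨c, (isRes_zy hf hz c).2 ⟨n, hn⟩⟩

theorem isRes_uniq (hf : SBlk Y f) {z : X → F} (hz : CE f Y 1 z) {c d : F} (h1 : IsRes f z c)
    (h2 : IsRes f z d) : c = d :=
  res_uniq (zy_abs hf (f_CE hf)) (zy_ne hf) ((isRes_zy hf hz c).1 h1) ((isRes_zy hf hz d).1 h2)

theorem isRes_lam (hF : IsAlgClosed F) (hf : SBlk Y f) {z : X → F} (hz : CE f Y 1 z) :
    IsRes f z (lamJ f z) := by
  unfold lamJ
  rw [dif_pos (res_exists hF hf hz)]
  exact (res_exists hF hf hz).choose_spec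

theorem lam_eq (hF : IsAlgClosed F) (hf : SBlk Y f) {z : X → F} (hz : CE f Y 1 z) {c : F}
    (h : IsRes f z c) : lamJ f z = c := isRes_uniq hf hz (isRes_lam hF hf hz) h

/-- an element of the commutative algebra absorbed by `f` is an element of `C₁` -/
theorem CE_of_zy (hf : SBlk Y f) {u : X → F} (hu : ma u ∈ ZY F Y) (h : mulF f u = u) :
    CE f Y 1 u := by
  have := (mem_ZY u).1 hu
  refine ⟨fun t ht => this.1 t ?_, this.2, h⟩
  simpa using ht

theorem unit_of_lam (hF : IsAlgClosed F) (hf : SBlk Y f) {z : X → F} (hz : CE f Y 1 z)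
    (h : lamJ f z ≠ 0) : ∃ z', CE f Y 1 z' ∧ mulF z z' = f := by
  have : FiniteDimensional F (MonoidAlgebra F X) := Module.Finite.equiv maL
  have : FiniteDimensional F (ZY F Y) := FiniteDimensional.finiteDimensional_subalgebra _
  have : IsArtinianRing (ZY F Y) := IsArtinianRing.of_finite F _
  rcases nil_or_unit (zy_abs hf (f_CE hf)) (prim_zy hf) (zy hz) (zy_abs hf hz) with h1 | h1
  · exfalso
    apply h
    apply lam_eq hF hf hz
    rw [isRes_zy hf hz, zero_smul, sub_zero]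
    exact h1
  · obtain ⟨⟨y, hy⟩, hy1, hy2⟩ := h1
    obtain ⟨u, rfl⟩ := ma_surjective y
    have e1 : mulF f u = u := by
      apply ma_injective
      rw [ma_mul]
      exact congrArg Subtype.val hy1
    refine ⟨u, CE_of_zy hf hy e1, ?_⟩
    apply ma_injective
    rw [ma_mul]
    exact congrArg Subtype.val hy2

theorem lam_f (hF : IsAlgClosed F) (hf : SBlk Y f) : lamJ f f = 1 := by
  apply lam_eq hF hf (f_CE hf)
  rw [isRes_zy hf (f_CE hf), one_smul, sub_self]
  exact IsNilpotent.zero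

theorem CE.mul1 (hY : Y.Normal) {z z' : X → F} (hz : CE f Y 1 z) (hz' : CE f Y 1 z') :
    CE f Y 1 (mulF z z') := by
  have := Pool.Agent.PP.CE.mul hY hz hz'
  rwa [mul_one] at this

theorem lam_mul (hF : IsAlgClosed F) (hY : Y.Normal) (hf : SBlk Y f) {z z' : X → F}
    (hz : CE f Y 1 z) (hz' : CE f Y 1 z') : lamJ f (mulF z z') = lamJ f z * lamJ f z' := by
  apply lam_eq hF hf (CE.mul1 hY hz hz')
  rw [isRes_zy hf (CE.mul1 hY hz hz')]
  have h := res_mul (zy_abs hf (f_CE hf)) (zy_abs hf hz') ((isRes_zy hf hz _).1 (isRes_lam hF hf hz))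
    ((isRes_zy hf hz' _).1 (isRes_lam hF hf hz'))
  have e : zy (CE.mul1 hY hz hz') = zy hz * zy hz' := Subtype.ext (ma_mul z z')
  rw [e]
  exact h

theorem lam_add (hF : IsAlgClosed F) (hf : SBlk Y f) {z z' : X → F}
    (hz : CE f Y 1 z) (hz' : CE f Y 1 z') : lamJ f (z + z') = lamJ f z + lamJ f z' := by
  apply lam_eq hF hf (hz.add hz')
  rw [isRes_zy hf (hz.add hz')]
  have h := res_add ((isRes_zy hf hz _).1 (isRes_lam hF hf hz))
    ((isRes_zy hf hz' _).1 (isRes_lam hF hf hz'))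
  have e : zy (hz.add hz') = zy hz + zy hz' := Subtype.ext (ma_add z z')
  rw [e]
  exact h

theorem lam_smul (hF : IsAlgClosed F) (hf : SBlk Y f) (d : F) {z : X → F}
    (hz : CE f Y 1 z) : lamJ f (d • z) = d * lamJ f z := by
  apply lam_eq hF hf (hz.smul d)
  rw [isRes_zy hf (hz.smul d)]
  have h := res_smul d ((isRes_zy hf hz _).1 (isRes_lam hF hf hz))
  have e : zy (hz.smul d) = d • zy hz := Subtype.ext (ma_smul d z)
  rw [e]
  exact h

end loc

/-! ### the action on the modular characters of `Y ∩ S` -/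

section act

variable {ℓ : ℕ} {F X : Type} [Field F] [Group X] [Finite X] {Y R S : Subgroup X} {f : X → F}

theorem br_sub (hl : Loc ℓ Y R S) (a : X → F) :
    (fun t : ↥(Y ⊓ S) => br R a t) = br (R.subgroupOf (Y ⊓ S)) (fun t : ↥(Y ⊓ S) => a t) := by
  classical
  funext t
  have h : (t : X) ∈ Subgroup.centralizer (R : Set X) ↔
      t ∈ Subgroup.centralizer (R.subgroupOf (Y ⊓ S) : Set ↥(Y ⊓ S)) := by
    rw [Subgroup.mem_centralizer_iff, Subgroup.mem_centralizer_iff]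
    constructor
    · intro h r hr
      exact Subtype.ext (h r hr)
    · intro h r hr
      exact congrArg Subtype.val (h ⟨r, hl.le hr, hl.leS hr⟩ hr)
  unfold br
  by_cases h1 : (t : X) ∈ Subgroup.centralizer (R : Set X)
  · rw [if_pos h1, if_pos (h.1 h1)]
  · rw [if_neg h1, if_neg (fun h2 => h1 (h.2 h2))]

theorem normal_sub (hl : Loc ℓ Y R S) : (R.subgroupOf (Y ⊓ S)).Normal := by
  constructor
  rintro ⟨r, hr1⟩ hr ⟨g, hg⟩
  have h1 := hl.norm hg.2
  rw [Subgroup.mem_normalizer_iff] at h1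
  exact (h1 r).1 hr

theorem pgroup_sub (hl : Loc ℓ Y R S) : IsPGroup ℓ (R.subgroupOf (Y ⊓ S)) :=
  hl.pgrp.comap_of_injective (Y ⊓ S).subtype (Subgroup.subtype_injective _)

/-- nilpotent elements of `Z(F Y)` act as zero -/
theorem act_nil (hF : GoodF ℓ F) (hl : Loc ℓ Y R S) {w : X → F} (hw : ∀ h, h ∉ Y → w h = 0)
    (hwi : ∀ n ∈ Y, ∀ h, w (n * h * n⁻¹) = w h) (hn : ∃ n : ℕ, (mulF w)^[n] w = 0)
    {m : ℕ} (ρ : ↥(Y ⊓ S) →* Matrix (Fin m) (Fin m) F) (hρ : IsIrr ρ) :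
    ev ρ (fun t : ↥(Y ⊓ S) => br R w t) = 0 := by
  obtain ⟨n, hn⟩ := hn
  have hinv : Pool.Agent.PP.H66.Inv R w := fun p hp t => hwi p (hl.le hp) t
  have h1 := Pool.Agent.PP.H66.br_iter hF hl.pgrp hinv hinv n
  rw [hn, Pool.Agent.PP.H66.br_zero] at h1
  have hs : ∀ t, t ∉ Y ⊓ S → br R w t = 0 := by
    intro t ht
    by_cases hc : t ∈ Subgroup.centralizer (R : Set X)
    · rw [Pool.Agent.PP.H66.br_of_mem hc]
      apply hw
      intro hy
      exact ht ⟨hy, hl.cent hc⟩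
    · exact Pool.Agent.PP.H66.br_of_not_mem hc
  have h2 := Pool.Agent.PP.H66.iter_sub (X := Y ⊓ S) (a := br R w) (b := br R w) hs n
  have h3 : (mulF (fun t : ↥(Y ⊓ S) => br R w t))^[n] (fun t : ↥(Y ⊓ S) => br R w t) = 0 := by
    rw [← h2, ← h1]
    rfl
  have hcl : IsCl (fun t : ↥(Y ⊓ S) => br R w t) := by
    intro x y
    change br R w ((y : X) * (x : X) * (y : X)⁻¹) = br R w x
    have hy1 : (y : X) ∈ Subgroup.normalizer (R : Set X) := hl.norm y.2.2
    by_cases hc : (x : X) ∈ Subgroup.centralizer (R : Set X)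
    · rw [Pool.Agent.PP.H66.br_of_mem hc,
        Pool.Agent.PP.H66.br_of_mem ((Pool.Agent.PP.H20.cent_conj_iff hy1).2 hc)]
      exact hwi _ y.2.1 _
    · rw [Pool.Agent.PP.H66.br_of_not_mem hc,
        Pool.Agent.PP.H66.br_of_not_mem (fun h => hc ((Pool.Agent.PP.H20.cent_conj_iff hy1).1 h))]
  obtain ⟨c, hc, -, -⟩ := Pool.Agent.PP.H20.eig F ↥(Y ⊓ S) m ρ hρ _ hcl
  have h4 : ev ρ (fun t : ↥(Y ⊓ S) => br R w t) ^ (n + 1) = 0 := by
    rw [pow_succ, ← ev_iterate, h3]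
    unfold ev
    simp
  have : Nonempty (Fin m) := ⟨⟨0, hρ.1⟩⟩
  rw [hc] at h4 ⊢
  rw [← map_pow] at h4
  have h5 : c ^ (n + 1) = 0 := by
    have h6 := congrFun (congrFun h4 ⟨0, hρ.1⟩) ⟨0, hρ.1⟩
    simpa using h6
  rw [pow_eq_zero_iff (Nat.succ_ne_zero n)] at h5
  rw [h5, map_zero]

theorem act_f (hF : GoodF ℓ F) (hf : SBlk Y f) (hl : Loc ℓ Y R S) {m : ℕ}
    (ρ : ↥(Y ⊓ S) →* Matrix (Fin m) (Fin m) F) (hρ : IsIrr ρ) :
    ev ρ (fun t : ↥(Y ⊓ S) => br R f t) = ev ρ (fun t : ↥(Y ⊓ S) => f t) := by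
  have hcl : IsCl (fun t : ↥(Y ⊓ S) => f t) := fun x y => hf.cl x y
  rw [br_sub hl, ← ((Pool.Agent.PP.H20.nls ℓ F hF ↥(Y ⊓ S) _ (normal_sub hl) (pgroup_sub hl) m ρ
    hρ).2 _ hcl).1]

theorem ev_f (hf : SBlk Y f) {m : ℕ}
    (ρ : ↥(Y ⊓ S) →* Matrix (Fin m) (Fin m) F) (hρ : IsIrr ρ)
    (h : actF (fun t : ↥(Y ⊓ S) => f t) (tr ρ) = tr ρ) :
    ev ρ (fun t : ↥(Y ⊓ S) => f t) = 1 := by
  have hcl : IsCl (fun t : ↥(Y ⊓ S) => f t) := fun x y => hf.cl x y
  obtain ⟨c, hc, hc2, -⟩ := Pool.Agent.PP.H20.eig F ↥(Y ⊓ S) m ρ hρ _ hcl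
  rw [h] at hc2
  have hne : tr ρ ≠ 0 := by
    intro h0
    have h1 : ∀ x, (Matrix.traceLinearMap (Fin m) F F) x = 0 := by
      intro x
      have hx : x ∈ Submodule.span F (Set.range ρ) := by rw [hρ.2]; trivial
      induction hx using Submodule.span_induction with
      | mem x hx =>
        obtain ⟨g, rfl⟩ := hx
        exact congrFun h0 g
      | zero => simp
      | add x y _ _ hx hy => rw [map_add, hx, hy, add_zero]
      | smul a x _ hx => rw [map_smul, hx, smul_zero]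
    have h2 := h1 (Matrix.single ⟨0, hρ.1⟩ ⟨0, hρ.1⟩ 1)
    rw [Matrix.traceLinearMap_apply, Matrix.trace_single_eq_same] at h2
    exact one_ne_zero h2
  obtain ⟨t, ht⟩ := Function.ne_iff.1 hne
  have h3 := congrFun hc2 t
  rw [Pi.smul_apply, smul_eq_mul] at h3
  have h4 : c = 1 := by
    have : (1 - c) * tr ρ t = 0 := by rw [sub_mul, one_mul, ← h3, sub_self]
    rcases mul_eq_zero.1 this with h5 | h5
    · exact (sub_eq_zero.1 h5).symm
    · exact absurd h5 ht
  rw [hc, h4, map_one]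

theorem ev_z (hF : GoodF ℓ F) (hf : SBlk Y f) (hl : Loc ℓ Y R S) {z : X → F}
    (hz : CE f Y 1 z) {m : ℕ}
    (ρ : ↥(Y ⊓ S) →* Matrix (Fin m) (Fin m) F) (hρ : IsIrr ρ)
    (h : actF (fun t : ↥(Y ⊓ S) => f t) (tr ρ) = tr ρ) :
    ev ρ (fun t : ↥(Y ⊓ S) => br R z t) = Matrix.scalar (Fin m) (lamJ f z) := by
  have hw : CE f Y 1 (z - lamJ f z • f) := hz.sub ((f_CE hf).smul _)
  have h1 := act_nil hF hl hw.supp1 hw.inv (isRes_lam hF.closed hf hz) ρ hρ
  have e : (fun t : ↥(Y ⊓ S) => br R z t) = (fun t : ↥(Y ⊓ S) => br R (z - lamJ f z • f) t) +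
      lamJ f z • (fun t : ↥(Y ⊓ S) => br R f t) := by
    classical
    funext t
    rw [Pi.add_apply, Pi.smul_apply]
    unfold br
    split_ifs with hc
    · simp
    · simp
  rw [e, ev_add, ev_smul, h1, zero_add, act_f hF hf hl ρ hρ, ev_f hf ρ hρ h]
  ext i j
  simp [Matrix.scalar_apply, Matrix.one_apply, Matrix.diagonal_apply]

end act

/-- LOC -/
theorem loc : LocStmt := by
  intro ℓ F _ hF X _ _ Y hY f hf
  refine ⟨fun z hz => ⟨isRes_lam hF.closed hf hz, fun c hc => (lam_eq hF.closed hf hz hc).symm,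
    unit_of_lam hF.closed hf hz⟩, f_CE hf, lam_f hF.closed hf, fun z z' hz hz' =>
    ⟨lam_mul hF.closed hY hf hz hz', lam_add hF.closed hf hz hz'⟩,
    fun c z hz => lam_smul hF.closed hf c hz, ?_⟩
  rintro R S hl z hz φ ⟨m, ρ, hρ, rfl⟩ hφ
  funext x
  rw [actF_tr, ev_z hF hf hl hz ρ hρ hφ, Pi.smul_apply, smul_eq_mul]
  rw [Matrix.scalar_apply, ← Matrix.smul_one_eq_diagonal, smul_mul_assoc, one_mul,
    Matrix.trace_smul, smul_eq_mul]
  rfl

end Pool.Agent.PP.J74
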