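import Pool.Agent.Helper74_PP.Xfs

/-!
# Squad PP, part J: SUPJ, central idempotents over `f` are supported on `X[f]`
-/

open scoped BigOperators Pointwise

set_option linter.unusedSectionVars false

noncomputable section

namespace Pool.Agent.PP.J74

open Pool.Agent.PP

/-! ### pigeonhole for products -/

theorem pigeon {α G : Type} [Group G] [Finite G] (φ : α → G) (L : List α)
    (hL : Nat.card G ≤ L.length) : ∃ L1 L2 L3 : List α, L = L1 ++ (L2 ++ L3) ∧ L2 ≠ [] ∧
      (L2.map φ).prod = 1 := by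
  have := Fintype.ofFinite G
  rw [Nat.card_eq_fintype_card] at hL
  obtain ⟨i, j, hij, h⟩ : ∃ i j : Fin (Fintype.card G + 1), i < j ∧
      ((L.take i).map φ).prod = ((L.take j).map φ).prod := by
    obtain ⟨i, j, hne, h⟩ := Fintype.exists_ne_map_eq_of_card_lt
      (fun i : Fin (Fintype.card G + 1) => ((L.take i).map φ).prod) (by simp)
    rcases lt_or_gt_of_ne hne with h1 | h1
    · exact ⟨i, j, h1, h⟩
    · exact ⟨j, i, h1, h.symm⟩
  have hj : (j : ℕ) ≤ L.length := by omega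
  have hij' : (i : ℕ) < j := hij
  refine ⟨L.take i, (L.drop i).take (j - i), L.drop j, ?_, ?_, ?_⟩
  · have h1 : (L.drop i).take (j - i) ++ L.drop j = L.drop i := by
      have h2 : L.drop j = (L.drop i).drop (j - i) := by
        rw [List.drop_drop]
        congr 1
        omega
      rw [h2, List.take_append_drop]
    rw [h1, List.take_append_drop]
  · intro h0
    have := congrArg List.length h0
    rw [List.length_take, List.length_drop, List.length_nil] at this
    omega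
  · have h1 : L.take j = L.take i ++ (L.drop i).take (j - i) := by
      have : (j : ℕ) = i + (j - i) := by omega
      conv_lhs => rw [this]
      rw [List.take_add]
    rw [h1, List.map_append, List.prod_append] at h
    exact (mul_eq_left.1 h.symm)

section sup

variable {F X : Type} [Field F] [Group X] [Finite X] {Y : Subgroup X} (hY : Y.Normal) {f : X → F}
  (hf : SBlk Y f)

/-! ### the radical `J₁ C` is nil -/

theorem nil_add {A : Type} [Ring A] {z c b : A} {S : Subring A} (hz : ∀ d ∈ S, z * d = d * z)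
    (hzS : z ∈ S) (hc : c ∈ S) (hb : b ∈ S) (hzn : IsNilpotent z) (hbn : IsNilpotent b) :
    IsNilpotent (z * c + b) := by
  have key : ∀ m : ℕ, ∃ d ∈ S, (z * c + b) ^ m = b ^ m + z * d := by
    intro m
    induction m with
    | zero => exact ⟨0, S.zero_mem, by simp⟩
    | succ m ih =>
      obtain ⟨d, hd, h⟩ := ih
      refine ⟨c * (b ^ m + z * d) + b * d, ?_, ?_⟩
      · exact S.add_mem (S.mul_mem hc (S.add_mem (S.pow_mem hb m) (S.mul_mem hzS hd)))
          (S.mul_mem hb hd)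
      · rw [pow_succ', h, pow_succ']
        have h1 : b * (z * d) = z * (b * d) := by rw [← mul_assoc, ← hz b hb, mul_assoc]
        rw [add_mul, mul_add b, h1, mul_add z]
        rw [mul_assoc z c]
        abel
  obtain ⟨m, hm⟩ := hbn
  obtain ⟨k, hk⟩ := hzn
  obtain ⟨d, hd, h⟩ := key m
  rw [hm, zero_add] at h
  refine ⟨m * k, ?_⟩
  have h2 : Commute z d := hz d hd
  rw [pow_mul, h, h2.mul_pow, hk, zero_mul]

/-- the functions commuting with `Y` -/
def CY (F : Type) [Field F] (Y : Subgroup X) : Subalgebra F (MonoidAlgebra F X) :=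
  Subalgebra.centralizer F (Set.range fun n : Y => MonoidAlgebra.single (n : X) (1 : F))

theorem mem_CY (u : X → F) : ma u ∈ CY F Y ↔ ∀ n ∈ Y, ∀ h, u (n * h * n⁻¹) = u h := by
  unfold CY
  rw [Subalgebra.mem_centralizer_iff]
  constructor
  · intro h n hn
    rw [comm_iff]
    exact h _ ⟨⟨n, hn⟩, rfl⟩
  · rintro h _ ⟨n, rfl⟩
    exact (comm_iff _ u).1 (h n n.2)

theorem _root_.Pool.Agent.PP.CC.add {u v : X → F} (hu : CC f Y u) (hv : CC f Y v) :
    CC f Y (u + v) := by
  refine ⟨fun n hn h => ?_, ?_⟩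
  · rw [Pi.add_apply, Pi.add_apply, hu.inv n hn, hv.inv n hn]
  · rw [mulF_add', hu.abs, hv.abs]

theorem _root_.Pool.Agent.PP.CC.smul (c : F) {u : X → F} (hu : CC f Y u) :
    CC f Y (c • u) := by
  refine ⟨fun n hn h => ?_, ?_⟩
  · rw [Pi.smul_apply, Pi.smul_apply, hu.inv n hn]
  · rw [mulF_smul', hu.abs]

theorem CC_zero : CC f Y (0 : X → F) := by
  refine ⟨fun n _ h => rfl, ?_⟩
  apply ma_injective
  rw [ma_mul, ma_zero, mul_zero]

/-- the elements of `J₁ C` are nilpotent -/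
theorem J1C_nil {w : X → F} (hw : w ∈ J1C f Y) : CC f Y w ∧ IsNilpotent (ma w) := by
  have key : CC f Y w ∧ ∀ b, CC f Y b → IsNilpotent (ma b) → IsNilpotent (ma (w + b)) := by
    unfold J1C at hw
    induction hw using Submodule.span_induction with
    | mem w h =>
      obtain ⟨z, c, hz, hn, hc, rfl⟩ := h
      refine ⟨hz.cc.mul hc, fun b hb hbn => ?_⟩
      rw [ma_add, ma_mul]
      have hzn : IsNilpotent (ma z) := (nil_iff z).1 hn
      refine nil_add (S := (CY F Y).toSubring) ?_ ((mem_CY z).2 hz.inv) ((mem_CY c).2 hc.inv)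
        ((mem_CY b).2 hb.inv) hzn hbn
      intro d hd
      obtain ⟨v, rfl⟩ := ma_surjective d
      rw [← ma_mul, ← ma_mul, comm_of_supp hz.supp1 ((mem_CY v).1 hd)]
    | zero => exact ⟨CC_zero, fun b _ hbn => by rwa [zero_add]⟩
    | add x y _ _ hx hy =>
      refine ⟨hx.1.add hy.1, fun b hb hbn => ?_⟩
      rw [add_assoc]
      exact hx.2 _ (hy.1.add hb) (hy.2 b hb hbn)
    | smul a x _ hx =>
      refine ⟨hx.1.smul a, fun b hb hbn => ?_⟩
      by_cases ha : a = 0
      · rw [ha, zero_smul, zero_add]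
        exact hbn
      · have e : a • x + b = a • (x + a⁻¹ • b) := by
          rw [smul_add, smul_smul, mul_inv_cancel₀ ha, one_smul]
        rw [e, ma_smul]
        refine IsNilpotent.smul (hx.2 _ (hb.smul a⁻¹) ?_) a
        rw [ma_smul]
        exact IsNilpotent.smul hbn _
  refine ⟨key.1, ?_⟩
  have := key.2 0 CC_zero (by rw [ma_zero]; exact IsNilpotent.zero)
  rwa [add_zero] at this

/-! ### products over lists -/

/-- the product of a list of homogeneous elements -/
def lp (L : List (X × (X → F))) : MonoidAlgebra F X := (L.map fun p => ma p.2).prod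

include hY hf in
theorem lp_CE (L : List (X × (X → F))) (hL : ∀ p ∈ L, CE f Y p.1 p.2) :
    ∃ u, CE f Y (L.map Prod.fst).prod u ∧ ma u = lp L * ma f := by
  induction L with
  | nil => exact ⟨f, f_CE hf, by rw [lp, List.map_nil, List.prod_nil, one_mul]⟩
  | cons p L ih =>
    obtain ⟨u, hu, h⟩ := ih fun q hq => hL q (List.mem_cons_of_mem _ hq)
    refine ⟨mulF p.2 u, ?_, ?_⟩
    · rw [List.map_cons, List.prod_cons]
      exact (hL p List.mem_cons_self).mul hY hu
    · rw [ma_mul, h, lp, lp, List.map_cons, List.prod_cons, mul_assoc]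

include hY hf in
/-- a long product of elements over cosets outside of `X[f]` is in `J₁ C` -/
theorem long_J1C (hF : IsAlgClosed F) (L : List (X × (X → F)))
    (hL : ∀ p ∈ L, p.1 ∉ XF f Y ∧ CE f Y p.1 p.2) (hlen : Nat.card (X ⧸ Y) ≤ L.length) :
    ∃ w ∈ J1C f Y, lp L = ma w := by
  obtain ⟨L1, L2, L3, rfl, hne, hprod⟩ := pigeon (fun p : X × (X → F) => (p.1 : X ⧸ Y)) L hlen
  obtain ⟨p, L2', rfl⟩ := List.exists_cons_of_ne_nil hne
  have hp := hL p (by simp)
  obtain ⟨a', ha', e'⟩ := lp_CE hY hf L2' fun q hq => (hL q (by simp [hq])).2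
  obtain ⟨uA, hA, eA⟩ := lp_CE hY hf L1 fun q hq => (hL q (by simp [hq])).2
  obtain ⟨uB, hB, eB⟩ := lp_CE hY hf L3 fun q hq => (hL q (by simp [hq])).2
  -- `a'` is over `p.1⁻¹`
  have h1 : p.1 * (L2'.map Prod.fst).prod ∈ Y := by
    have h2 : ((p.1 * (L2'.map Prod.fst).prod : X) : X ⧸ Y) = 1 := by
      rw [List.map_cons, List.prod_cons] at hprod
      rw [QuotientGroup.mk_mul, ← hprod]
      congr 1
      change (QuotientGroup.mk' Y) _ = _
      rw [map_list_prod, List.map_map]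
      rfl
    rwa [QuotientGroup.eq_one_iff] at h2
  have ha1 : CE f Y p.1⁻¹ a' := by
    have h3 : p.1⁻¹ * (p.1 * (L2'.map Prod.fst).prod)⁻¹ * p.1⁻¹⁻¹ ∈ Y :=
      hY.conj_mem _ (Y.inv_mem h1) _
    have h4 : (L2'.map Prod.fst).prod⁻¹ * p.1⁻¹ ∈ Y := by
      have e : (p.1 * (L2'.map Prod.fst).prod)⁻¹ = (L2'.map Prod.fst).prod⁻¹ * p.1⁻¹ := by group
      rw [← e]
      exact Y.inv_mem h1
    have h5 := ha'.congr_mem h4
    rwa [mul_inv_cancel_left] at h5
  obtain ⟨hz, hlam⟩ := lam_zero hY hf hF hp.1 hp.2 ha1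
  have hzn : ∃ n : ℕ, (mulF (mulF p.2 a'))^[n] (mulF p.2 a') = 0 := by
    have := isRes_lam hF hf hz
    rw [hlam] at this
    unfold IsRes at this
    rwa [zero_smul, sub_zero] at this
  refine ⟨mulF (mulF p.2 a') (mulF uA uB), Submodule.subset_span ⟨_, _, hz, hzn, hA.cc.mul hB.cc,
    rfl⟩, ?_⟩
  have hc : mulF (mulF p.2 a') uA = mulF uA (mulF p.2 a') := C1_comm hz hA.cc
  have hfc : ∀ x : MonoidAlgebra F X, x * ma f = ma f * x := by
    intro x
    obtain ⟨v, rfl⟩ := ma_surjective x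
    rw [← ma_mul, ← ma_mul, f_comm hf]
  have hff : ma f * ma f = ma f := by rw [← ma_mul, f_idem hf]
  have hpf : ma p.2 * ma f = ma p.2 := by rw [← ma_mul, abs_right hf hp.2.abs]
  rw [← mulF_assoc, hc, mulF_assoc, ma_mul, ma_mul, ma_mul, e', eA, eB]
  have e0 : lp (L1 ++ (p :: L2' ++ L3)) = lp L1 * (ma p.2 * lp L2' * lp L3) := by
    simp [lp, mul_assoc]
  rw [e0]
  calc lp L1 * (ma p.2 * lp L2' * lp L3)
      = lp L1 * (ma p.2 * ma f * lp L2' * lp L3) := by rw [hpf]
    _ = lp L1 * (ma p.2 * (ma f * lp L2') * lp L3) := by simp only [mul_assoc]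
    _ = lp L1 * (ma p.2 * (lp L2' * ma f) * lp L3) := by rw [hfc]
    _ = lp L1 * (ma p.2 * (lp L2' * (ma f * (ma f * ma f))) * lp L3) := by rw [hff, hff]
    _ = lp L1 * (ma p.2 * ((lp L2' * ma f) * ma f) * (ma f * lp L3)) := by simp only [mul_assoc]
    _ = lp L1 * (ma p.2 * (ma f * (lp L2' * ma f)) * (lp L3 * ma f)) := by
        rw [hfc (lp L2' * ma f), hfc (lp L3)]
    _ = lp L1 * ((ma p.2 * ma f) * (lp L2' * ma f) * (lp L3 * ma f)) := by
        simp only [mul_assoc]
    _ = lp L1 * ((ma f * ma p.2) * (lp L2' * ma f) * (lp L3 * ma f)) := by rw [hfc]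
    _ = lp L1 * ma f * (ma p.2 * (lp L2' * ma f) * (lp L3 * ma f)) := by simp only [mul_assoc]

/-! ### cutting -/

theorem cut_of_mem {S : Set X} (u : X → F) {h : X} (hh : h ∈ S) : cut S u h = u h := by
  unfold cut
  rw [if_pos hh]

theorem cut_of_not_mem {S : Set X} (u : X → F) {h : X} (hh : h ∉ S) : cut S u h = 0 := by
  unfold cut
  rw [if_neg hh]

theorem mulF_cut {S : Set X} (hf : ∀ h, h ∉ Y → f h = 0)
    (hS : ∀ t ∈ Y, ∀ x, t⁻¹ * x ∈ S ↔ x ∈ S) (u : X → F) :
    mulF f (cut S u) = cut S (mulF f u) := by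
  classical
  funext x
  have := Fintype.ofFinite X
  by_cases hx : x ∈ S
  · rw [cut_of_mem (mulF f u) hx]
    unfold mulF
    rw [finsum_eq_sum_of_fintype, finsum_eq_sum_of_fintype]
    apply Finset.sum_congr rfl
    intro t _
    by_cases ht : t ∈ Y
    · rw [cut_of_mem u ((hS t ht x).2 hx)]
    · rw [hf t ht, zero_mul, zero_mul]
  · rw [cut_of_not_mem (mulF f u) hx]
    unfold mulF
    rw [finsum_eq_sum_of_fintype]
    apply Finset.sum_eq_zero
    intro t _
    by_cases ht : t ∈ Y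
    · rw [cut_of_not_mem u (fun h => hx ((hS t ht x).1 h)), mul_zero]
    · rw [hf t ht, zero_mul]

theorem cut_add_compl (S : Set X) (u : X → F) : cut S u + cut Sᶜ u = u := by
  funext h
  rw [Pi.add_apply]
  by_cases hh : h ∈ S
  · rw [cut_of_mem u hh, cut_of_not_mem (S := Sᶜ) u (fun h' => h' hh), add_zero]
  · rw [cut_of_not_mem u hh, cut_of_mem (S := Sᶜ) u hh, zero_add]

theorem cut_cl {S : Set X} (hS : ∀ x y, y * x * y⁻¹ ∈ S ↔ x ∈ S) {u : X → F} (hu : IsCl u) :
    IsCl (cut S u) := by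
  intro x y
  by_cases hx : x ∈ S
  · rw [cut_of_mem u hx, cut_of_mem u ((hS x y).2 hx), hu]
  · rw [cut_of_not_mem u hx, cut_of_not_mem u (fun h => hx ((hS x y).1 h))]

/-- the set of the elements over the cosets outside of `X[f]` -/
def GS (f : X → F) (Y : Subgroup X) : Set (MonoidAlgebra F X) :=
  {x | ∃ g u, g ∉ XF f Y ∧ CE f Y g u ∧ x = ma u}

include hY hf in
theorem nil_outside (hF : IsAlgClosed F) {t : X → F} (ht : ma t ∈ Submodule.span F (GS f Y)) :
    IsNilpotent (ma t) := by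
  have h1 : ma t ^ Nat.card (X ⧸ Y) ∈ Submodule.span F (GS f Y ^ Nat.card (X ⧸ Y)) := by
    rw [← Submodule.span_pow]
    exact Submodule.pow_mem_pow _ ht _
  have h2 : ∃ w ∈ J1C f Y, ma t ^ Nat.card (X ⧸ Y) = ma w := by
    generalize ma t ^ Nat.card (X ⧸ Y) = y at h1
    induction h1 using Submodule.span_induction with
    | mem x hx =>
      rw [Set.mem_pow] at hx
      obtain ⟨g, rfl⟩ := hx
      have hg : ∀ i, ∃ p : X × (X → F), p.1 ∉ XF f Y ∧ CE f Y p.1 p.2 ∧
          (g i : MonoidAlgebra F X) = ma p.2 := by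
        intro i
        obtain ⟨x, u, h1, h2, h3⟩ := (g i).2
        exact ⟨(x, u), h1, h2, h3⟩
      choose p hp1 hp2 hp3 using hg
      obtain ⟨w, hw, e⟩ := long_J1C hY hf hF (List.ofFn p) (by
        intro q hq
        rw [List.mem_ofFn] at hq
        obtain ⟨i, rfl⟩ := hq
        exact ⟨hp1 i, hp2 i⟩) (by rw [List.length_ofFn])
      refine ⟨w, hw, ?_⟩
      rw [← e, lp, List.map_ofFn]
      congr 2
      funext i
      exact hp3 i
    | zero => exact ⟨0, (J1C f Y).zero_mem, ma_zero.symm⟩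
    | add x y _ _ hx hy =>
      obtain ⟨u, hu, rfl⟩ := hx
      obtain ⟨v, hv, rfl⟩ := hy
      exact ⟨u + v, (J1C f Y).add_mem hu hv, (ma_add u v).symm⟩
    | smul c x _ hx =>
      obtain ⟨u, hu, rfl⟩ := hx
      exact ⟨c • u, (J1C f Y).smul_mem c hu, (ma_smul c u).symm⟩
  obtain ⟨w, hw, e⟩ := h2
  obtain ⟨n, hn⟩ := (J1C_nil hw).2
  refine ⟨Nat.card (X ⧸ Y) * n, ?_⟩
  rw [pow_mul, e, hn]

include hY hf in
theorem outside_mem {t : X → F} (ht : CC f Y t) (hK : ∀ h ∈ XF f Y, t h = 0) :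
    ma t ∈ Submodule.span F (GS f Y) := by
  classical
  have := Fintype.ofFinite (X ⧸ Y)
  have e : t = ∑ q : X ⧸ Y, cut {h : X | (h : X ⧸ Y) = q} t := by
    funext h
    rw [Finset.sum_apply, Finset.sum_eq_single (h : X ⧸ Y)]
    · rw [cut_of_mem (S := {h' : X | (h' : X ⧸ Y) = (h : X ⧸ Y)}) t rfl]
    · intro b _ hb
      exact cut_of_not_mem t fun h' => hb h'.symm
    · intro h'
      exact absurd (Finset.mem_univ _) h'
  rw [e, ma_sum]
  refine Submodule.sum_mem _ fun q _ => ?_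
  obtain ⟨g, rfl⟩ := QuotientGroup.mk_surjective q
  have hmem : ∀ h : X, (h : X ⧸ Y) = (g : X ⧸ Y) ↔ g⁻¹ * h ∈ Y := by
    intro h
    rw [eq_comm, QuotientGroup.eq]
  by_cases hg : g ∈ XF f Y
  · have h0 : cut {h : X | (h : X ⧸ Y) = (g : X ⧸ Y)} t = 0 := by
      funext h
      by_cases hh : (h : X ⧸ Y) = (g : X ⧸ Y)
      · rw [cut_of_mem (S := {h' : X | (h' : X ⧸ Y) = (g : X ⧸ Y)}) t hh]
        apply hK
        have h1 := (XF f Y).mul_mem hg (le_XF hY hf ((hmem h).1 hh))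
        rwa [mul_inv_cancel_left] at h1
      · exact cut_of_not_mem t hh
    rw [h0, ma_zero]
    exact Submodule.zero_mem _
  · refine Submodule.subset_span ⟨g, _, hg, ⟨?_, ?_, ?_⟩, rfl⟩
    · intro h hh
      exact cut_of_not_mem t fun h' => hh ((hmem h).1 h')
    · intro n hn h
      have h1 : ((n * h * n⁻¹ : X) : X ⧸ Y) = (h : X ⧸ Y) := by
        have hn1 : ((n : X) : X ⧸ Y) = 1 := (QuotientGroup.eq_one_iff n).2 hn
        rw [QuotientGroup.mk_mul, QuotientGroup.mk_mul, QuotientGroup.mk_inv, hn1]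
        simp
      by_cases hh : (h : X ⧸ Y) = (g : X ⧸ Y)
      · rw [cut_of_mem (S := {h' : X | (h' : X ⧸ Y) = (g : X ⧸ Y)}) t hh,
          cut_of_mem (S := {h' : X | (h' : X ⧸ Y) = (g : X ⧸ Y)}) t (h1.trans hh), ht.inv n hn]
      · rw [cut_of_not_mem (S := {h' : X | (h' : X ⧸ Y) = (g : X ⧸ Y)}) (h := h) t hh,
          cut_of_not_mem (S := {h' : X | (h' : X ⧸ Y) = (g : X ⧸ Y)}) t
            (fun h' => hh (h1.symm.trans h'))]
    · rw [mulF_cut hf.supp _ t, ht.abs]
      intro n hn x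
      have hn1 : ((n : X) : X ⧸ Y) = 1 := (QuotientGroup.eq_one_iff n).2 hn
      change ((n⁻¹ * x : X) : X ⧸ Y) = _ ↔ _
      rw [QuotientGroup.mk_mul, QuotientGroup.mk_inv, hn1]
      simp

end sup

/-- powers of elements supported on a subgroup -/
theorem pow_supp {F X : Type} [Field F] [Group X] [Finite X] {K : Subgroup X} {s : X → F}
    (hs : ∀ h, h ∉ K → s h = 0) (n : ℕ) : ∃ v : X → F, (∀ h, h ∉ K → v h = 0) ∧
      ma s ^ (n + 1) = ma v := by
  induction n with
  | zero => exact ⟨s, hs, by simp⟩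
  | succ n ih =>
    obtain ⟨v, hv, e⟩ := ih
    exact ⟨mulF v s, mulF_suppY hv hs, by rw [pow_succ, e, ma_mul]⟩

/-- SUPJ -/
theorem supJ : SupJStmt := by
  intro ℓ F _ hF X _ _ Y hY f hf e he hef h hh
  have hKn := XF_normal hY hf
  have hYK := le_XF hY hf
  have hfe : mulF f e = e := by rw [f_comm hf, hef]
  have hKc : ∀ x y : X, y * x * y⁻¹ ∈ (XF f Y : Set X) ↔ x ∈ (XF f Y : Set X) := by
    intro x y
    constructor
    · intro h
      have := hKn.conj_mem _ h y⁻¹
      have e : y⁻¹ * (y * x * y⁻¹) * y⁻¹⁻¹ = x := by group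
      rwa [e] at this
    · intro h
      exact hKn.conj_mem _ h y
  have hKS : ∀ t ∈ Y, ∀ x, t⁻¹ * x ∈ (XF f Y : Set X) ↔ x ∈ (XF f Y : Set X) := by
    intro t ht x
    exact (XF f Y).mul_mem_cancel_left ((XF f Y).inv_mem (hYK ht))
  set s := cut (XF f Y : Set X) e with hs
  set t := cut (XF f Y : Set X)ᶜ e with ht
  have hst : s + t = e := cut_add_compl _ e
  have hscl : IsCl s := cut_cl hKc he.1
  have htcl : IsCl t := cut_cl (fun x y => not_congr (hKc x y)) he.1
  have htC : CC f Y t := by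
    refine ⟨fun n _ h => htcl h n, ?_⟩
    rw [ht, mulF_cut hf.supp (fun n hn x => not_congr (hKS n hn x)), hfe]
  have htn : IsNilpotent (ma t) := by
    refine nil_outside hY hf hF.closed (outside_mem hY hf htC ?_)
    intro x hx
    exact cut_of_not_mem e fun h' => h' hx
  have hchF := hF.char
  have hpr : Fact ℓ.Prime := ⟨hF.prime⟩
  have hcm : Commute (ma s) (ma t) := by
    have := (isCl_iff t).1 htcl
    rw [Subalgebra.mem_center_iff] at this
    exact this (ma s)
  have hch : CharP (MonoidAlgebra F X) ℓ :=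
    charP_of_injective_algebraMap (algebraMap F (MonoidAlgebra F X)).injective ℓ
  obtain ⟨n, hn⟩ := htn
  have hpow : ∀ k : ℕ, ma e ^ (k + 1) = ma e := by
    intro k
    induction k with
    | zero => simp
    | succ k ih => rw [pow_succ, ih, ← ma_mul, he.2]
  have h1 : ma e = ma s ^ ℓ ^ n := by
    have h2 : ma e ^ ℓ ^ n = ma e := by
      obtain ⟨k, hk⟩ := Nat.exists_eq_succ_of_ne_zero (pow_pos hF.prime.pos n).ne'
      rw [hk]
      exact hpow k
    rw [← h2, ← hst, ma_add, add_pow_char_pow_of_commute _ _ hcm]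
    have h3 : ma t ^ ℓ ^ n = 0 := by
      have h4 : n ≤ ℓ ^ n := (Nat.lt_pow_self hF.prime.one_lt).le
      obtain ⟨k, hk⟩ := Nat.exists_eq_add_of_le h4
      rw [hk, pow_add, hn, zero_mul]
    rw [h3, add_zero]
  obtain ⟨k, hk⟩ := Nat.exists_eq_succ_of_ne_zero (pow_pos hF.prime.pos n).ne'
  rw [hk] at h1
  obtain ⟨v, hv, e2⟩ := pow_supp (K := XF f Y) (s := s) (fun x hx => cut_of_not_mem e hx) k
  rw [e2] at h1
  rw [ma_injective h1]
  exact hv h hh

end Pool.Agent.PP.J74
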