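import Pool.Agent.Helper66_PP.StmtsJ
import Pool.Agent.Helper66_PP.Pos1
import Pool.Agent.Helper20_PP.Nls
import Pool.Agent.Helper74_PP.Orbit

/-!
Part J: calculus of the elements of `C`, the commutative algebra `Z(F Y)` inside `F X`, and its
local structure at a primitive idempotent.
-/

open scoped BigOperators

set_option linter.unusedSectionVars false

noncomputable section

namespace Pool.Agent.PP.J74

open Pool.Agent.PP

/-! ### commutative algebra -/

section comm

theorem fitting {R : Type} [CommRing R] [IsArtinianRing R] (w : R) :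
    ∃ n y, 0 < n ∧ w ^ n = w ^ n * (w ^ n * y ^ n) := by
  obtain ⟨n, y, hy⟩ := IsArtinian.exists_pow_succ_smul_dvd w (1 : R)
  simp only [smul_eq_mul, mul_one, Nat.succ_eq_add_one] at hy
  have h1 : w ^ (n + 1 + 1) * y = w ^ (n + 1) := by
    rw [pow_succ' w (n + 1), mul_assoc, hy, ← pow_succ']
  have h2 : ∀ k, w ^ (n + 1 + k) * y ^ k = w ^ (n + 1) := by
    intro k
    induction k with
    | zero => simp
    | succ k ih =>
      calc w ^ (n + 1 + (k + 1)) * y ^ (k + 1) = w ^ k * (w ^ (n + 1 + 1) * y) * y ^ k := by ring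
        _ = w ^ k * w ^ (n + 1) * y ^ k := by rw [h1]
        _ = w ^ (n + 1 + k) * y ^ k := by ring
        _ = w ^ (n + 1) := ih
  refine ⟨n + 1, y, Nat.succ_pos n, ?_⟩
  have := h2 (n + 1)
  conv_lhs => rw [← this]
  ring

theorem nil_or_unit {R : Type} [CommRing R] [IsArtinianRing R] {φ : R} (hφ : φ * φ = φ)
    (hprim : ∀ g : R, g * g = g → φ * g = φ ∨ φ * g = 0) (w : R) (hw : φ * w = w) :
    (∃ n, w ^ n = 0) ∨ ∃ y, φ * y = y ∧ w * y = φ := by
  obtain ⟨n, y, hn, h⟩ := fitting w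
  have hφn : φ * w ^ n = w ^ n := by
    obtain ⟨k, rfl⟩ := Nat.exists_eq_succ_of_ne_zero hn.ne'
    rw [Nat.succ_eq_add_one, pow_succ', ← mul_assoc, hw]
  have he : (w ^ n * y ^ n) * (w ^ n * y ^ n) = w ^ n * y ^ n := by
    calc (w ^ n * y ^ n) * (w ^ n * y ^ n) = (w ^ n * (w ^ n * y ^ n)) * y ^ n := by ring
      _ = w ^ n * y ^ n := by rw [← h]
  have hφe : φ * (w ^ n * y ^ n) = w ^ n * y ^ n := by rw [← mul_assoc, hφn]
  rcases hprim _ he with h1 | h1
  · right
    obtain ⟨k, rfl⟩ := Nat.exists_eq_succ_of_ne_zero hn.ne'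
    refine ⟨φ * (w ^ k * y ^ (k + 1)), ?_, ?_⟩
    · rw [← mul_assoc, hφ]
    · calc w * (φ * (w ^ k * y ^ (k + 1))) = φ * (w ^ (k + 1) * y ^ (k + 1)) := by ring
        _ = φ := h1
  · left
    refine ⟨n, ?_⟩
    rw [hφe] at h1
    rw [h, h1, mul_zero]

theorem loc_comm {F R : Type} [Field F] [IsAlgClosed F] [CommRing R] [Algebra F R]
    [FiniteDimensional F R] {φ : R} (hφ : φ * φ = φ) (hne : φ ≠ 0)
    (hprim : ∀ g : R, g * g = g → φ * g = φ ∨ φ * g = 0) (z : R) (hz : φ * z = z) :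
    ∃ c : F, ∃ n : ℕ, (z - c • φ) ^ n = 0 := by
  have : IsArtinianRing R := IsArtinianRing.of_finite F R
  let V : Submodule F R :=
    { carrier := {v | φ * v = v}
      add_mem' := by
        intro a b ha hb
        change φ * (a + b) = a + b
        rw [mul_add, show φ * a = a from ha, show φ * b = b from hb]
      zero_mem' := mul_zero _
      smul_mem' := by
        intro c a ha
        change φ * (c • a) = c • a
        rw [mul_smul_comm, show φ * a = a from ha] }
  have hV : ∀ v, v ∈ V ↔ φ * v = v := fun v => Iff.rfl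
  have hnt : Nontrivial V := by
    refine ⟨⟨⟨φ, hφ⟩, 0, ?_⟩⟩
    intro h
    exact hne (congrArg Subtype.val h)
  let m : Module.End F V := (LinearMap.mulLeft F z).restrict (p := V) (q := V) (by
    intro v hv
    rw [hV] at hv ⊢
    rw [LinearMap.mulLeft_apply, ← mul_assoc, hz])
  obtain ⟨c, hc⟩ := Module.End.exists_eigenvalue m
  obtain ⟨v, hv⟩ := hc.exists_hasEigenvector
  have hv1 : z * (v : R) = c • (v : R) := congrArg Subtype.val hv.apply_eq_smul
  have hv2 : (v : R) ≠ 0 := fun h => hv.2 (Subtype.ext h)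
  have hv3 : φ * (v : R) = v := v.2
  refine ⟨c, ?_⟩
  rcases nil_or_unit hφ hprim (z - c • φ) (by rw [mul_sub, hz, mul_smul_comm, hφ]) with h | h
  · exact h
  · exfalso
    obtain ⟨y, -, hy⟩ := h
    apply hv2
    rw [← hv3, ← hy]
    have : (z - c • φ) * (v : R) = 0 := by
      rw [sub_mul, hv1, smul_mul_assoc, hv3, sub_self]
    calc (z - c • φ) * y * (v : R) = y * ((z - c • φ) * (v : R)) := by ring
      _ = 0 := by rw [this, mul_zero]

end comm

/-! ### functions and the group algebra -/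

section fn

variable {F X : Type} [Field F] [Group X] [Finite X]

theorem single_mul_ma (g : X) (a : X → F) :
    MonoidAlgebra.single g (1 : F) * ma a = ma (fun h => a (g⁻¹ * h)) := by
  apply ma_ext
  intro t
  rw [ma_coeff, coeff_mul']
  have := Fintype.ofFinite X
  rw [finsum_eq_sum_of_fintype, Finset.sum_eq_single g]
  · change (Finsupp.single g (1 : F)) g * _ = _
    rw [Finsupp.single_eq_same, one_mul, ma_coeff]
  · intro b _ hb
    change (Finsupp.single g (1 : F)) b * _ = _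
    rw [Finsupp.single_eq_of_ne hb, zero_mul]
  · intro h
    exact absurd (Finset.mem_univ _) h

theorem ma_mul_single (g : X) (a : X → F) :
    ma a * MonoidAlgebra.single g (1 : F) = ma (fun h => a (h * g⁻¹)) := by
  apply ma_ext
  intro t
  rw [ma_coeff, coeff_mul']
  have := Fintype.ofFinite X
  rw [finsum_eq_sum_of_fintype, Finset.sum_eq_single (t * g⁻¹)]
  · change _ * (Finsupp.single g (1 : F)) _ = _
    rw [mul_inv_rev, inv_inv, inv_mul_cancel_right, Finsupp.single_eq_same, mul_one, ma_coeff]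
  · intro b _ hb
    change _ * (Finsupp.single g (1 : F)) _ = _
    rw [Finsupp.single_eq_of_ne, mul_zero]
    intro h
    apply hb
    rw [← h]
    group
  · intro h
    exact absurd (Finset.mem_univ _) h

theorem ma_cjF (x : X) (u : X → F) : ma (cjF x u) =
    MonoidAlgebra.single x 1 * ma u * MonoidAlgebra.single x⁻¹ 1 := by
  rw [single_mul_ma, ma_mul_single]
  congr 1
  funext h
  simp [cjF, mul_assoc]

theorem single_inv (x : X) : MonoidAlgebra.single x (1 : F) * MonoidAlgebra.single x⁻¹ 1 = 1 := by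
  rw [MonoidAlgebra.single_mul_single, mul_inv_cancel, one_mul]; rfl

theorem single_inv' (x : X) : MonoidAlgebra.single x⁻¹ (1 : F) * MonoidAlgebra.single x 1 = 1 := by
  rw [MonoidAlgebra.single_mul_single, inv_mul_cancel, one_mul]; rfl

/-- invariance under conjugation by `n` means commuting with `n` -/
theorem comm_iff (n : X) (u : X → F) : (∀ h, u (n * h * n⁻¹) = u h) ↔
    MonoidAlgebra.single n (1 : F) * ma u = ma u * MonoidAlgebra.single n 1 := by
  rw [single_mul_ma, ma_mul_single]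
  constructor
  · intro h
    congr 1
    funext t
    rw [← h (n⁻¹ * t)]
    congr 1
    group
  · intro h t
    have h1 := congrFun (ma_injective h) (n * t)
    simp only [inv_mul_cancel_left] at h1
    exact h1.symm

/-- the restriction of a function to a set, as a function on the whole group -/
def cut (S : Set X) (u : X → F) : X → F := open Classical in fun h => if h ∈ S then u h else 0

theorem mulF_supp {S T : Set X} {a b : X → F} (ha : ∀ h, h ∉ S → a h = 0)
    (hb : ∀ h, h ∉ T → b h = 0) {x : X} (hx : ∀ s ∈ S, ∀ t ∈ T, x ≠ s * t) : mulF a b x = 0 := by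
  unfold mulF
  have := Fintype.ofFinite X
  rw [finsum_eq_sum_of_fintype]
  apply Finset.sum_eq_zero
  intro t _
  by_cases h1 : t ∈ S
  · by_cases h2 : t⁻¹ * x ∈ T
    · exact absurd (by group) (hx t h1 _ h2)
    · rw [hb _ h2, mul_zero]
  · rw [ha _ h1, zero_mul]

theorem mulF_sub' (a b c : X → F) : mulF a (b - c) = mulF a b - mulF a c := by
  apply ma_injective
  rw [ma_mul, ma_sub, ma_sub, ma_mul, ma_mul, mul_sub]

theorem mulF_add' (a b c : X → F) : mulF a (b + c) = mulF a b + mulF a c := by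
  apply ma_injective
  rw [ma_mul, ma_add, ma_add, ma_mul, ma_mul, mul_add]

theorem add_mulF' (a b c : X → F) : mulF (a + b) c = mulF a c + mulF b c := by
  apply ma_injective
  rw [ma_mul, ma_add, ma_add, ma_mul, ma_mul, add_mul]

theorem mulF_smul' (c : F) (a b : X → F) : mulF a (c • b) = c • mulF a b := by
  apply ma_injective
  rw [ma_mul, ma_smul, ma_smul, ma_mul, mul_smul_comm]

theorem smul_mulF' (c : F) (a b : X → F) : mulF (c • a) b = c • mulF a b := by
  apply ma_injective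
  rw [ma_mul, ma_smul, ma_smul, ma_mul, smul_mul_assoc]

/-- nilpotency in terms of functions -/
theorem nil_iff (w : X → F) : (∃ n : ℕ, (mulF w)^[n] w = 0) ↔ ∃ n : ℕ, ma w ^ n = 0 := by
  constructor
  · rintro ⟨n, hn⟩
    refine ⟨n + 1, ?_⟩
    have := ma_iterate w w n
    rw [hn, ma_zero] at this
    rw [pow_succ, ← this]
  · rintro ⟨n, hn⟩
    refine ⟨n, ?_⟩
    apply ma_injective
    rw [ma_iterate, hn, zero_mul, ma_zero]

theorem isRes_iff (f z : X → F) (c : F) : IsRes f z c ↔ ∃ n : ℕ, (ma z - c • ma f) ^ n = 0 := by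
  unfold IsRes
  rw [nil_iff, ma_sub, ma_smul]

end fn

/-! ### the calculus of `C` -/

section calc_

variable {F X : Type} [Field F] [Group X] [Finite X] {Y : Subgroup X} (hY : Y.Normal) {f : X → F}
  (hf : SBlk Y f)

include hf in
theorem f_idem : mulF f f = f := by
  funext x
  by_cases hx : x ∈ Y
  · have h1 := congrFun (Pool.Agent.PP.H66.mulF_sub (X := Y) (a := f) (b := f) hf.supp) ⟨x, hx⟩
    have h2 := congrFun hf.blk.1.2 ⟨x, hx⟩
    exact h1.trans h2
  · rw [hf.supp x hx]
    apply mulF_supp (S := (Y : Set X)) (T := (Y : Set X)) hf.supp hf.supp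
    rintro s hs t ht rfl
    exact hx (Y.mul_mem hs ht)

include hf in
theorem f_comm (a : X → F) : mulF f a = mulF a f := by
  apply ma_injective
  rw [ma_mul, ma_mul]
  have := (isCl_iff f).1 hf.cl
  rw [Subalgebra.mem_center_iff] at this
  exact (this (ma a)).symm

include hf in
theorem f_ne : f ≠ 0 := by
  intro h
  apply hf.blk.2.1
  rw [h]
  rfl

include hf in
theorem f_isIdem : IsIdem f := ⟨hf.cl, f_idem hf⟩

theorem inv_mulF {u v : X → F} (hu : ∀ n ∈ Y, ∀ h, u (n * h * n⁻¹) = u h)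
    (hv : ∀ n ∈ Y, ∀ h, v (n * h * n⁻¹) = v h) : ∀ n ∈ Y, ∀ h, mulF u v (n * h * n⁻¹) = mulF u v h := by
  intro n hn
  have h1 := (comm_iff n u).1 (hu n hn)
  have h2 := (comm_iff n v).1 (hv n hn)
  rw [comm_iff, ma_mul, ← mul_assoc, h1, mul_assoc, h2, mul_assoc]

theorem _root_.Pool.Agent.PP.CC.mul {u v : X → F} (hu : CC f Y u) (hv : CC f Y v) : CC f Y (mulF u v) :=
  ⟨inv_mulF hu.inv hv.inv, by rw [← mulF_assoc, hu.abs]⟩

theorem _root_.Pool.Agent.PP.CE.cc {g : X} {u : X → F} (hu : CE f Y g u) : CC f Y u := ⟨hu.inv, hu.abs⟩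

include hY in
theorem _root_.Pool.Agent.PP.CE.mul {g h : X} {u v : X → F} (hu : CE f Y g u) (hv : CE f Y h v) :
    CE f Y (g * h) (mulF u v) := by
  refine ⟨?_, inv_mulF hu.inv hv.inv, by rw [← mulF_assoc, hu.abs]⟩
  intro x hx
  apply mulF_supp (S := {t | g⁻¹ * t ∈ Y}) (T := {t | h⁻¹ * t ∈ Y}) (fun t ht => hu.supp t ht)
    (fun t ht => hv.supp t ht)
  rintro s hs t ht rfl
  apply hx
  have h1 : h⁻¹ * (g⁻¹ * s) * h⁻¹⁻¹ ∈ Y := hY.conj_mem _ hs h⁻¹
  have h2 := Y.mul_mem h1 ht
  have e : h⁻¹ * (g⁻¹ * s) * h⁻¹⁻¹ * (h⁻¹ * t) = (g * h)⁻¹ * (s * t) := by group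
  rwa [e] at h2

theorem _root_.Pool.Agent.PP.CE.congr_mem {g n : X} (hn : n ∈ Y) {u : X → F} (hu : CE f Y g u) :
    CE f Y (g * n) u := by
  refine ⟨fun h hh => hu.supp h fun h' => hh ?_, hu.inv, hu.abs⟩
  have := Y.mul_mem (Y.inv_mem hn) h'
  have e : n⁻¹ * (g⁻¹ * h) = (g * n)⁻¹ * h := by group
  rwa [e] at this

theorem _root_.Pool.Agent.PP.CE.add {g : X} {u v : X → F} (hu : CE f Y g u) (hv : CE f Y g v) : CE f Y g (u + v) := by
  refine ⟨fun h hh => ?_, fun n hn h => ?_, ?_⟩
  · rw [Pi.add_apply, hu.supp h hh, hv.supp h hh, add_zero]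
  · rw [Pi.add_apply, Pi.add_apply, hu.inv n hn, hv.inv n hn]
  · rw [mulF_add', hu.abs, hv.abs]

theorem _root_.Pool.Agent.PP.CE.smul {g : X} (c : F) {u : X → F} (hu : CE f Y g u) : CE f Y g (c • u) := by
  refine ⟨fun h hh => ?_, fun n hn h => ?_, ?_⟩
  · rw [Pi.smul_apply, hu.supp h hh, smul_zero]
  · rw [Pi.smul_apply, Pi.smul_apply, hu.inv n hn]
  · rw [mulF_smul', hu.abs]

theorem _root_.Pool.Agent.PP.CE.sub {g : X} {u v : X → F} (hu : CE f Y g u) (hv : CE f Y g v) : CE f Y g (u - v) := by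
  refine ⟨fun h hh => ?_, fun n hn h => ?_, ?_⟩
  · rw [Pi.sub_apply, hu.supp h hh, hv.supp h hh, sub_zero]
  · rw [Pi.sub_apply, Pi.sub_apply, hu.inv n hn, hv.inv n hn]
  · rw [mulF_sub', hu.abs, hv.abs]

include hf in
theorem f_CE : CE f Y 1 f := by
  refine ⟨fun h hh => hf.supp h (by simpa using hh), fun n _ h => hf.cl h n, f_idem hf⟩

include hY hf in
theorem _root_.Pool.Agent.PP.CE.cjF {g : X} {u : X → F} (hu : CE f Y g u) (x : X) :
    CE f Y (x * g * x⁻¹) (Pool.Agent.PP.cjF x u) := by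
  refine ⟨?_, ?_, ?_⟩
  · intro h hh
    apply hu.supp
    intro h'
    apply hh
    have := hY.conj_mem _ h' x
    have e : x * (g⁻¹ * (x⁻¹ * h * x)) * x⁻¹ = (x * g * x⁻¹)⁻¹ * h := by group
    rwa [e] at this
  · intro n hn h
    have h1 : x⁻¹ * n * x⁻¹⁻¹ ∈ Y := hY.conj_mem _ hn x⁻¹
    rw [inv_inv] at h1
    have h2 := hu.inv _ h1 (x⁻¹ * h * x)
    change u (x⁻¹ * (n * h * n⁻¹) * x) = u (x⁻¹ * h * x)
    rw [← h2]
    congr 1
    group
  · apply ma_injective
    rw [ma_mul, ma_cjF]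
    have h1 : ma f * MonoidAlgebra.single x (1 : F) = MonoidAlgebra.single x 1 * ma f := by
      have := (isCl_iff f).1 hf.cl
      rw [Subalgebra.mem_center_iff] at this
      exact (this _).symm
    rw [← mul_assoc, ← mul_assoc, h1, mul_assoc (MonoidAlgebra.single x 1), ← ma_mul, hu.abs]

/-- functions supported on `Y` commute with the elements of `C` -/
theorem comm_of_supp {z c : X → F} (hz : ∀ h, h ∉ Y → z h = 0)
    (hc : ∀ n ∈ Y, ∀ h, c (n * h * n⁻¹) = c h) : mulF z c = mulF c z := by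
  apply ma_injective
  rw [ma_mul, ma_mul, ma_eq_sum z]
  have := Fintype.ofFinite X
  rw [finsum_eq_sum_of_fintype, Finset.sum_mul, Finset.mul_sum]
  apply Finset.sum_congr rfl
  intro t _
  by_cases ht : t ∈ Y
  · have h1 := (comm_iff t c).1 (hc t ht)
    have e : MonoidAlgebra.single t (z t) = z t • (MonoidAlgebra.single t 1 : MonoidAlgebra F X) := by
      rw [MonoidAlgebra.smul_single, smul_eq_mul, mul_one]
    rw [e, smul_mul_assoc, mul_smul_comm, h1]
  · rw [hz t ht]
    simp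

theorem _root_.Pool.Agent.PP.CE.supp1 {z : X → F} (hz : CE f Y 1 z) : ∀ h, h ∉ Y → z h = 0 := by
  intro h hh
  apply hz.supp
  simpa using hh

theorem C1_comm {z c : X → F} (hz : CE f Y 1 z) (hc : CC f Y c) : mulF z c = mulF c z :=
  comm_of_supp hz.supp1 hc.inv

/-- the commutative algebra of the elements supported on `Y` and commuting with `Y` -/
def ZY (F : Type) [Field F] (Y : Subgroup X) : Subalgebra F (MonoidAlgebra F X) where
  carrier := {z | (∀ h, h ∉ Y → z.coeff h = 0) ∧ ∀ n ∈ Y,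
    MonoidAlgebra.single n (1 : F) * z = z * MonoidAlgebra.single n 1}
  mul_mem' := by
    rintro a b ⟨ha, ha'⟩ ⟨hb, hb'⟩
    refine ⟨?_, ?_⟩
    · intro h hh
      rw [coeff_mul']
      have := Fintype.ofFinite X
      rw [finsum_eq_sum_of_fintype]
      apply Finset.sum_eq_zero
      intro t _
      by_cases ht : t ∈ Y
      · rw [hb, mul_zero]
        intro h'
        apply hh
        have := Y.mul_mem ht h'
        rwa [mul_inv_cancel_left] at this
      · rw [ha t ht, zero_mul]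
    · intro n hn
      rw [← mul_assoc, ha' n hn, mul_assoc, hb' n hn, mul_assoc]
  add_mem' := by
    rintro a b ⟨ha, ha'⟩ ⟨hb, hb'⟩
    refine ⟨?_, ?_⟩
    · intro h hh
      rw [MonoidAlgebra.coeff_add, Finsupp.add_apply, ha h hh, hb h hh, add_zero]
    · intro n hn
      rw [mul_add, add_mul, ha' n hn, hb' n hn]
  algebraMap_mem' := by
    intro r
    refine ⟨?_, ?_⟩
    · intro h hh
      rw [Algebra.algebraMap_eq_smul_one, MonoidAlgebra.coeff_smul, Finsupp.smul_apply]
      have : (1 : MonoidAlgebra F X).coeff h = 0 := by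
        change (Finsupp.single (1 : X) (1 : F)) h = 0
        rw [Finsupp.single_eq_of_ne]
        rintro rfl
        exact hh Y.one_mem
      rw [this, smul_zero]
    · intro n _
      exact (Algebra.commutes r _).symm

theorem mem_ZY (z : X → F) : ma z ∈ ZY F Y ↔ (∀ h, h ∉ Y → z h = 0) ∧
    ∀ n ∈ Y, ∀ h, z (n * h * n⁻¹) = z h := by
  constructor
  · rintro ⟨h1, h2⟩
    exact ⟨h1, fun n hn => (comm_iff n z).2 (h2 n hn)⟩
  · rintro ⟨h1, h2⟩
    exact ⟨h1, fun n hn => (comm_iff n z).1 (h2 n hn)⟩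

theorem _root_.Pool.Agent.PP.CE.mem {z : X → F} (hz : CE f Y 1 z) : ma z ∈ ZY F Y := (mem_ZY z).2 ⟨hz.supp1, hz.inv⟩

instance : CommRing (ZY F Y) :=
  { (inferInstance : Ring (ZY F Y)) with
    mul_comm := by
      rintro ⟨a, ha⟩ ⟨b, hb⟩
      apply Subtype.ext
      change a * b = b * a
      obtain ⟨u, rfl⟩ := ma_surjective a
      obtain ⟨v, rfl⟩ := ma_surjective b
      rw [mem_ZY] at ha hb
      rw [← ma_mul, ← ma_mul, comm_of_supp ha.1 hb.2] }

end calc_

end Pool.Agent.PP.J74
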