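import Pool.Agent.Helper66_PP.StmtsLQ
import Pool.Agent.Helper50_PP.Bid

/-!
# Squad PP, part LQ, module LQM: the split of LQM into two parts
-/

open scoped BigOperators

noncomputable section

namespace Pool.Agent.PP.H74

open Pool.Agent.PP Pool.Agent.Helper51_AWC Pool.Agent.Helper79_WRA Pool.Agent.PP.H50

open Classical in
/-- RKO (helper51): a common eigenbasis of the class functions vanishing on `L`, with labels in
`Irr G`, the trace and the rank. -/
def RkoStmt : Prop := ∀ (ℓ : ℕ), ℓ.Prime → ∀ (M : Ideal (integralClosure ℤ ℂ)) [M.IsMaximal],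
  (ℓ : integralClosure ℤ ℂ) ∈ M → letI := Ideal.Quotient.field M;
  ∀ (G : Type) [Group G] [Fintype G] [Fintype (ConjClasses G)] (L : Subgroup G), L.Normal →
  ∃ (ι : Type) (_ : Fintype ι) (ψ : ι → (G → ℂ)), (∀ i, ψ i ∈ Irr G) ∧
    (∀ z : G → ℂ, (∀ x y, z (y * x * y⁻¹) = z x) → (∀ x, x ∉ L → z x = 0) →
      ∑ c ∈ Finset.univ.filter (fun c : ConjClasses G => Quotient.out c ∉ L), NN z c c =
        ∑ i, om z (ψ i)) ∧
    ∀ a : G → FF M, IsIdem a → (∀ x, x ∉ L → a x = 0) →
      rk a (cfsO (FF M) L) = Nat.card {i // res M a (ψ i) = 1}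

end Pool.Agent.PP.H74
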